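import Pool.Agent.Lib.MTN.Tool

/-!
# MTN.Bad (MP_e46137_lc): few paths are bad; the family of the sink

* `bad_card`: copy of `MTC.bad1` (file `MTC/Bad.lean`).  If `¬ Good w₁ F P` there are `c` and `U ∈ F`
  inside `col P c`, and every such `U` has size `> w₁`; by `exists_min_sub` some `W` with
  `MinExt F none W`, `w₁ < size W ≤ w` and all its vertices on `P`.  Union bound:
  `∑_{a > w₁} B ^ a * (r / (N - r)) ^ a`, `B r / (N - r) ≤ 1 / 32`.
* `sink`: copy of `MTC.endA` (file `MTC/EndA.lean`): if `a₀` is the least size of a member, then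
  at least `2 ^ (N - a₀)` colourings hit `F`; if `a₀ ≥ 1` the paths are at most
  `∑_{a ≥ a₀} (1/32) ^ a ≤ 2 ^ (- a₀)` of all.
-/

namespace MTN

open Classical Finset MTQ

variable {r N : ℕ}

namespace BadAux

theorem size_none : size (fun _ => none : PC (Fin N)) = 0 := by
  unfold size
  simp

/-- the paths through all the vertices of some minimal member of size `a` -/
noncomputable def cov (r : ℕ) (F : Finset (PC (Fin N))) (a : ℕ) : Finset (Fin r → Fin N) :=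
  (univ.filter (fun A : PC (Fin N) => MinExt F (fun _ => none) A ∧ size A = a)).biUnion fun A =>
    (inj r N).filter (fun P => ∀ v, A v ≠ none → ∃ j, P j = v)

theorem mem_cov {w θ : ℕ} {F : Finset (PC (Fin N))} (hF : Closed w θ F) {P : Fin r → Fin N}
    (hP : P ∈ inj r N) {c : Fin r → Bool} {U : PC (Fin N)} (hU : U ∈ F) (hUP : Sub U (col P c)) :
    ∃ W ∈ F, Sub W (col P c) ∧ size W ≤ w ∧ P ∈ cov r F (size W) := by
  obtain ⟨W, hW, hWU, hmin⟩ := exists_min_sub hU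
  have hWP : Sub W (col P c) := fun j x h => hUP j x (hWU j x h)
  refine ⟨W, hW, hWP, hF.1 W hW, ?_⟩
  unfold cov
  rw [mem_biUnion]
  refine ⟨W, mem_filter.2 ⟨mem_univ _, hmin, rfl⟩, mem_filter.2 ⟨hP, fun v hv => ?_⟩⟩
  exact exists_pos hWP hv

theorem mu_le {B : ℕ} (hN : 32 * B * r ≤ N - r) (hNr : 0 < N - r) (a : ℕ) :
    ((B : ℝ) * r / ((N - r : ℕ) : ℝ)) ^ a ≤ (1 / 32) ^ a := by
  have hNr' : (0 : ℝ) < ((N - r : ℕ) : ℝ) := by exact_mod_cast hNr
  have h1 : (B : ℝ) * r / ((N - r : ℕ) : ℝ) ≤ 1 / 32 := by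
    rw [div_le_div_iff₀ hNr' (by norm_num)]
    have : ((32 * B * r : ℕ) : ℝ) ≤ ((N - r : ℕ) : ℝ) := by exact_mod_cast hN
    push_cast at this
    linarith
  have h0 : (0 : ℝ) ≤ (B : ℝ) * r / ((N - r : ℕ) : ℝ) := by positivity
  exact pow_le_pow_left₀ h0 h1 a

theorem cov_card {w B : ℕ} (F : Finset (PC (Fin N))) (hcard : Few w B F)
    (hN : 32 * B * r ≤ N - r) (hNr : 0 < N - r) (hr : 1 ≤ r) {a : ℕ} (ha : a ≤ w) :
    ((cov r F a).card : ℝ) ≤ (inj r N).card * (1 / 32) ^ a := by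
  have h1 : ((univ.filter (fun A : PC (Fin N) =>
      MinExt F (fun _ => none) A ∧ size A = a)).card : ℝ) ≤ (B : ℝ) ^ a := by
    have := hcard (fun _ => none) a (by rw [size_none]; omega)
    exact_mod_cast this
  have h2 : ∀ A ∈ univ.filter (fun A : PC (Fin N) => MinExt F (fun _ => none) A ∧ size A = a),
      (((inj r N).filter (fun P => ∀ v, A v ≠ none → ∃ j, P j = v)).card : ℝ) ≤
        (inj r N).card * ((r : ℝ) / ((N - r : ℕ) : ℝ)) ^ a := by
    intro A hA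
    rw [mem_filter] at hA
    have h := paths_thru hr hNr A
    rw [hA.2.2] at h
    exact h
  have h3 : (0 : ℝ) ≤ (inj r N).card * ((r : ℝ) / ((N - r : ℕ) : ℝ)) ^ a := by positivity
  calc ((cov r F a).card : ℝ)
      ≤ ∑ A ∈ univ.filter (fun A : PC (Fin N) => MinExt F (fun _ => none) A ∧ size A = a),
        (((inj r N).filter (fun P => ∀ v, A v ≠ none → ∃ j, P j = v)).card : ℝ) := by
        unfold cov
        exact_mod_cast card_biUnion_le
    _ ≤ ∑ A ∈ univ.filter (fun A : PC (Fin N) => MinExt F (fun _ => none) A ∧ size A = a),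
        (inj r N).card * ((r : ℝ) / ((N - r : ℕ) : ℝ)) ^ a := sum_le_sum h2
    _ = (univ.filter (fun A : PC (Fin N) => MinExt F (fun _ => none) A ∧ size A = a)).card *
        ((inj r N).card * ((r : ℝ) / ((N - r : ℕ) : ℝ)) ^ a) := by rw [sum_const, nsmul_eq_mul]
    _ ≤ (B : ℝ) ^ a * ((inj r N).card * ((r : ℝ) / ((N - r : ℕ) : ℝ)) ^ a) :=
        mul_le_mul_of_nonneg_right h1 h3
    _ = (inj r N).card * ((B : ℝ) * r / ((N - r : ℕ) : ℝ)) ^ a := by
        rw [mul_div_assoc, mul_pow]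
        ring
    _ ≤ (inj r N).card * (1 / 32) ^ a :=
        mul_le_mul_of_nonneg_left (mu_le hN hNr a) (Nat.cast_nonneg _)

theorem geo_le (a₀ w : ℕ) :
    ∑ a ∈ Icc a₀ w, ((1 : ℝ) / 32) ^ a ≤ (32 / 31) * (1 / 32) ^ a₀ := by
  have h1 : ∀ m : ℕ, ∑ a ∈ Ico a₀ (a₀ + m), ((1 : ℝ) / 32) ^ a ≤
      (32 / 31) * (1 / 32) ^ a₀ - (32 / 31) * (1 / 32) ^ (a₀ + m) := by
    intro m
    induction m with
    | zero => simp
    | succ m ih =>
      rw [← Nat.add_assoc, sum_Ico_succ_top (by omega)]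
      have h3 : ((1 : ℝ) / 32) ^ (a₀ + m + 1) = (1 / 32) * (1 / 32) ^ (a₀ + m) := by
        rw [pow_succ]
        ring
      rw [h3]
      linarith
  have h2 : ∑ a ∈ Icc a₀ w, ((1 : ℝ) / 32) ^ a ≤
      ∑ a ∈ Ico a₀ (a₀ + (w + 1)), ((1 : ℝ) / 32) ^ a := by
    refine sum_le_sum_of_subset_of_nonneg ?_ (fun _ _ _ => by positivity)
    intro a ha
    rw [mem_Icc] at ha
    rw [mem_Ico]
    omega
  have h3 := h1 (w + 1)
  have h4 : (0 : ℝ) ≤ (1 / 32) ^ (a₀ + (w + 1)) := by positivity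
  linarith

/-- the union bound -/
theorem union_le {w B a₀ : ℕ} (F : Finset (PC (Fin N))) (hcard : Few w B F)
    (hN : 32 * B * r ≤ N - r) (hNr : 0 < N - r) (hr : 1 ≤ r)
    (E : Finset (Fin r → Fin N)) (hE : E ⊆ (Icc a₀ w).biUnion (cov r F)) :
    (E.card : ℝ) ≤ (inj r N).card * ((32 / 31) * (1 / 32) ^ a₀) := by
  calc (E.card : ℝ) ≤ ∑ a ∈ Icc a₀ w, ((cov r F a).card : ℝ) := by
        exact_mod_cast (card_le_card hE).trans card_biUnion_le
    _ ≤ ∑ a ∈ Icc a₀ w, ((inj r N).card : ℝ) * (1 / 32) ^ a :=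
        sum_le_sum fun a ha => cov_card F hcard hN hNr hr (mem_Icc.1 ha).2
    _ = (inj r N).card * ∑ a ∈ Icc a₀ w, (1 / 32) ^ a := by rw [mul_sum]
    _ ≤ (inj r N).card * ((32 / 31) * (1 / 32) ^ a₀) :=
        mul_le_mul_of_nonneg_left (geo_le a₀ w) (Nat.cast_nonneg _)

theorem pos_sub {B : ℕ} (hB : 1 ≤ B) (hN : 32 * B * r ≤ N - r) (hr : 1 ≤ r) : 0 < N - r := by
  have : 1 ≤ 32 * B * r := Nat.succ_le_of_lt (by positivity)
  omega

end BadAux

open BadAux

theorem bad_card {w w₁ θ B : ℕ} (F : Finset (PC (Fin N))) (hF : Closed w θ F) (hB : 1 ≤ B)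
    (hcard : Few w B F) (hN : 32 * B * r ≤ N - r) (hr : 1 ≤ r) :
    ((inj r N).filter (fun P => ¬ Good w₁ F P)).card * 4 ^ w₁ ≤ 2 * (inj r N).card := by
  have hNr := pos_sub hB hN hr
  have hE : (inj r N).filter (fun P => ¬ Good w₁ F P) ⊆ (Icc (w₁ + 1) w).biUnion (cov r F) := by
    intro P hP
    rw [mem_filter] at hP
    obtain ⟨hinj, hg⟩ := hP
    unfold Good at hg
    push Not at hg
    obtain ⟨c, ⟨U, hU, hUP⟩, hw⟩ := hg
    obtain ⟨W, hW, hWP, hWw, hcov⟩ := mem_cov hF hinj hU hUP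
    have h1 := hw W hW hWP
    rw [mem_biUnion]
    exact ⟨size W, mem_Icc.2 ⟨h1, hWw⟩, hcov⟩
  have h1 := union_le F hcard hN hNr hr _ hE
  have h2 : ((1 : ℝ) / 32) ^ (w₁ + 1) ≤ (1 / 32) * (1 / 4) ^ w₁ := by
    rw [pow_succ, mul_comm]
    refine mul_le_mul_of_nonneg_left ?_ (by norm_num)
    exact pow_le_pow_left₀ (by norm_num) (by norm_num) w₁
  have h3 : (0 : ℝ) ≤ (inj r N).card := Nat.cast_nonneg _
  have h4 : (((inj r N).filter (fun P => ¬ Good w₁ F P)).card : ℝ) * 4 ^ w₁ ≤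
      2 * (inj r N).card := by
    calc (((inj r N).filter (fun P => ¬ Good w₁ F P)).card : ℝ) * 4 ^ w₁
        ≤ ((inj r N).card * ((32 / 31) * ((1 / 32) * (1 / 4) ^ w₁))) * 4 ^ w₁ := by
          refine mul_le_mul_of_nonneg_right (h1.trans ?_) (by positivity)
          refine mul_le_mul_of_nonneg_left ?_ h3
          exact mul_le_mul_of_nonneg_left h2 (by norm_num)
      _ = (inj r N).card * (1 / 31) * ((1 / 4) ^ w₁ * 4 ^ w₁) := by ring
      _ = (inj r N).card * (1 / 31) := by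
          rw [← mul_pow]
          norm_num
      _ ≤ 2 * (inj r N).card := by linarith
  exact_mod_cast h4

theorem sink {w θ B : ℕ} (F : Finset (PC (Fin N))) (hF : Closed w θ F) (hB : 1 ≤ B)
    (hcard : Few w B F) (hN : 32 * B * r ≤ N - r) (hr : 1 ≤ r) :
    ((inj r N).filter (fun P => ∃ c, ∃ U ∈ F, Sub U (col P c))).card * 2 ^ N ≤
      (univ.filter (fun χ : Fin N → Bool => Hits F χ)).card * (inj r N).card := by
  have hNr := pos_sub hB hN hr
  rcases F.eq_empty_or_nonempty with hFe | hFne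
  · have h1 : (inj r N).filter (fun P => ∃ c, ∃ U ∈ F, Sub U (col P c)) = ∅ := by
      rw [filter_eq_empty_iff]
      rintro P - ⟨c, U, hU, -⟩
      rw [hFe] at hU
      exact absurd hU (notMem_empty _)
    rw [h1, card_empty, zero_mul]
    exact Nat.zero_le _
  obtain ⟨U₀, hU₀, hmin⟩ := exists_min_image F size hFne
  obtain ⟨a₀, ha₀⟩ : ∃ a₀, a₀ = size U₀ := ⟨_, rfl⟩
  have ha₀N : a₀ ≤ N := by
    rw [ha₀]
    unfold size
    exact (card_le_univ _).trans (by rw [Fintype.card_fin])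
  have hhit : 2 ^ (N - a₀) ≤ (univ.filter (fun χ : Fin N → Bool => Hits F χ)).card := by
    have h1 := agree_card U₀
    rw [← ha₀, Fintype.card_fin] at h1
    have h2 : (2 : ℕ) ^ N = 2 ^ (N - a₀) * 2 ^ a₀ := by
      rw [← pow_add]
      congr 1
      omega
    rw [h2] at h1
    have h3 := Nat.eq_of_mul_eq_mul_right (by positivity) h1
    rw [← h3]
    refine card_le_card ?_
    intro χ hχ
    rw [mem_filter] at hχ ⊢
    exact ⟨mem_univ _, U₀, hU₀, hχ.2⟩
  by_cases h0 : a₀ = 0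
  · rw [h0, Nat.sub_zero] at hhit
    rw [mul_comm]
    exact Nat.mul_le_mul hhit (card_le_card (filter_subset _ _))
  have hE : (inj r N).filter (fun P => ∃ c, ∃ U ∈ F, Sub U (col P c)) ⊆
      (Icc a₀ w).biUnion (cov r F) := by
    intro P hP
    rw [mem_filter] at hP
    obtain ⟨hinj, c, U, hU, hUP⟩ := hP
    obtain ⟨W, hW, -, hWw, hcov⟩ := mem_cov hF hinj hU hUP
    have h1 := hmin W hW
    rw [mem_biUnion]
    exact ⟨size W, mem_Icc.2 ⟨by omega, hWw⟩, hcov⟩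
  have h1 := union_le F hcard hN hNr hr _ hE
  have h2 : (32 / 31) * ((1 : ℝ) / 32) ^ a₀ ≤ (1 / 2) ^ a₀ := by
    obtain ⟨b, hb⟩ : ∃ b, a₀ = b + 1 := ⟨a₀ - 1, by omega⟩
    rw [hb, pow_succ, pow_succ]
    have h6 : ((1 : ℝ) / 32) ^ b ≤ (1 / 2) ^ b :=
      pow_le_pow_left₀ (by norm_num) (by norm_num) b
    have h7 : (0 : ℝ) ≤ (1 / 2) ^ b := by positivity
    nlinarith
  have h3 : (0 : ℝ) ≤ (inj r N).card := Nat.cast_nonneg _
  have h7 : (((inj r N).filter (fun P => ∃ c, ∃ U ∈ F, Sub U (col P c))).card : ℝ) * 2 ^ N ≤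
      2 ^ (N - a₀) * (inj r N).card := by
    have h8 : (2 : ℝ) ^ N = 2 ^ (N - a₀) * 2 ^ a₀ := by
      rw [← pow_add]
      congr 1
      omega
    rw [h8]
    calc _ ≤ ((inj r N).card * (1 / 2) ^ a₀) * ((2 : ℝ) ^ (N - a₀) * 2 ^ a₀) :=
          mul_le_mul_of_nonneg_right (h1.trans (mul_le_mul_of_nonneg_left h2 h3)) (by positivity)
      _ = 2 ^ (N - a₀) * (inj r N).card * ((1 / 2) ^ a₀ * 2 ^ a₀) := by ring
      _ = 2 ^ (N - a₀) * (inj r N).card := by
          rw [← mul_pow]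
          norm_num
  have h9 : ((inj r N).filter (fun P => ∃ c, ∃ U ∈ F, Sub U (col P c))).card * 2 ^ N ≤
      2 ^ (N - a₀) * (inj r N).card := by exact_mod_cast h7
  exact h9.trans (Nat.mul_le_mul_right _ hhit)

end MTN
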