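import Pool.Agent.Lib.MTN.Defs

/-!
# MTN.Top (MP_e46137_lc): restricting the top coefficient

* `tc_empty`: `powerset ∅ = {∅}`, `ovr ∅ c ∅ = c`.
* `tc_insert`: for `j ∉ K`: `tc g (insert j K) c = tc g K (update c j false) - tc g K (update c j true)`:
  `Finset.sum_powerset_insert`; `ovr (insert j K) c J = ovr K (update c j false) J` for `J ⊆ K` and
  `ovr (insert j K) c (insert j J) = ovr K (update c j true) J`.
* `tc_restrict`: induction on `K \ K'` (remove one element `j ∈ K \ K'` at a time, `tc_insert`).
* `tc_dep`: `tc_restrict` with `K' = {j}`; `tc g {j} c' = g (update c' j false) - g (update c' j true)`.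
-/

namespace MTN

open Classical Finset MTQ

variable {r N : ℕ}

theorem tc_empty (g : (Fin r → Bool) → ℤ) (c : Fin r → Bool) : tc g ∅ c = g c := by
  unfold tc
  rw [powerset_empty, sum_singleton, card_empty, pow_zero, one_mul]
  congr 1

theorem tc_insert (g : (Fin r → Bool) → ℤ) {K : Finset (Fin r)} {j : Fin r} (hj : j ∉ K)
    (c : Fin r → Bool) : tc g (insert j K) c =
      tc g K (Function.update c j false) - tc g K (Function.update c j true) := by
  unfold tc
  rw [sum_powerset_insert hj, sub_eq_add_neg, ← sum_neg_distrib]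
  congr 1
  · refine sum_congr rfl fun J hJ => ?_
    have hjJ : j ∉ J := fun h => hj (mem_powerset.1 hJ h)
    congr 2
    funext i
    unfold ovr
    by_cases hi : i = j
    · subst hi
      rw [if_pos (mem_insert_self _ _), if_neg hj, Function.update_self, decide_eq_false hjJ]
    · rw [Function.update_of_ne hi]
      by_cases hiK : i ∈ K
      · rw [if_pos (mem_insert_of_mem hiK), if_pos hiK]
      · rw [if_neg, if_neg hiK]
        rw [mem_insert]
        tauto
  · refine sum_congr rfl fun J hJ => ?_
    have hjJ : j ∉ J := fun h => hj (mem_powerset.1 hJ h)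
    rw [card_insert_of_notMem hjJ, pow_succ]
    have e : ovr (insert j K) c (insert j J) = ovr K (Function.update c j true) J := by
      funext i
      unfold ovr
      by_cases hi : i = j
      · subst hi
        rw [if_pos (mem_insert_self _ _), if_neg hj, Function.update_self,
          decide_eq_true (mem_insert_self _ _)]
      · rw [Function.update_of_ne hi]
        by_cases hiK : i ∈ K
        · rw [if_pos (mem_insert_of_mem hiK), if_pos hiK, decide_eq_decide, mem_insert]
          tauto
        · rw [if_neg, if_neg hiK]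
          rw [mem_insert]
          tauto
    rw [e]
    ring

theorem tc_restrict {g : (Fin r → Bool) → ℤ} {K K' : Finset (Fin r)} (h : K' ⊆ K)
    {c : Fin r → Bool} (hc : tc g K c ≠ 0) :
    ∃ c' : Fin r → Bool, (∀ j, j ∉ K \ K' → c' j = c j) ∧ tc g K' c' ≠ 0 := by
  obtain ⟨D, hD⟩ : ∃ D, D = K \ K' := ⟨_, rfl⟩
  induction D using Finset.induction_on generalizing K c with
  | empty =>
    have h1 : K = K' := by
      refine Subset.antisymm ?_ h
      rw [← sdiff_eq_empty_iff_subset]
      exact hD.symm
    subst h1
    exact ⟨c, fun j _ => rfl, hc⟩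
  | insert j D hj ih =>
    have hjK : j ∈ K ∧ j ∉ K' := by
      rw [← mem_sdiff, ← hD]
      exact mem_insert_self _ _
    have hK1 : insert j (K.erase j) = K := insert_erase hjK.1
    rw [← hK1, tc_insert g (notMem_erase j K)] at hc
    have hex : ∃ b, tc g (K.erase j) (Function.update c j b) ≠ 0 := by
      by_contra hcon
      push Not at hcon
      rw [hcon false, hcon true, sub_zero] at hc
      exact hc rfl
    obtain ⟨b, hb⟩ := hex
    have hD' : D = K.erase j \ K' := by
      ext i
      have h1 : i ∈ insert j D ↔ i ∈ K \ K' := by rw [hD]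
      rw [mem_insert, mem_sdiff] at h1
      rw [mem_sdiff, mem_erase]
      constructor
      · intro hi
        have h2 : i ≠ j := fun h => hj (h ▸ hi)
        exact ⟨⟨h2, (h1.1 (Or.inr hi)).1⟩, (h1.1 (Or.inr hi)).2⟩
      · rintro ⟨⟨h2, h3⟩, h4⟩
        exact (h1.2 ⟨h3, h4⟩).resolve_left h2
    obtain ⟨c', hc', hne⟩ := ih (subset_erase.2 ⟨h, hjK.2⟩) hb hD'
    refine ⟨c', fun i hi => ?_, hne⟩
    rw [← hD, mem_insert, not_or] at hi
    rw [hc' i (by rw [← hD']; exact hi.2), Function.update_of_ne hi.1]

theorem tc_dep {g : (Fin r → Bool) → ℤ} {K : Finset (Fin r)} {c : Fin r → Bool}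
    (hc : tc g K c ≠ 0) {j : Fin r} (hj : j ∈ K) :
    ∃ d : Fin r → Bool, (∀ i, i ∉ K → d i = c i) ∧
      g (Function.update d j false) ≠ g (Function.update d j true) := by
  obtain ⟨c', hc', hne⟩ := tc_restrict (K' := {j}) (singleton_subset_iff.2 hj) hc
  refine ⟨c', fun i hi => hc' i ?_, ?_⟩
  · rw [mem_sdiff]
    exact fun h => hi h.1
  · have e : ({j} : Finset (Fin r)) = insert j ∅ := rfl
    rw [e, tc_insert g (notMem_empty j), tc_empty, tc_empty] at hne
    intro h
    apply hne
    rw [h, sub_self]

end MTN
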