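import Pool.Agent.Lib.MTN.Tool
import Pool.Agent.Lib.MTN.Top
import Pool.Agent.Lib.MTQ.Clos

/-!
# MTN.Chain (MP_e46137_lc): certificates that reveal the positions of a top coefficient

* `ch_card`: strong induction on `a`.  `a = 0`: only `none` (a `Ch.step` has size `≥ 1`).  `a ≥ 1`: `D'` comes
  from `D` (size `a' < a`), a minimal extension `A` of size `a - a'` (disjoint supports, so
  `size D' = size D + size A`; `≤ B ^ (a - a')` choices by `Few`, `size D + size A = a ≤ w`) and the
  colours on the support of `A` (`2 ^ (a - a')` choices; `D'` is determined by `D`, `A` and the function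
  `fun v => if A v ≠ none then D' v = some true` …).  So at most
  `∑_{a' < a} (4B)^a' (2B)^(a - a') = (2B)^a ∑_{a' < a} 2^a' ≤ (4B)^a`.
* `ch_exists`: generalise over partial results: for all `Kr ⊆ K`, `c`, `D` with `Ch F D`,
  `tc (val F P) Kr c ≠ 0`, `∀ v, D v ≠ none → ∃ i, i ∉ Kr ∧ P i = v ∧ D v = some (c i)`,
  `∀ j ∈ K, j ∉ Kr → D (P j) ≠ none`, `size D + Kr.card * w₁ ≤ K.card * w₁`, there is the required
  one; strong induction on `Kr.card`.  `Kr = ∅`: `D` itself.  Otherwise pick `j ∈ Kr`; `tc_dep` gives
  `d` (equal to `c` off `Kr`) with different values at `update d j false`, `update d j true`; let `e` be the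
  one with value `1` (the values are `0`, `1`), `e'` the other.  `Good` gives `U ∈ F` inside `col P e` of
  size `≤ w₁`; `D` is inside `col P e` (its vertices have positions off `Kr`).  `MTQ.exists_minExt` (with
  `X = col P e`; `size D + size U ≤ w`) gives `A`, `MinExt F D A`, `Sub A U`.  `A (P j) ≠ none`: otherwise
  `join D A ∈ F` is inside `col P e'` (`sub_update`), so the value at `e'` is `1`.  So `1 ≤ size A`.
  Let `Kr' = Kr.filter (fun i => A (P i) = none)`, a proper subset; `tc_restrict` gives `c'`, equal to `c`
  off `Kr \ Kr'`, with `tc (val F P) Kr' c' ≠ 0`.  Put `D' v = if D v ≠ none ∨ A v ≠ none then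
  col P c' v else none`.  (If `D v ≠ none`: `v = P i`, `i ∉ Kr`, `c' i = c i`, so `D' v = D v`.  If
  `A v ≠ none`: `v = P i` for some `i`; `i ∉ Kr'`.)  `size D' ≤ size D + w₁`.
-/

namespace MTN

open Classical Finset MTQ

variable {r N : ℕ}

namespace ChainAux

theorem size_step {D A D' : PC (Fin N)} (hdis : ∀ v, D v ≠ none → A v = none)
    (h : ∀ v, D' v ≠ none ↔ D v ≠ none ∨ A v ≠ none) : size D' = size D + size A := by
  unfold size
  rw [← card_union_of_disjoint]
  · congr 1
    ext v
    rw [mem_union, mem_filter, mem_filter, mem_filter, h v]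
    simp
  · rw [disjoint_left]
    intro v hv hv'
    exact (mem_filter.1 hv').2 (hdis v (mem_filter.1 hv).2)

theorem pow_sum (n : ℕ) : ∑ i ∈ range n, 2 ^ i + 1 = 2 ^ n := by
  induction n with
  | zero => simp
  | succ n ih =>
    rw [sum_range_succ, pow_succ]
    omega

/-- the colouring `D'` from `D`, `A` and the set of the vertices of `A` of the colour `true` -/
noncomputable def rc (D A : PC (Fin N)) (T : Finset (Fin N)) : PC (Fin N) := fun v =>
  if D v ≠ none then D v else if A v ≠ none then (if v ∈ T then some true else some false) else none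

end ChainAux

open ChainAux

theorem ch_card {w B : ℕ} {F : Finset (PC (Fin N))} (hB : 1 ≤ B) (hcard : Few w B F) :
    ∀ a ≤ w, (univ.filter (fun D : PC (Fin N) => Ch F D ∧ size D = a)).card ≤ (4 * B) ^ a := by
  intro a
  induction a using Nat.strong_induction_on with
  | _ a ih =>
  intro haw
  rcases Nat.eq_zero_or_pos a with ha | ha
  · subst ha
    rw [pow_zero, card_le_one]
    intro D hD D' hD'
    rw [mem_filter] at hD hD'
    rw [eq_none_of_size hD.2.2, eq_none_of_size hD'.2.2]
  · have hsub : (univ.filter (fun D : PC (Fin N) => Ch F D ∧ size D = a)) ⊆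
        (range a).biUnion (fun a' => (univ.filter (fun D : PC (Fin N) => Ch F D ∧ size D = a')).biUnion
          (fun D => (univ.filter (fun A : PC (Fin N) => MinExt F D A ∧ size A = a - a')).biUnion
            (fun A => (univ.filter (fun v => A v ≠ none)).powerset.image (fun T => rc D A T)))) := by
      intro D' hD'
      rw [mem_filter] at hD'
      obtain ⟨-, hch, hsz⟩ := hD'
      cases hch with
      | nil =>
        rw [size_none] at hsz
        omega
      | @step D A _ hD hA hA1 hDD' hsupp =>
        have hs := size_step hA.1 hsupp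
        rw [mem_biUnion]
        refine ⟨size D, mem_range.2 (by omega), ?_⟩
        rw [mem_biUnion]
        refine ⟨D, mem_filter.2 ⟨mem_univ _, hD, rfl⟩, ?_⟩
        rw [mem_biUnion]
        refine ⟨A, mem_filter.2 ⟨mem_univ _, hA, by omega⟩, ?_⟩
        rw [mem_image]
        refine ⟨univ.filter (fun v => A v ≠ none ∧ D' v = some true), ?_, ?_⟩
        · rw [mem_powerset]
          intro v hv
          exact mem_filter.2 ⟨mem_univ _, (mem_filter.1 hv).2.1⟩
        · funext v
          unfold rc
          by_cases h1 : D v ≠ none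
          · rw [if_pos h1]
            obtain ⟨c, hc⟩ := Option.ne_none_iff_exists'.1 h1
            rw [hDD' v c hc, hc]
          · rw [if_neg h1]
            by_cases h2 : A v ≠ none
            · rw [if_pos h2]
              have h3 : D' v ≠ none := (hsupp v).2 (Or.inr h2)
              obtain ⟨c, hc⟩ := Option.ne_none_iff_exists'.1 h3
              rw [hc]
              cases c with
              | true =>
                rw [if_pos (mem_filter.2 ⟨mem_univ _, h2, hc⟩)]
              | false =>
                rw [if_neg]
                intro h4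
                have h5 := (mem_filter.1 h4).2.2
                rw [hc] at h5
                exact absurd (Option.some.inj h5) (by decide)
            · rw [if_neg h2]
              by_contra h3
              rcases (hsupp v).1 (fun h => h3 h.symm) with h4 | h4
              · exact h1 h4
              · exact h2 h4
    refine (card_le_card hsub).trans (card_biUnion_le.trans ?_)
    have hterm : ∀ a' ∈ range a,
        ((univ.filter (fun D : PC (Fin N) => Ch F D ∧ size D = a')).biUnion
          (fun D => (univ.filter (fun A : PC (Fin N) => MinExt F D A ∧ size A = a - a')).biUnion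
            (fun A => (univ.filter (fun v => A v ≠ none)).powerset.image
              (fun T => rc D A T)))).card ≤ 2 ^ a' * (2 * B) ^ a := by
      intro a' ha'
      rw [mem_range] at ha'
      have h1 : ∀ D ∈ univ.filter (fun D : PC (Fin N) => Ch F D ∧ size D = a'),
          ((univ.filter (fun A : PC (Fin N) => MinExt F D A ∧ size A = a - a')).biUnion
            (fun A => (univ.filter (fun v => A v ≠ none)).powerset.image
              (fun T => rc D A T))).card ≤ B ^ (a - a') * 2 ^ (a - a') := by
        intro D hD
        rw [mem_filter] at hD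
        have h2 : ∀ A ∈ univ.filter (fun A : PC (Fin N) => MinExt F D A ∧ size A = a - a'),
            ((univ.filter (fun v => A v ≠ none)).powerset.image (fun T => rc D A T)).card ≤
              2 ^ (a - a') := by
          intro A hA
          rw [mem_filter] at hA
          refine card_image_le.trans ?_
          rw [card_powerset]
          have h3 : (univ.filter (fun v => A v ≠ none)).card = a - a' := hA.2.2
          rw [h3]
        refine card_biUnion_le.trans ((sum_le_sum h2).trans ?_)
        rw [sum_const, smul_eq_mul]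
        exact Nat.mul_le_mul_right _ (hcard D (a - a') (by rw [hD.2.2]; omega))
      refine card_biUnion_le.trans ((sum_le_sum h1).trans ?_)
      rw [sum_const, smul_eq_mul]
      have h2 := ih a' ha' (by omega)
      refine (Nat.mul_le_mul_right _ h2).trans (le_of_eq ?_)
      have h3 : (2 * B) ^ a = (2 * B) ^ a' * (2 * B) ^ (a - a') := by
        rw [← pow_add]
        congr 1
        omega
      have h4 : (4 * B) ^ a' = 2 ^ a' * (2 * B) ^ a' := by
        rw [← mul_pow]
        congr 1
        ring
      have h5 : B ^ (a - a') * 2 ^ (a - a') = (2 * B) ^ (a - a') := by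
        rw [← mul_pow, mul_comm B 2]
      rw [h3, h4, h5]
      ring
    refine (sum_le_sum hterm).trans ?_
    rw [← sum_mul]
    have h1 := pow_sum a
    have h2 : (4 * B) ^ a = 2 ^ a * (2 * B) ^ a := by
      rw [← mul_pow]
      congr 1
      ring
    rw [h2]
    exact Nat.mul_le_mul_right _ (by omega)

theorem ch_exists {w w₁ θ : ℕ} {F : Finset (PC (Fin N))} (hF : Closed w θ F)
    {P : Fin r → Fin N} (hP : Function.Injective P) (hg : Good w₁ F P) {K : Finset (Fin r)}
    {c : Fin r → Bool} (hw : K.card * w₁ ≤ w) (hc : tc (val F P) K c ≠ 0) :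
    ∃ D : PC (Fin N), Ch F D ∧ size D ≤ K.card * w₁ ∧ (∀ v, D v ≠ none → ∃ j, P j = v) ∧
      ∀ j ∈ K, D (P j) ≠ none := by
  have key : ∀ Kr : Finset (Fin r), Kr ⊆ K → ∀ (c : Fin r → Bool) (D : PC (Fin N)), Ch F D →
      tc (val F P) Kr c ≠ 0 →
      (∀ v, D v ≠ none → ∃ i, i ∉ Kr ∧ P i = v ∧ D v = some (c i)) →
      (∀ j ∈ K, j ∉ Kr → D (P j) ≠ none) → size D + Kr.card * w₁ ≤ K.card * w₁ →
      ∃ D : PC (Fin N), Ch F D ∧ size D ≤ K.card * w₁ ∧ (∀ v, D v ≠ none → ∃ j, P j = v) ∧
        ∀ j ∈ K, D (P j) ≠ none := by
    intro Kr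
    induction Kr using Finset.strongInduction with
    | H Kr ih =>
    intro hKr c D hCh hc hD1 hD2 hsz
    rcases Kr.eq_empty_or_nonempty with hemp | ⟨j, hj⟩
    · subst hemp
      refine ⟨D, hCh, by omega, ?_, fun j hj => hD2 j hj (notMem_empty j)⟩
      intro v hv
      obtain ⟨i, -, hi, -⟩ := hD1 v hv
      exact ⟨i, hi⟩
    · obtain ⟨d, hd, hne⟩ := tc_dep hc hj
      obtain ⟨b, hb1, hb0⟩ : ∃ b : Bool, (∃ U ∈ F, Sub U (col P (Function.update d j b))) ∧
          ¬ ∃ U ∈ F, Sub U (col P (Function.update d j (!b))) := by
        unfold val at hne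
        by_cases h1 : ∃ U ∈ F, Sub U (col P (Function.update d j false))
        · refine ⟨false, h1, fun h2 => hne ?_⟩
          have h2' : ∃ U ∈ F, Sub U (col P (Function.update d j true)) := h2
          rw [if_pos h1, if_pos h2']
        · refine ⟨true, ?_, h1⟩
          by_contra h2
          exact hne (by rw [if_neg h1, if_neg h2])
      obtain ⟨U, hU, hUe, hUs⟩ := hg _ hb1
      have hDe : Sub D (col P (Function.update d j b)) := by
        intro v x hv
        obtain ⟨i, hi, hPi, hDi⟩ := hD1 v (by rw [hv]; simp)
        rw [← hPi, col_apply hP]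
        have hij : i ≠ j := fun h => hi (h ▸ hj)
        rw [Function.update_of_ne hij, hd i hi, ← hDi, hv]
      have hKr1 : 1 ≤ Kr.card := card_pos.2 ⟨j, hj⟩
      have hmul : w₁ ≤ Kr.card * w₁ := Nat.le_mul_of_pos_left _ hKr1
      obtain ⟨A, hA, hAU⟩ := exists_minExt hF hDe hUe hU (by omega)
      have hAe : Sub A (col P (Function.update d j b)) := hAU.trans hUe
      have hDj : D (P j) = none := by
        by_contra h
        obtain ⟨i, hi, hPi, -⟩ := hD1 _ h
        exact hi (hP hPi ▸ hj)
      have hAj : A (P j) ≠ none := by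
        intro h
        have h1 : join D A (P j) = none := by
          show (D (P j)).or (A (P j)) = none
          rw [hDj, h]
          rfl
        have h2 := sub_update hP (join_sub hDe hAe) h1 (!b)
        rw [Function.update_idem] at h2
        exact hb0 ⟨_, hA.2.1, h2⟩
      have hA1 : 1 ≤ size A := by
        unfold size
        exact card_pos.2 ⟨P j, mem_filter.2 ⟨mem_univ _, hAj⟩⟩
      have hAs : size A ≤ w₁ := (size_mono hAU).trans hUs
      obtain ⟨Kr', hKr'⟩ : ∃ Kr' : Finset (Fin r), Kr' = Kr.filter (fun i => A (P i) = none) :=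
        ⟨_, rfl⟩
      have hmem : ∀ i, i ∈ Kr' ↔ i ∈ Kr ∧ A (P i) = none := by
        intro i
        rw [hKr', mem_filter]
      have hss : Kr' ⊂ Kr := by
        rw [Finset.ssubset_iff_of_subset (by rw [hKr']; exact filter_subset _ _)]
        exact ⟨j, hj, fun h => hAj ((hmem j).1 h).2⟩
      obtain ⟨c', hc'1, hc'2⟩ := tc_restrict hss.1 hc
      obtain ⟨D', hD'⟩ : ∃ D' : PC (Fin N), ∀ v, D' v = if D v ≠ none ∨ A v ≠ none then
        col P c' v else none := ⟨_, fun v => rfl⟩
      have hDpos : ∀ v, D v ≠ none → ∃ i, i ∉ Kr' ∧ P i = v ∧ D' v = some (c' i) := by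
        intro v hv
        obtain ⟨i, hi, hPi, hDi⟩ := hD1 v hv
        refine ⟨i, fun h => hi ((hmem i).1 h).1, hPi, ?_⟩
        rw [hD', if_pos (Or.inl hv), ← hPi, col_apply hP]
      have hApos : ∀ v, A v ≠ none → ∃ i, i ∉ Kr' ∧ P i = v ∧ D' v = some (c' i) := by
        intro v hv
        obtain ⟨i, hPi⟩ := exists_pos hAe hv
        refine ⟨i, fun h => hv ?_, hPi, ?_⟩
        · rw [← hPi]
          exact ((hmem i).1 h).2
        · rw [hD', if_pos (Or.inr hv), ← hPi, col_apply hP]
      have hsupp : ∀ v, D' v ≠ none ↔ D v ≠ none ∨ A v ≠ none := by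
        intro v
        constructor
        · intro h
          by_contra h2
          rw [hD', if_neg h2] at h
          exact h rfl
        · rintro (h | h)
          · obtain ⟨i, -, -, h2⟩ := hDpos v h
            rw [h2]
            simp
          · obtain ⟨i, -, -, h2⟩ := hApos v h
            rw [h2]
            simp
      have hDD' : Sub D D' := by
        intro v x hv
        obtain ⟨i, hi, hPi, hDi⟩ := hD1 v (by rw [hv]; simp)
        rw [hD', if_pos (Or.inl (by rw [hv]; simp)), ← hPi, col_apply hP,
          hc'1 i (fun h => hi (mem_sdiff.1 h).1), ← hDi, hv]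
      have hsz' := size_step hA.1 hsupp
      have hcard' : Kr'.card + 1 ≤ Kr.card := card_lt_card hss
      have hmul' : (Kr'.card + 1) * w₁ ≤ Kr.card * w₁ := Nat.mul_le_mul_right _ hcard'
      refine ih Kr' hss (hss.1.trans hKr) c' D' (Ch.step hCh hA hA1 hDD' hsupp) hc'2 ?_ ?_ ?_
      · intro v hv
        rcases (hsupp v).1 hv with h | h
        · exact hDpos v h
        · exact hApos v h
      · intro i hi hiKr'
        rw [hsupp]
        by_cases hiKr : i ∈ Kr
        · right
          intro h
          exact hiKr' ((hmem i).2 ⟨hiKr, h⟩)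
        · exact Or.inl (hD2 i hi hiKr)
      · rw [hsz']
        rw [Nat.add_mul, Nat.one_mul] at hmul'
        omega
  refine key K Subset.rfl c (fun _ => none) Ch.nil hc ?_ ?_ ?_
  · intro v hv
    exact absurd rfl hv
  · intro j hj hj'
    exact absurd hj hj'
  · rw [size_none]
    omega

end MTN
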