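import Pool.Agent.Lib.MTN.Tool

/-!
# MTN.Cnt (MP_e46137_lc): paths through given vertices, some of them at given positions

Let `a = size D`, `S` the support of `D`, `k = K.card`.  For `P` in the set let `g : K → S`,
`g j = P j`, and `f : S → Fin r`, `P (f v) = v`; `f (g j) = j` for `j ∈ K`.  The set is covered by the
functions `f : S → Fin r` which are injective (as `P` is a function) and whose range contains `K`; for
each such `f` the paths with `P (f v) = v` are at most `(inj r N).card / (N - r) ^ a` (`MTC.cnt_union` with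
`J = ∅`, `A = f '' S`, as in the proof of `Bad1Aux.paths_le` in `MTC/Bad.lean`).  Number of such `f`: it is
determined by the injective `g : K → S` (`a.descFactorial k` choices, `Fintype.card_embedding_eq`) and its
values on `S \ range g` (`r ^ (a - k)` choices).  If `k > a` there is no such `P`.
`cnt_chain`: union bound over `a = size D`, `k ≤ a ≤ w` (`k ≤ a` as `P` is injective) and `D`;
`a.descFactorial k = k! * choose a k ≤ k ^ k * 2 ^ a`, so in the reals the bound is
`∑_a (4 B) ^ a * k ^ k * 2 ^ a * r ^ (a - k) / (N - r) ^ a = (8 B k / (N - r)) ^ k * ∑_x (8 B r / (N - r)) ^ x`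
and `8 B r / (N - r) ≤ 1 / 2`.
-/

namespace MTN

open Classical Finset MTQ

variable {r N : ℕ}

namespace CntAux

/-- the support -/
noncomputable def sp (D : PC (Fin N)) : Finset (Fin N) := univ.filter (fun v => D v ≠ none)

theorem mem_sp (D : PC (Fin N)) (v : Fin N) : v ∈ sp D ↔ D v ≠ none := by
  unfold sp
  rw [mem_filter]
  exact ⟨fun h => h.2, fun h => ⟨mem_univ _, h⟩⟩

/-- index type of the cover -/
abbrev Idx (r : ℕ) (D : PC (Fin N)) (K : Finset (Fin r)) : Type :=
  (g : (↥K ↪ ↥(sp D))) × (↥((Set.range g)ᶜ) → Fin r)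

theorem card_idx (D : PC (Fin N)) (K : Finset (Fin r)) :
    Fintype.card (Idx r D K) = (size D).descFactorial K.card * r ^ (size D - K.card) := by
  have hS : Fintype.card ↥(sp D) = size D := by
    rw [Fintype.card_coe]; rfl
  have hK : Fintype.card ↥K = K.card := Fintype.card_coe K
  unfold Idx
  rw [Fintype.card_sigma]
  have h1 : ∀ g : (↥K ↪ ↥(sp D)),
      Fintype.card (↥((Set.range g)ᶜ) → Fin r) = r ^ (size D - K.card) := by
    intro g
    rw [Fintype.card_fun, Fintype.card_fin, Fintype.card_compl_set,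
      Set.card_range_of_injective g.injective, hS, hK]
  rw [sum_congr rfl (fun g _ => h1 g), sum_const, card_univ, Fintype.card_embedding_eq, hS, hK,
    smul_eq_mul]

/-- the members of the cover -/
noncomputable def Z (D : PC (Fin N)) (K : Finset (Fin r)) (x : Idx r D K) :
    Finset (Fin r → Fin N) :=
  ((inj r N).filter (fun P => (∀ v, D v ≠ none → ∃ j, P j = v) ∧
      ∀ j ∈ K, D (P j) ≠ none)).filter (fun P => (∀ j : ↥K, P j.1 = (x.1 j).1) ∧
        ∀ v : ↥((Set.range x.1)ᶜ), P (x.2 v) = (v.1 : Fin N))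

theorem card_Z (D : PC (Fin N)) (K : Finset (Fin r)) (x : Idx r D K) :
    (Z D K x).card * (N - r) ^ (size D) ≤ (inj r N).card := by
  rcases (Z D K x).eq_empty_or_nonempty with he | ⟨P₀, hP₀⟩
  · rw [he, card_empty, Nat.zero_mul]
    exact Nat.zero_le _
  · have h0 := mem_filter.1 hP₀
    have h1 := mem_filter.1 h0.1
    have hinj : Function.Injective P₀ := (mem_filter.1 h1.1).2
    set A : Finset (Fin r) := univ.filter (fun j => D (P₀ j) ≠ none) with hA
    have hmA : ∀ j, j ∈ A ↔ D (P₀ j) ≠ none := fun j => by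
      rw [hA, mem_filter]; exact ⟨fun h => h.2, fun h => ⟨mem_univ _, h⟩⟩
    have hcA : A.card = size D := by
      have himg : A.image P₀ = sp D := by
        ext v
        rw [mem_image, mem_sp]
        constructor
        · rintro ⟨j, hj, rfl⟩
          exact (hmA j).1 hj
        · intro hv
          obtain ⟨j, rfl⟩ := h1.2.1 v hv
          exact ⟨j, (hmA j).2 hv, rfl⟩
      rw [← card_image_of_injective A hinj, himg]
      rfl
    have h2 := MTC.cnt_union (∅ : Finset (Fin r)) A P₀ P₀ (disjoint_empty_left _)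
      (fun j hj => absurd hj (notMem_empty j))
    rw [empty_union, hcA] at h2
    have h3 : MTC.ext (∅ : Finset (Fin r)) P₀ = inj r N := by
      unfold MTC.ext inj
      refine filter_congr fun P _ => ?_
      simp
    rw [h3] at h2
    refine le_trans (Nat.mul_le_mul_right _ (card_le_card ?_)) h2
    intro P hP
    have g0 := mem_filter.1 hP
    have g1 := mem_filter.1 g0.1
    unfold MTC.ext
    rw [mem_filter]
    refine ⟨mem_univ _, (mem_filter.1 g1.1).2, ?_⟩
    intro j hj
    have hv : D (P₀ j) ≠ none := (hmA j).1 hj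
    set v : ↥(sp D) := ⟨P₀ j, (mem_sp D _).2 hv⟩ with hvdef
    by_cases hr : v ∈ Set.range x.1
    · obtain ⟨i, hi⟩ := hr
      have e1 : P₀ i.1 = P₀ j := by
        rw [h0.2.1 i, hi]
      have e2 : i.1 = j := hinj e1
      have e4 : P i.1 = P₀ i.1 := (g0.2.1 i).trans (h0.2.1 i).symm
      rw [e2] at e4
      exact e4
    · have e1 : P₀ (x.2 ⟨v, hr⟩) = P₀ j := h0.2.2 ⟨v, hr⟩
      have e2 : x.2 ⟨v, hr⟩ = j := hinj e1
      have e3 := g0.2.2 ⟨v, hr⟩
      rw [e2] at e3
      exact e3

end CntAux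

open CntAux

theorem cnt_thru (hNr : r < N) (D : PC (Fin N)) (K : Finset (Fin r)) :
    ((inj r N).filter (fun P => (∀ v, D v ≠ none → ∃ j, P j = v) ∧
      ∀ j ∈ K, D (P j) ≠ none)).card * (N - r) ^ (size D) ≤
      (size D).descFactorial K.card * r ^ (size D - K.card) * (inj r N).card := by
  have hcov : ((inj r N).filter (fun P => (∀ v, D v ≠ none → ∃ j, P j = v) ∧
      ∀ j ∈ K, D (P j) ≠ none)) ⊆ (univ : Finset (Idx r D K)).biUnion (Z D K) := by
    intro P hP
    have h1 := mem_filter.1 hP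
    have hinj : Function.Injective P := (mem_filter.1 h1.1).2
    let g : ↥K ↪ ↥(sp D) :=
      ⟨fun j => ⟨P j.1, (mem_sp D _).2 (h1.2.2 j.1 j.2)⟩, fun i j hij => by
        have := congrArg Subtype.val hij
        exact Subtype.ext (hinj this)⟩
    let f : ↥((Set.range g)ᶜ) → Fin r := fun v =>
      (h1.2.1 (v.1 : Fin N) ((mem_sp D _).1 v.1.2)).choose
    rw [mem_biUnion]
    refine ⟨⟨g, f⟩, mem_univ _, ?_⟩
    unfold Z
    rw [mem_filter]
    refine ⟨hP, fun j => rfl, fun v => ?_⟩
    exact (h1.2.1 (v.1 : Fin N) ((mem_sp D _).1 v.1.2)).choose_spec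
  calc _ ≤ ((univ : Finset (Idx r D K)).biUnion (Z D K)).card * (N - r) ^ (size D) :=
        Nat.mul_le_mul_right _ (card_le_card hcov)
    _ ≤ (∑ x : Idx r D K, (Z D K x).card) * (N - r) ^ (size D) :=
        Nat.mul_le_mul_right _ card_biUnion_le
    _ = ∑ x : Idx r D K, (Z D K x).card * (N - r) ^ (size D) := by rw [sum_mul]
    _ ≤ ∑ _x : Idx r D K, (inj r N).card := sum_le_sum fun x _ => card_Z D K x
    _ = _ := by rw [sum_const, card_univ, card_idx, smul_eq_mul]

/-- paths with a coloured chain through all positions of `K` -/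
theorem cnt_chain {w B : ℕ} {F : Finset (PC (Fin N))} (hB : 1 ≤ B) (hcard : Few w B F)
    (hch : ∀ a ≤ w, (univ.filter (fun D : PC (Fin N) => Ch F D ∧ size D = a)).card ≤ (4 * B) ^ a)
    (hN : 16 * B * r ≤ N - r) (hNr : r < N) (K : Finset (Fin r)) (hK : 1 ≤ K.card) :
    ((inj r N).filter (fun P => ∃ D : PC (Fin N), Ch F D ∧ size D ≤ w ∧
      (∀ v, D v ≠ none → ∃ j, P j = v) ∧ ∀ j ∈ K, D (P j) ≠ none)).card * (N - r) ^ K.card ≤
      2 * (8 * B * K.card) ^ K.card * (inj r N).card := by
  set k := K.card with hk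
  set M := N - r with hM
  have hMpos : 0 < M := by omega
  -- the sets
  let Y : PC (Fin N) → Finset (Fin r → Fin N) := fun D =>
    (inj r N).filter (fun P => (∀ v, D v ≠ none → ∃ j, P j = v) ∧ ∀ j ∈ K, D (P j) ≠ none)
  let T : ℕ → Finset (PC (Fin N)) := fun a => univ.filter (fun D => Ch F D ∧ size D = a)
  have hcov : ((inj r N).filter (fun P => ∃ D : PC (Fin N), Ch F D ∧ size D ≤ w ∧
      (∀ v, D v ≠ none → ∃ j, P j = v) ∧ ∀ j ∈ K, D (P j) ≠ none)) ⊆
      (Finset.range (w + 1)).biUnion (fun a => (T a).biUnion Y) := by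
    intro P hP
    obtain ⟨h1, D, hD, hw, h2, h3⟩ := mem_filter.1 hP
    rw [mem_biUnion]
    refine ⟨size D, Finset.mem_range.2 (by omega), ?_⟩
    rw [mem_biUnion]
    exact ⟨D, mem_filter.2 ⟨mem_univ _, hD, rfl⟩, mem_filter.2 ⟨h1, h2, h3⟩⟩
  have hMR : (0 : ℝ) < (M : ℝ) := by exact_mod_cast hMpos
  have hI : (0 : ℝ) ≤ ((inj r N).card : ℝ) := Nat.cast_nonneg _
  -- one colouring
  have hY : ∀ a ≤ w, ∀ D ∈ T a, ((Y D).card : ℝ) * (M : ℝ) ^ k ≤
      if k ≤ a then ((k : ℝ) ^ k * 2 ^ a * ((r : ℝ) / M) ^ (a - k)) * (inj r N).card else 0 := by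
    intro a _ D hD
    obtain ⟨-, -, hsz⟩ := mem_filter.1 hD
    have h := cnt_thru hNr D K
    rw [hsz] at h
    rw [← hk, ← hM] at h
    by_cases hka : k ≤ a
    · rw [if_pos hka]
      have hdf : (a.descFactorial k : ℝ) ≤ (k : ℝ) ^ k * 2 ^ a := by
        have h1 : a.descFactorial k ≤ k ^ k * 2 ^ a := by
          rw [Nat.descFactorial_eq_factorial_mul_choose]
          refine Nat.mul_le_mul (Nat.factorial_le_pow k) ?_
          have := Nat.sum_range_choose a
          calc a.choose k ≤ ∑ i ∈ Finset.range (a + 1), a.choose i :=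
                Finset.single_le_sum (f := fun i => a.choose i) (fun _ _ => Nat.zero_le _)
                  (Finset.mem_range.2 (by omega))
            _ = 2 ^ a := this
        exact_mod_cast h1
      have h' : ((Y D).card : ℝ) * (M : ℝ) ^ a ≤
          (a.descFactorial k : ℝ) * (r : ℝ) ^ (a - k) * (inj r N).card := by
        exact_mod_cast h
      have hsplit : (M : ℝ) ^ a = (M : ℝ) ^ k * (M : ℝ) ^ (a - k) := by
        rw [← pow_add, Nat.add_sub_cancel' hka]
      rw [hsplit, ← mul_assoc] at h'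
      have hMp : (0 : ℝ) < (M : ℝ) ^ (a - k) := by positivity
      have h2 : ((Y D).card : ℝ) * (M : ℝ) ^ k ≤
          (a.descFactorial k : ℝ) * (r : ℝ) ^ (a - k) * (inj r N).card / (M : ℝ) ^ (a - k) := by
        rw [le_div_iff₀ hMp]; exact h'
      refine h2.trans ?_
      rw [div_pow]
      have : (a.descFactorial k : ℝ) * (r : ℝ) ^ (a - k) * (inj r N).card / (M : ℝ) ^ (a - k) =
          (a.descFactorial k : ℝ) * ((r : ℝ) ^ (a - k) / (M : ℝ) ^ (a - k)) * (inj r N).card := by
        ring
      rw [this]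
      have h3 : (0 : ℝ) ≤ (r : ℝ) ^ (a - k) / (M : ℝ) ^ (a - k) := by positivity
      exact mul_le_mul_of_nonneg_right (mul_le_mul_of_nonneg_right hdf h3) hI
    · rw [if_neg hka]
      rw [Nat.descFactorial_of_lt (by omega), Nat.zero_mul, Nat.zero_mul] at h
      have h0 : (Y D).card = 0 := by
        have h1 := Nat.le_zero.1 h
        rcases Nat.mul_eq_zero.1 h1 with h2 | h2
        · exact h2
        · exact absurd h2 (by positivity)
      rw [h0]; simp
  -- one size
  have hterm : ∀ a ∈ Finset.range (w + 1),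
      ((((T a).biUnion Y).card : ℕ) : ℝ) * (M : ℝ) ^ k ≤
      if k ≤ a then (8 * B * k : ℝ) ^ k * (1 / 2) ^ (a - k) * (inj r N).card else 0 := by
    intro a ha
    have haw : a ≤ w := by have := Finset.mem_range.1 ha; omega
    have h1 : ((((T a).biUnion Y).card : ℕ) : ℝ) * (M : ℝ) ^ k ≤
        ∑ D ∈ T a, ((Y D).card : ℝ) * (M : ℝ) ^ k := by
      rw [← sum_mul]
      refine mul_le_mul_of_nonneg_right ?_ (by positivity)
      exact_mod_cast card_biUnion_le
    refine h1.trans ((sum_le_sum (hY a haw)).trans ?_)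
    rw [sum_const, nsmul_eq_mul]
    by_cases hka : k ≤ a
    · rw [if_pos hka, if_pos hka]
      have hc : ((T a).card : ℝ) ≤ (4 * B : ℝ) ^ a := by exact_mod_cast hch a haw
      have hq : ((r : ℝ) / M) * (8 * B) ≤ 1 / 2 := by
        rw [div_mul_eq_mul_div, div_le_iff₀ hMR]
        have : ((16 * B * r : ℕ) : ℝ) ≤ (M : ℝ) := by exact_mod_cast hN
        push_cast at this
        linarith
      have hnn : (0 : ℝ) ≤ (k : ℝ) ^ k * 2 ^ a * ((r : ℝ) / M) ^ (a - k) * (inj r N).card := by
        positivity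
      calc ((T a).card : ℝ) * ((k : ℝ) ^ k * 2 ^ a * ((r : ℝ) / M) ^ (a - k) * (inj r N).card)
          ≤ (4 * B : ℝ) ^ a * ((k : ℝ) ^ k * 2 ^ a * ((r : ℝ) / M) ^ (a - k) * (inj r N).card) :=
            mul_le_mul_of_nonneg_right hc hnn
        _ = (8 * B : ℝ) ^ a * (k : ℝ) ^ k * ((r : ℝ) / M) ^ (a - k) * (inj r N).card := by
            have : (8 * B : ℝ) ^ a = (4 * B : ℝ) ^ a * 2 ^ a := by
              rw [← mul_pow]; congr 1; ring
            rw [this]; ring
        _ = (8 * B * k : ℝ) ^ k * (((r : ℝ) / M) * (8 * B)) ^ (a - k) * (inj r N).card := by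
            have : (8 * B : ℝ) ^ a = (8 * B : ℝ) ^ k * (8 * B : ℝ) ^ (a - k) := by
              rw [← pow_add, Nat.add_sub_cancel' hka]
            rw [this, mul_pow (8 * (B : ℝ)) (k : ℝ) k, mul_pow ((r : ℝ) / M) (8 * B)]; ring
        _ ≤ (8 * B * k : ℝ) ^ k * (1 / 2) ^ (a - k) * (inj r N).card := by
            refine mul_le_mul_of_nonneg_right (mul_le_mul_of_nonneg_left ?_ (by positivity)) hI
            exact pow_le_pow_left₀ (by positivity) hq _
    · rw [if_neg hka, if_neg hka, mul_zero]
  -- sum over the sizes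
  have hfin : ((((inj r N).filter (fun P => ∃ D : PC (Fin N), Ch F D ∧ size D ≤ w ∧
      (∀ v, D v ≠ none → ∃ j, P j = v) ∧ ∀ j ∈ K, D (P j) ≠ none)).card : ℕ) : ℝ) * (M : ℝ) ^ k ≤
      2 * (8 * B * k : ℝ) ^ k * (inj r N).card := by
    calc _ ≤ ((((Finset.range (w + 1)).biUnion (fun a => (T a).biUnion Y)).card : ℕ) : ℝ) *
          (M : ℝ) ^ k := by
          refine mul_le_mul_of_nonneg_right ?_ (by positivity)
          exact_mod_cast card_le_card hcov
      _ ≤ ∑ a ∈ Finset.range (w + 1), ((((T a).biUnion Y).card : ℕ) : ℝ) * (M : ℝ) ^ k := by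
          rw [← sum_mul]
          refine mul_le_mul_of_nonneg_right ?_ (by positivity)
          exact_mod_cast card_biUnion_le
      _ ≤ ∑ a ∈ Finset.range (w + 1),
          (if k ≤ a then (8 * B * k : ℝ) ^ k * (1 / 2) ^ (a - k) * (inj r N).card else 0) :=
          sum_le_sum hterm
      _ = ∑ a ∈ (Finset.range (w + 1)).filter (fun a => k ≤ a),
          ((8 * B * k : ℝ) ^ k * (1 / 2) ^ (a - k) * (inj r N).card) := by rw [sum_filter]
      _ ≤ (8 * B * k : ℝ) ^ k * (inj r N).card *
          ∑ i ∈ Finset.range (w + 1), (1 / 2 : ℝ) ^ i := by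
          rw [mul_sum]
          have hfi : (Finset.range (w + 1)).filter (fun a => k ≤ a) ⊆
              (Finset.range (w + 1)).map ⟨fun i => i + k, fun i j h => by simpa using h⟩ := by
            intro a ha
            obtain ⟨h1, h2⟩ := mem_filter.1 ha
            rw [mem_map]
            refine ⟨a - k, Finset.mem_range.2 ?_, ?_⟩
            · have := Finset.mem_range.1 h1
              omega
            · simp only [Function.Embedding.coeFn_mk]
              omega
          refine (sum_le_sum_of_subset_of_nonneg hfi (fun a _ _ => by positivity)).trans ?_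
          rw [sum_map]
          refine sum_le_sum fun i _ => le_of_eq ?_
          simp only [Function.Embedding.coeFn_mk, Nat.add_sub_cancel]
          ring
      _ ≤ (8 * B * k : ℝ) ^ k * (inj r N).card * 2 := by
          refine mul_le_mul_of_nonneg_left ?_ (by positivity)
          have := sum_geometric_two_le (w + 1)
          simpa using this
      _ = 2 * (8 * B * k : ℝ) ^ k * (inj r N).card := by ring
  exact_mod_cast hfin

end MTN
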