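import Pool.Agent.Lib.MTN.Defs

/-!
# MTN.Sound (MP_e46137_lc): closed approximators of a family of predicates

Among all pairs `(F, E)`, `F : W → Finset (PC (Fin N))`, `E : Finset (Fin N → Bool)` with
* all members have size `≤ w`,
* `E.card ≤ (∑ a, (F a).card) * θ`,
* `∀ a χ, χ ∉ E → Hits (F a) χ → R a χ`
(`F = ∅`, `E = ∅` is one) take one with `∑ a, (F a).card` maximal.
* closed: if `size U ≤ w`, at most `θ` colourings agree with `U` and do not hit `F a`, and `U ∉ F a`, then
  `F' = Function.update F a (insert U (F a))` and `E' = E ∪ {those colourings}` is such a pair with a larger sum.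
* last claim: if `U ∉ F a`, then `F'` and the same `E`.
* `∑ a, (F a).card ≤ card W * (2 N + 1) ^ w` by `MTQ.card_small`.
-/

namespace MTN

open Classical Finset MTQ

variable {N : ℕ}

theorem exists_sound {W : Type} [Fintype W] (w θ : ℕ) (R : W → (Fin N → Bool) → Prop) :
    ∃ (F : W → Finset (PC (Fin N))) (E : Finset (Fin N → Bool)),
      (∀ a, Closed w θ (F a)) ∧ E.card ≤ Fintype.card W * ((2 * N + 1) ^ w * θ) ∧
      (∀ a χ, χ ∉ E → Hits (F a) χ → R a χ) ∧
      ∀ a (U : PC (Fin N)), size U ≤ w → (∀ χ, χ ∉ E → Agree U χ → R a χ) → U ∈ F a := by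
  let Q : (W → Finset (PC (Fin N))) × Finset (Fin N → Bool) → Prop := fun x =>
    (∀ a, ∀ U ∈ x.1 a, size U ≤ w) ∧ x.2.card ≤ (∑ a, (x.1 a).card) * θ ∧
      ∀ a χ, χ ∉ x.2 → Hits (x.1 a) χ → R a χ
  have h0 : ((fun _ => ∅, ∅) : (W → Finset (PC (Fin N))) × Finset (Fin N → Bool)) ∈
      univ.filter Q := by
    rw [mem_filter]
    refine ⟨mem_univ _, fun a U hU => absurd hU (notMem_empty _), ?_, ?_⟩
    · rw [card_empty]
      exact Nat.zero_le _
    · rintro a χ - ⟨U, hU, -⟩
      exact absurd hU (notMem_empty _)
  obtain ⟨⟨F, E⟩, hFE, hmax⟩ := exists_max_image (univ.filter Q)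
    (fun x => ∑ a, (x.1 a).card) ⟨_, h0⟩
  rw [mem_filter] at hFE
  obtain ⟨-, hsz, hE, hR⟩ := hFE
  -- adding one member to one family
  have key : ∀ (a : W) (U : PC (Fin N)) (E' : Finset (Fin N → Bool)), size U ≤ w → U ∉ F a →
      E ⊆ E' → E'.card ≤ E.card + θ → (∀ χ, χ ∉ E' → Agree U χ → R a χ) → False := by
    intro a U E' hU hUF hEE hE' hRU
    have hsum : ∑ b, (Function.update F a (insert U (F a)) b).card = (∑ b, (F b).card) + 1 := by
      rw [← add_sum_erase univ (fun b => (Function.update F a (insert U (F a)) b).card)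
        (mem_univ a), ← add_sum_erase univ (fun b => (F b).card) (mem_univ a)]
      simp only [Function.update_self]
      rw [card_insert_of_notMem hUF]
      have h1 : ∑ b ∈ univ.erase a, (Function.update F a (insert U (F a)) b).card =
          ∑ b ∈ univ.erase a, (F b).card := by
        refine sum_congr rfl fun b hb => ?_
        rw [Function.update_of_ne (ne_of_mem_erase hb)]
      rw [h1]
      ring
    have hin : ((Function.update F a (insert U (F a)), E') :
        (W → Finset (PC (Fin N))) × Finset (Fin N → Bool)) ∈ univ.filter Q := by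
      rw [mem_filter]
      refine ⟨mem_univ _, ?_, ?_, ?_⟩
      · intro b W' hW'
        have hW'' : W' ∈ Function.update F a (insert U (F a)) b := hW'
        by_cases hb : b = a
        · subst hb
          rw [Function.update_self, mem_insert] at hW''
          rcases hW'' with rfl | h
          · exact hU
          · exact hsz _ _ h
        · rw [Function.update_of_ne hb] at hW''
          exact hsz _ _ hW''
      · show E'.card ≤ (∑ b, (Function.update F a (insert U (F a)) b).card) * θ
        rw [hsum, add_mul, one_mul]
        exact hE'.trans (Nat.add_le_add_right hE _)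
      · intro b χ hχ hh
        have hχE : χ ∉ E := fun h => hχ (hEE h)
        have hh' : Hits (Function.update F a (insert U (F a)) b) χ := hh
        by_cases hb : b = a
        · subst hb
          rw [Function.update_self] at hh'
          obtain ⟨W', hW', hag⟩ := hh'
          rcases mem_insert.1 hW' with rfl | h
          · exact hRU χ hχ hag
          · exact hR _ χ hχE ⟨W', h, hag⟩
        · rw [Function.update_of_ne hb] at hh'
          exact hR b χ hχE hh'
    have h2 := hmax _ hin
    have h3 : ∑ b, (Function.update F a (insert U (F a)) b).card ≤ ∑ b, (F b).card := h2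
    omega
  refine ⟨F, E, ?_, ?_, hR, ?_⟩
  · intro a
    refine ⟨fun U hU => hsz a U hU, fun U hU hθ => ?_⟩
    by_contra hUF
    refine key a U (E ∪ univ.filter (fun χ : Fin N → Bool => Agree U χ ∧ ¬ Hits (F a) χ)) hU hUF
      subset_union_left ?_ ?_
    · refine (card_union_le _ _).trans (Nat.add_le_add_left ?_ _)
      refine le_trans (le_of_eq (congrArg card (Finset.ext fun χ => ?_))) hθ
      simp only [mem_filter, mem_univ, true_and]
    · intro χ hχ hag
      rw [mem_union, not_or, mem_filter] at hχ
      refine hR a χ hχ.1 ?_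
      by_contra hno
      exact hχ.2 ⟨mem_univ _, hag, hno⟩
  · refine hE.trans ?_
    rw [← mul_assoc]
    refine Nat.mul_le_mul_right _ ?_
    refine (sum_le_card_nsmul univ _ ((2 * N + 1) ^ w) fun a _ => ?_).trans ?_
    · have h1 := card_small (V := Fin N) w
      rw [Fintype.card_fin] at h1
      refine le_trans (card_le_card ?_) h1
      intro U hU
      simp only [mem_filter, mem_univ, true_and]
      exact hsz a U hU
    · rw [card_univ, smul_eq_mul]
  · intro a U hU hRU
    by_contra hUF
    exact key a U E hU hUF (Subset.refl _) (Nat.le_add_right _ _) hRU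

end MTN
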