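import Pool.Agent.Lib.MTN.Walk
import Pool.Agent.Lib.MTN.Sound
import Pool.Agent.Lib.MTN.Bad
import Pool.Agent.Lib.MTN.Chain
import Pool.Agent.Lib.MTN.Cnt

/-!
# MTN.Core (MP_e46137_lc): the advantage of one abstract network

Let `θ = 2 ^ (N - L)`, `B = 8 w L`; `F`, `E` from `exists_sound w θ R`.  `Few w B (F a)`: `MTQ.minExt_card`
with `B₁ = 4 w L` (`Fintype.card (Fin N) = N`).  `P ∈ acc` satisfies one of
(i) `¬ Good w₁ (F a) P` for some `a` (`bad_card`: at most `2 / 4 ^ w₁` of all paths for each `a`);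
(ii) `∃ c, ∃ U ∈ F snk, Sub U (col P c)` (`sink`; `Hits (F snk) χ` implies `χ ∈ E` or `R snk χ`);
(iii) for some `a` and some `p ∈ pat k 0`: `Good w₁ (F a) P` and `tc (val (F a) P) K c ≠ 0` for some
`c`, where `K = univ.filter (fun j => (j : ℕ) ∈ p)` (`k + 1` elements by `pat_sub`, `pat_card`,
`2 ^ k ≤ r`); then `ch_exists` (`(k + 1) * w₁ ≤ w`) and `cnt_chain`, `ch_card`.
Proof: if neither (i) nor (ii), put `g t = val (F (v t)) P`.  `g 0 = 1`: the empty colouring is in
`F src` by the last property of `exists_sound`.  `g T = 0` by not (ii).  Step `t`, arc `q`: if `c`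
does not have `ex c q = true ∧ ex c (q + 1) = false` then `g t c = g (t + 1) c`: if `U ∈ F a` inside
`col P c`, take it of size `≤ w₁`; either `ex c q = false` (so `q ≥ 1` and `c (q - 1) = false`) or
`ex c (q + 1) = true` (`q < r`, `c q = true`); let `V` be `U` together with this one vertex; it has size
`≤ w₁ + 1 ≤ w`, is inside `col P c`, and each `χ` which agrees with `V` hits `F a` and satisfies
`¬ (ex (χ ∘ P) q = true ∧ ex (χ ∘ P) (q + 1) = false)`; so if `χ ∉ E` then `R a χ`, `R b χ`; so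
`V ∈ F b`.  Now `walk` gives `t`, `K'`, `p ⊆ K'`, and `tc_restrict` with `K ⊆ K'`.
-/

namespace MTN

open Classical Finset MTQ

variable {r N : ℕ}

namespace CoreAux

theorem size_upd (U : PC (Fin N)) (j : Fin N) (x : Option Bool) :
    size (Function.update U j x) ≤ size U + 1 := by
  unfold size
  have h1 : (univ.filter (fun i => Function.update U j x i ≠ none)) ⊆
      insert j (univ.filter (fun i => U i ≠ none)) := by
    intro i hi
    rw [mem_filter] at hi
    rw [mem_insert, mem_filter]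
    by_cases hij : i = j
    · exact Or.inl hij
    · rw [Function.update_of_ne hij] at hi
      exact Or.inr hi
  exact (card_le_card h1).trans (card_insert_le _ _)

/-- one more coloured vertex moves a member from one family to the next one -/
theorem move {w w₁ : ℕ} {Fa Fb : Finset (PC (Fin N))} {E : Finset (Fin N → Bool)}
    {Ra Rb : (Fin N → Bool) → Prop} (hww : w₁ + 1 ≤ w)
    (hRa : ∀ χ, χ ∉ E → Hits Fa χ → Ra χ)
    (hRb : ∀ U : PC (Fin N), size U ≤ w → (∀ χ, χ ∉ E → Agree U χ → Rb χ) → U ∈ Fb)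
    {P : Fin r → Fin N} (hP : Function.Injective P) {c : Fin r → Bool} (j : Fin r)
    (hab : ∀ χ : Fin N → Bool, χ (P j) = c j → Ra χ → Rb χ)
    {U : PC (Fin N)} (hU : U ∈ Fa) (hUP : Sub U (col P c)) (hUw : size U ≤ w₁) :
    ∃ V ∈ Fb, Sub V (col P c) := by
  have hV : Sub (Function.update U (P j) (some (c j))) (col P c) := by
    intro v x hv
    by_cases h : v = P j
    · subst h
      rw [Function.update_self] at hv
      rw [col_apply hP, hv]
    · rw [Function.update_of_ne h] at hv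
      exact hUP v x hv
  refine ⟨Function.update U (P j) (some (c j)), hRb _ ?_ ?_, hV⟩
  · exact (size_upd U (P j) _).trans (by omega)
  · intro χ hχ hag
    have h1 : χ (P j) = c j := hag (P j) (c j) (Function.update_self _ _ _)
    refine hab χ h1 (hRa χ hχ ⟨U, hU, fun v x hv => ?_⟩)
    by_cases h : v = P j
    · subst h
      have h2 := hUP _ _ hv
      rw [col_apply hP] at h2
      rw [h1]
      exact Option.some.inj h2
    · refine hag v x ?_
      rw [Function.update_of_ne h]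
      exact hv

/-- the values of two neighbours agree off the arc -/
theorem step {w w₁ : ℕ} {Fa Fb : Finset (PC (Fin N))} {E : Finset (Fin N → Bool)}
    {Ra Rb : (Fin N → Bool) → Prop} (hww : w₁ + 1 ≤ w)
    (hRa : ∀ χ, χ ∉ E → Hits Fa χ → Ra χ)
    (hRb : ∀ U : PC (Fin N), size U ≤ w → (∀ χ, χ ∉ E → Agree U χ → Rb χ) → U ∈ Fb)
    {P : Fin r → Fin N} (hP : Function.Injective P) (hg : Good w₁ Fa P) {q : ℕ} (hq : q ≤ r)
    (hab : ∀ χ : Fin N → Bool, ¬ (ex (χ ∘ P) q = true ∧ ex (χ ∘ P) (q + 1) = false) →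
      Ra χ → Rb χ) {c : Fin r → Bool} (hc : ¬ (ex c q = true ∧ ex c (q + 1) = false))
    (h : ∃ U ∈ Fa, Sub U (col P c)) : ∃ V ∈ Fb, Sub V (col P c) := by
  obtain ⟨U, hU, hUP, hUw⟩ := hg c h
  by_cases h1 : ex c q = true
  · have h2 : ex c (q + 1) = true := by
      rcases Bool.eq_false_or_eq_true (ex c (q + 1)) with h3 | h3
      · exact h3
      · exact absurd ⟨h1, h3⟩ hc
    have hqr : q < r := by
      by_contra hqr
      unfold ex at h2
      rw [if_neg (Nat.succ_ne_zero q), Nat.add_sub_cancel, dif_neg hqr] at h2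
      exact absurd h2 (by simp)
    have h3 : ∀ d : Fin r → Bool, ex d (q + 1) = d ⟨q, hqr⟩ := by
      intro d
      unfold ex
      rw [if_neg (Nat.succ_ne_zero q)]
      simp only [Nat.add_sub_cancel]
      rw [dif_pos hqr]
    refine move hww hRa hRb hP ⟨q, hqr⟩ (fun χ hχ hR => hab χ ?_ hR) hU hUP hUw
    rintro ⟨-, h4⟩
    rw [h3] at h4 h2
    rw [h2] at hχ
    have h5 : χ (P ⟨q, hqr⟩) = false := h4
    rw [h5] at hχ
    exact absurd hχ (by simp)
  · have h2 : ex c q = false := by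
      rcases Bool.eq_false_or_eq_true (ex c q) with h3 | h3
      · exact absurd h3 h1
      · exact h3
    have hq0 : q ≠ 0 := by
      rintro rfl
      unfold ex at h2
      rw [if_pos rfl] at h2
      exact absurd h2 (by simp)
    have hqr : q - 1 < r := by omega
    have h3 : ∀ d : Fin r → Bool, ex d q = d ⟨q - 1, hqr⟩ := by
      intro d
      unfold ex
      rw [if_neg hq0, dif_pos hqr]
    refine move hww hRa hRb hP ⟨q - 1, hqr⟩ (fun χ hχ hR => hab χ ?_ hR) hU hUP hUw
    rintro ⟨h4, -⟩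
    rw [h3] at h4 h2
    rw [h2] at hχ
    have h5 : χ (P ⟨q - 1, hqr⟩) = true := h4
    rw [h5] at hχ
    exact absurd hχ (by simp)

theorem val_eq {F F' : Finset (PC (Fin N))} {P : Fin r → Fin N} {c : Fin r → Bool}
    (h : (∃ U ∈ F, Sub U (col P c)) ↔ ∃ U ∈ F', Sub U (col P c)) : val F P c = val F' P c := by
  unfold val
  by_cases h1 : ∃ U ∈ F, Sub U (col P c)
  · rw [if_pos h1, if_pos (h.1 h1)]
  · rw [if_neg h1, if_neg (fun h2 => h1 (h.2 h2))]

/-- the positions of a pattern -/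
noncomputable def pos (r : ℕ) (p : Finset ℕ) : Finset (Fin r) :=
  univ.filter (fun j : Fin r => (j : ℕ) ∈ p)

theorem pos_card {k : ℕ} (hr : 2 ^ k ≤ r) {p : Finset ℕ} (hp : p ∈ pat k 0) :
    (pos r p).card = k + 1 := by
  rw [← pat_card hp, ← card_map Fin.valEmbedding]
  congr 1
  ext x
  rw [mem_map]
  constructor
  · rintro ⟨j, hj, rfl⟩
    exact (mem_filter.1 hj).2
  · intro hx
    have h1 := (pat_sub hp x hx).2
    exact ⟨⟨x, by omega⟩, mem_filter.2 ⟨mem_univ _, hx⟩, rfl⟩

/-- the paths with a chain through the positions of a pattern -/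
noncomputable def thr (r w : ℕ) (F : Finset (PC (Fin N))) (p : Finset ℕ) :
    Finset (Fin r → Fin N) :=
  (inj r N).filter (fun P => ∃ D : PC (Fin N), Ch F D ∧ size D ≤ w ∧
      (∀ v, D v ≠ none → ∃ j, P j = v) ∧ ∀ j ∈ pos r p, D (P j) ≠ none)

theorem few_of_closed {w L : ℕ} (hL : 1 ≤ L) (hLN : L ≤ N) {F : Finset (PC (Fin N))}
    (hF : Closed w (2 ^ (N - L)) F) : Few w (8 * w * L) F := by
  intro D a hDa
  have h1 := minExt_card (V := Fin N) (B₁ := 4 * w * L) (a := a) (D := D) (L := L) hF (by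
    rw [Fintype.card_fin, ← pow_add]
    exact Nat.pow_le_pow_right (by norm_num) (by omega)) hL le_rfl hDa
  have h2 : 2 * (4 * w * L) = 8 * w * L := by ring
  rw [h2] at h1
  refine le_trans (le_of_eq (congrArg card (Finset.ext fun x => ?_))) h1
  simp only [mem_filter, mem_univ, true_and]

end CoreAux

open CoreAux

theorem core {W : Type} [Fintype W] (R : W → (Fin N → Bool) → Prop) (src snk : W)
    (hsrc : ∀ χ, R src χ) (acc : Finset (Fin r → Fin N)) (hacc : acc ⊆ inj r N)
    (hwalk : ∀ P ∈ acc, ∃ (T : ℕ) (v : ℕ → W), v 0 = src ∧ v T = snk ∧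
      ∀ t < T, ∃ q ≤ r, ∀ χ : Fin N → Bool,
        ¬ (ex (χ ∘ P) q = true ∧ ex (χ ∘ P) (q + 1) = false) → (R (v t) χ ↔ R (v (t + 1)) χ))
    {k w w₁ L : ℕ} (hr : 2 ^ k ≤ r) (hw : w = (k + 2) * w₁) (hw1 : 1 ≤ w₁) (hL : 1 ≤ L)
    (hLN : L ≤ N) (hNr : 32 * (8 * w * L) * r ≤ N - r) :
    (acc.card : ℝ) / (inj r N).card ≤
      ((univ.filter (fun χ : Fin N → Bool => R snk χ)).card : ℝ) / 2 ^ N +
      Fintype.card W * (2 ^ (k * (k + 1) / 2) * (2 * (8 * (8 * w * L) * (k + 1)) ^ (k + 1)) /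
        ((N - r : ℕ) : ℝ) ^ (k + 1) + 2 / 4 ^ w₁ +
        (2 * N + 1) ^ w * 2 ^ (N - L) / 2 ^ N) := by
  have hNr_ := hNr
  have hr1 : 1 ≤ r := le_trans Nat.one_le_two_pow hr
  have hw1' : w₁ + 1 ≤ w := by
    rw [hw]
    nlinarith
  have hw0 : 1 ≤ w := by omega
  have hB : 1 ≤ 8 * w * L := by
    have : 0 < 8 * w * L := by positivity
    omega
  have hNr : 0 < N - r := by
    have : 0 < 32 * (8 * w * L) * r := by positivity
    omega
  have hrN : r < N := by omega
  obtain ⟨F, E, hcl, hE, hRF, hmem⟩ := exists_sound (N := N) w (2 ^ (N - L)) R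
  have hfew : ∀ a, Few w (8 * w * L) (F a) := fun a => few_of_closed hL hLN (hcl a)
  -- the covering of the accepted paths
  have hcov : acc ⊆ ((univ : Finset W).biUnion fun a =>
      (inj r N).filter (fun P => ¬ Good w₁ (F a) P)) ∪
      ((inj r N).filter (fun P => ∃ c, ∃ U ∈ F snk, Sub U (col P c)) ∪
      (univ : Finset W).biUnion fun a => (pat k 0).biUnion fun p => thr r w (F a) p) := by
    intro P hP
    have hPi := hacc hP
    have hinj : Function.Injective P := (mem_filter.1 hPi).2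
    rw [mem_union, mem_union]
    by_cases hgood : ∀ a, Good w₁ (F a) P
    swap
    · push Not at hgood
      obtain ⟨a, ha⟩ := hgood
      exact Or.inl (mem_biUnion.2 ⟨a, mem_univ _, mem_filter.2 ⟨hPi, ha⟩⟩)
    by_cases hsnk : ∃ c, ∃ U ∈ F snk, Sub U (col P c)
    · exact Or.inr (Or.inl (mem_filter.2 ⟨hPi, hsnk⟩))
    refine Or.inr (Or.inr ?_)
    obtain ⟨T, v, hv0, hvT, hst⟩ := hwalk P hP
    have h0 : ∀ c, val (F (v 0)) P c = 1 := by
      intro c
      unfold val
      rw [if_pos]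
      refine ⟨fun _ => none, ?_, fun v x h => absurd h (by simp)⟩
      rw [hv0]
      refine hmem src _ ?_ fun χ _ _ => hsrc χ
      rw [MTQ.size_none]
      exact Nat.zero_le _
    have hT : ∀ c, val (F (v T)) P c = 0 := by
      intro c
      unfold val
      rw [if_neg]
      rw [hvT]
      exact fun h => hsnk ⟨c, h⟩
    have hstep : ∀ t < T, ∃ q ≤ r, ∀ c, val (F (v t)) P c ≠ val (F (v (t + 1))) P c →
        ex c q = true ∧ ex c (q + 1) = false := by
      intro t ht
      obtain ⟨q, hq, hqR⟩ := hst t ht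
      refine ⟨q, hq, fun c hne => ?_⟩
      by_contra hcon
      refine hne (val_eq ⟨fun h => ?_, fun h => ?_⟩)
      · exact step hw1' (hRF (v t)) (hmem (v (t + 1))) hinj (hgood (v t)) hq
          (fun χ hχ hR => (hqR χ hχ).1 hR) hcon h
      · exact step hw1' (hRF (v (t + 1))) (hmem (v t)) hinj (hgood (v (t + 1))) hq
          (fun χ hχ hR => (hqR χ hχ).2 hR) hcon h
    obtain ⟨t, -, K, hK, p, hp, hpK⟩ := walk hr T (fun t => val (F (v t)) P) h0 hstep hT
    have hsub : pos r p ⊆ K := by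
      intro j hj
      obtain ⟨i, hi, hij⟩ := mem_map.1 (hpK (mem_filter.1 hj).2)
      have h1 : i = j := Fin.ext hij
      rw [← h1]
      exact hi
    obtain ⟨c', -, hc'⟩ := tc_restrict hsub hK
    have hcard := pos_card (r := r) hr hp
    have hle : (pos r p).card * w₁ ≤ w := by
      rw [hcard, hw]
      exact Nat.mul_le_mul_right _ (by omega)
    obtain ⟨D, hCh, hD, hDv, hDj⟩ := ch_exists (hcl (v t)) hinj (hgood (v t)) hle hc'
    refine mem_biUnion.2 ⟨v t, mem_univ _, mem_biUnion.2 ⟨p, hp, mem_filter.2 ⟨hPi, ?_⟩⟩⟩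
    exact ⟨D, hCh, hD.trans hle, hDv, hDj⟩
  -- the three bounds
  have hM : (0 : ℝ) ≤ ((inj r N).card : ℝ) := Nat.cast_nonneg _
  have hNr' : (0 : ℝ) < ((N - r : ℕ) : ℝ) := by exact_mod_cast hNr
  have hb1 : ∀ a, (((inj r N).filter (fun P => ¬ Good w₁ (F a) P)).card : ℝ) ≤
      (inj r N).card * (2 / 4 ^ w₁) := by
    intro a
    have h1 := bad_card (w₁ := w₁) (F a) (hcl a) hB (hfew a) hNr_ hr1
    have h2 : (((inj r N).filter (fun P => ¬ Good w₁ (F a) P)).card : ℝ) * 4 ^ w₁ ≤
        2 * (inj r N).card := by exact_mod_cast h1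
    rw [mul_div_assoc', le_div_iff₀ (by positivity)]
    linarith
  have hb2 : (((inj r N).filter (fun P => ∃ c, ∃ U ∈ F snk, Sub U (col P c))).card : ℝ) ≤
      (inj r N).card * (((univ.filter (fun χ : Fin N → Bool => R snk χ)).card : ℝ) / 2 ^ N +
        Fintype.card W * ((2 * N + 1) ^ w * 2 ^ (N - L) / 2 ^ N)) := by
    have h1 := sink (F snk) (hcl snk) hB (hfew snk) hNr_ hr1
    have h2 : (univ.filter (fun χ : Fin N → Bool => Hits (F snk) χ)).card ≤
        (univ.filter (fun χ : Fin N → Bool => R snk χ)).card +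
          Fintype.card W * ((2 * N + 1) ^ w * 2 ^ (N - L)) := by
      refine le_trans (card_le_card (t := univ.filter (fun χ : Fin N → Bool => R snk χ) ∪ E)
        fun χ hχ => ?_) ((card_union_le _ _).trans (Nat.add_le_add_left hE _))
      rw [mem_union, mem_filter]
      by_cases h : χ ∈ E
      · exact Or.inr h
      · exact Or.inl ⟨mem_univ _, hRF snk χ h (mem_filter.1 hχ).2⟩
    have h3 := h1.trans (Nat.mul_le_mul_right _ h2)
    have h4 : (((inj r N).filter (fun P => ∃ c, ∃ U ∈ F snk, Sub U (col P c))).card : ℝ) * 2 ^ N ≤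
        (((univ.filter (fun χ : Fin N → Bool => R snk χ)).card : ℝ) +
          Fintype.card W * ((2 * N + 1) ^ w * 2 ^ (N - L))) * (inj r N).card := by
      exact_mod_cast h3
    have h5 : (0 : ℝ) < 2 ^ N := by positivity
    rw [← le_div_iff₀ h5] at h4
    refine h4.trans (le_of_eq ?_)
    ring
  have hb3 : ∀ a, ∀ p ∈ pat k 0, ((thr r w (F a) p).card : ℝ) ≤
      (inj r N).card * (2 * (8 * (8 * w * L) * (k + 1)) ^ (k + 1) /
        ((N - r : ℕ) : ℝ) ^ (k + 1)) := by
    intro a p hp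
    have hcard := pos_card (r := r) hr hp
    have h1 := cnt_chain hB (hfew a) (ch_card hB (hfew a)) (r := r)
      (le_trans (Nat.mul_le_mul_right _ (Nat.mul_le_mul_right _ (by norm_num))) hNr_) hrN
      (pos r p) (by omega)
    rw [hcard] at h1
    have h2 : ((thr r w (F a) p).card : ℝ) * ((N - r : ℕ) : ℝ) ^ (k + 1) ≤
        2 * (8 * (8 * w * L) * (k + 1)) ^ (k + 1) * (inj r N).card := by
      exact_mod_cast h1
    have h5 : (0 : ℝ) < ((N - r : ℕ) : ℝ) ^ (k + 1) := by positivity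
    rw [← le_div_iff₀ h5] at h2
    refine h2.trans (le_of_eq ?_)
    ring
  have hpat : ((pat k 0).card : ℝ) ≤ 2 ^ (k * (k + 1) / 2) := by
    exact_mod_cast card_pat k 0
  have hb4 : ∀ a, ((((pat k 0).biUnion fun p => thr r w (F a) p).card : ℕ) : ℝ) ≤
      (inj r N).card * (2 ^ (k * (k + 1) / 2) * (2 * (8 * (8 * w * L) * (k + 1)) ^ (k + 1)) /
        ((N - r : ℕ) : ℝ) ^ (k + 1)) := by
    intro a
    have h1 : ((((pat k 0).biUnion fun p => thr r w (F a) p).card : ℕ) : ℝ) ≤
        ∑ p ∈ pat k 0, ((thr r w (F a) p).card : ℝ) := by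
      exact_mod_cast card_biUnion_le
    have h2 := sum_le_sum (hb3 a)
    rw [sum_const, nsmul_eq_mul] at h2
    refine h1.trans (h2.trans ?_)
    refine (mul_le_mul_of_nonneg_right hpat (by positivity)).trans (le_of_eq ?_)
    ring
  have hsum : (acc.card : ℝ) ≤ (∑ a : W, (inj r N).card * (2 / 4 ^ w₁ : ℝ)) +
      ((inj r N).card * (((univ.filter (fun χ : Fin N → Bool => R snk χ)).card : ℝ) / 2 ^ N +
        Fintype.card W * ((2 * N + 1) ^ w * 2 ^ (N - L) / 2 ^ N)) +
      ∑ a : W, (inj r N).card * (2 ^ (k * (k + 1) / 2) *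
        (2 * (8 * (8 * w * L) * (k + 1)) ^ (k + 1)) / ((N - r : ℕ) : ℝ) ^ (k + 1))) := by
    have h1 : (acc.card : ℝ) ≤
        (((((univ : Finset W).biUnion fun a =>
          (inj r N).filter (fun P => ¬ Good w₁ (F a) P)).card +
        (((inj r N).filter (fun P => ∃ c, ∃ U ∈ F snk, Sub U (col P c))).card +
        ((univ : Finset W).biUnion fun a => (pat k 0).biUnion fun p =>
          thr r w (F a) p).card)) : ℕ) : ℝ) := by
      exact_mod_cast (card_le_card hcov).trans ((card_union_le _ _).trans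
        (Nat.add_le_add_left (card_union_le _ _) _))
    refine h1.trans ?_
    push_cast
    refine add_le_add ?_ (add_le_add hb2 ?_)
    · refine le_trans ?_ (sum_le_sum fun a _ => hb1 a)
      exact_mod_cast card_biUnion_le
    · refine le_trans ?_ (sum_le_sum fun a _ => hb4 a)
      exact_mod_cast card_biUnion_le
  rw [sum_const, sum_const, nsmul_eq_mul, nsmul_eq_mul, card_univ] at hsum
  rcases Nat.eq_zero_or_pos (inj r N).card with hM0 | hM0
  · rw [hM0, Nat.cast_zero, div_zero]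
    positivity
  · have hM0' : (0 : ℝ) < ((inj r N).card : ℝ) := by exact_mod_cast hM0
    rw [div_le_iff₀ hM0']
    refine hsum.trans (le_of_eq ?_)
    ring

end MTN
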