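import Pool.Agent.Lib.MTQ.Clos
import Pool.Agent.Lib.MTC.Cnt

/-!
# MTN.Defs (MP_e46137_lc): the number of states of monotone switching networks

The inner vertices are `Fin N`.  A path is an injective `P : Fin r → Fin N`.  Its arcs are
`0, …, r`; the arc `q` joins the vertices number `q` and `q + 1` of the sequence
`s, P 0, …, P (r - 1), t`.
Partial colourings of `Fin N` are `MTQ.PC (Fin N)` (`true`: side of `s`).
-/

namespace MTN

open Classical Finset MTQ

variable {r N : ℕ}

/-- the injective paths -/
noncomputable def inj (r N : ℕ) : Finset (Fin r → Fin N) :=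
  univ.filter (fun P => Function.Injective P)

/-- the vertices of the path `P` coloured by `c`, the others not coloured -/
noncomputable def col (P : Fin r → Fin N) (c : Fin r → Bool) : PC (Fin N) := fun v =>
  if ∃ j, P j = v ∧ c j = true then some true else if ∃ j, P j = v then some false else none

/-- `1` if some member of `F` is a part of the path `P` coloured by `c`, else `0` -/
noncomputable def val (F : Finset (PC (Fin N))) (P : Fin r → Fin N) (c : Fin r → Bool) : ℤ :=
  if ∃ U ∈ F, Sub U (col P c) then 1 else 0

/-- every family member inside a coloured `P` can be replaced by one of size at most `w₁` -/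
def Good (w₁ : ℕ) (F : Finset (PC (Fin N))) (P : Fin r → Fin N) : Prop :=
  ∀ c, (∃ U ∈ F, Sub U (col P c)) → ∃ U ∈ F, Sub U (col P c) ∧ size U ≤ w₁

/-- `F` has at most `B ^ a` minimal extensions of size `a` of each partial colouring -/
def Few (w B : ℕ) (F : Finset (PC (Fin N))) : Prop :=
  ∀ (D : PC (Fin N)) (a : ℕ), size D + a ≤ w →
    (univ.filter (fun A : PC (Fin N) => MinExt F D A ∧ size A = a)).card ≤ B ^ a

/-- colour of the vertex number `i` of the sequence `s, P 0, …, P (r - 1), t`, if the path has the
colours `c`; `s` is `true`, `t` is `false` -/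
def ex (c : Fin r → Bool) (i : ℕ) : Bool :=
  if i = 0 then true else if h : i - 1 < r then c ⟨i - 1, h⟩ else false

/-- `c` changed on `K` to the characteristic function of `J` -/
def ovr (K : Finset (Fin r)) (c : Fin r → Bool) (J : Finset (Fin r)) : Fin r → Bool := fun j =>
  if j ∈ K then decide (j ∈ J) else c j

/-- the coefficient (up to sign) of the product of all variables in `K`, after the other variables
have been given the values `c` -/
def tc (g : (Fin r → Bool) → ℤ) (K : Finset (Fin r)) (c : Fin r → Bool) : ℤ :=
  ∑ J ∈ K.powerset, (-1) ^ J.card * g (ovr K c J)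

/-- patterns of `k + 1` positions in `b, …, b + 2 ^ k - 1`: a pattern of one half and one more
position in the other half -/
def pat : ℕ → ℕ → Finset (Finset ℕ)
  | 0, b => {{b}}
  | k + 1, b =>
    ((pat k b) ×ˢ Finset.Ico (b + 2 ^ k) (b + 2 ^ (k + 1))).image (fun x => insert x.2 x.1) ∪
    ((pat k (b + 2 ^ k)) ×ˢ Finset.Ico b (b + 2 ^ k)).image (fun x => insert x.2 x.1)

/-- chains of minimal extensions, with arbitrary colours on the new vertices -/
inductive Ch (F : Finset (PC (Fin N))) : PC (Fin N) → Prop
  | nil : Ch F (fun _ => none)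
  | step {D A D' : PC (Fin N)} : Ch F D → MinExt F D A → 1 ≤ size A → Sub D D' →
      (∀ v, D' v ≠ none ↔ D v ≠ none ∨ A v ≠ none) → Ch F D'

end MTN
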