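import Pool.Agent.Lib.Pe46137X.Defs

/-!
# MTN.Model (MP_e46137_lc): the definitions of the final statement (random paths and cuts,
probabilistic switching networks)
-/

namespace MTN

open Pool.Agent.Lib.Pe46137 Pool.Agent.Lib.Pe46137X

/-- the vertices `s, P 0, …, P (r - 1), t` of the path through `P` -/
def pathVertex {n r : ℕ} (s t : Fin n) (P : Fin r → Fin n) : ℕ → Fin n
  | 0 => s
  | i + 1 => if h : i < r then P ⟨i, h⟩ else t

/-- the arcs of the path `s, P 0, …, P (r - 1), t` -/
def pathArcs {n r : ℕ} (s t : Fin n) (P : Fin r → Fin n) : Set (Fin n × Fin n) :=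
  {e | ∃ q ≤ r, e = (pathVertex s t P q, pathVertex s t P (q + 1))}

/-- all arcs except those that lead from `C` to the complement of `C` -/
def cutArcs {n : ℕ} (C : Finset (Fin n)) : Set (Fin n × Fin n) := {e | ¬ (e.1 ∈ C ∧ e.2 ∉ C)}

open Classical in
/-- the sequences of `r` distinct vertices different from `s` and `t` -/
noncomputable def seqs (n r : ℕ) (s t : Fin n) : Finset (Fin r → Fin n) :=
  Finset.univ.filter (fun P => Function.Injective P ∧ ∀ i, P i ≠ s ∧ P i ≠ t)

/-- the sets of vertices which contain `s` but not `t` -/
def cuts (n : ℕ) (s t : Fin n) : Finset (Finset (Fin n)) :=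
  Finset.univ.filter (fun C => s ∈ C ∧ t ∉ C)

open Classical in
/-- the probability that source and sink of the network are connected on a uniformly random path
with `d` arcs from `s` to `t` -/
noncomputable def accPath {n m : ℕ} (N : SwitchingNetwork (Fin n × Fin n) (Fin m)) (d : ℕ)
    (s t : Fin n) : ℝ :=
  (((seqs n (d - 1) s t).filter (fun P => N.Connects (pathArcs s t P) (pathArcs s t P)ᶜ)).card : ℝ) /
    (seqs n (d - 1) s t).card

open Classical in
/-- the probability that source and sink of the network are connected on the digraph with all arcs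
that do not leave `C`, for a uniformly random set `C` of vertices with `s ∈ C`, `t ∉ C` -/
noncomputable def accCut {n m : ℕ} (N : SwitchingNetwork (Fin n × Fin n) (Fin m))
    (s t : Fin n) : ℝ :=
  (((cuts n s t).filter (fun C => N.Connects (cutArcs C) (cutArcs C)ᶜ)).card : ℝ) /
    (cuts n s t).card

open Classical in
/-- the probability that a probabilistic switching network (`N ω` is used with probability `p ω`)
connects source and sink on the digraph `G` -/
noncomputable def accProb {n m : ℕ} {Ω : Type} [Fintype Ω] (p : Ω → ℝ)
    (N : Ω → SwitchingNetwork (Fin n × Fin n) (Fin m)) (G : Set (Fin n × Fin n)) : ℝ :=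
  ∑ ω ∈ Finset.univ.filter (fun ω => (N ω).Connects G Gᶜ), p ω

/-- The probabilistic network distinguishes with gap `δ` the digraphs with a walk of at most `ℓ`
arcs from `s` to `t` from those in which `t` is not reachable from `s`. -/
def GapN {n m : ℕ} {Ω : Type} [Fintype Ω] (p : Ω → ℝ)
    (N : Ω → SwitchingNetwork (Fin n × Fin n) (Fin m)) (s t : Fin n) (ℓ : ℕ) (δ : ℝ) : Prop :=
  ∀ G G' : Set (Fin n × Fin n), Within G s t ℓ → ¬ Reachable G' s t →
    accProb p N G' + δ ≤ accProb p N G

end MTN
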