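import Pool.Agent.Lib.MTN.Core
import Pool.Agent.Lib.MTN.Model
import Pool.Agent.Lib.MTC.EmbedA
import Pool.Agent.Lib.Pe46137X.Walks

/-!
# MTN.Embed (MP_e46137_lc): the advantage of one switching network

`y` from `MTC.EmbedAAux.exists_y`.  States `W = Fin m`, `N = n - 2`, `C χ` the set of all `v` with
`v = s` or `v = y x`, `χ x = true`;
`R a χ = Relation.EqvGen (Nw.Closed (cutArcs (C χ)) (cutArcs (C χ))ᶜ) Nw.source a`.
`acc` = the injective `P : Fin r → Fin (n - 2)` with `Nw.Connects` on `pathArcs s t (y ∘ P)`.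
* `hwalk`: `joinedIn_of_eqvGen` (Pe46137X/Walks.lean); a step is a closed contact on the path arcs, in
  one of the two directions: a wire (then `R a χ ↔ R b χ` for all `χ`; take `q = 0`) or a contact
  labelled by `e = (vertex q, vertex (q + 1))`, `q ≤ r`; no negated contact (`IsMonotone`).  If `e` is
  in `cutArcs (C χ)` then `R a χ ↔ R b χ`; and vertex number `i` of the path is in `C χ` iff
  `ex (χ ∘ P) i = true` (`i ≤ r + 1`; `s ∈ C χ`, `t ∉ C χ`, `y` injective).
* `seqs`, `cuts` of `MTN.Model` are by definition those of `MTS.Spec`: use `card_paths`, `card_cuts` of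
  `MTC.EmbedAAux` as in `MTC.explicitA` (there colourings are `Col (n - 2) 1 = Fin (n-2) → Fin 1 → Bool`;
  transfer by `Equiv.funUnique` or prove the analogue directly with `Finset.card_bij`).
* `R snk χ ↔ Nw.Connects (cutArcs (C χ)) (cutArcs (C χ))ᶜ` is the definition.
-/

namespace MTN

open Classical Finset MTQ Pool.Agent.Lib.Pe46137 Pool.Agent.Lib.Pe46137X

namespace EmbedAux

variable {n r : ℕ}

/-- the side of `s` -/
noncomputable def side (y : Fin (n - 2) → Fin n) (s : Fin n) (χ : Fin (n - 2) → Bool) :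
    Finset (Fin n) := univ.filter (fun v => v = s ∨ ∃ x, y x = v ∧ χ x = true)

theorem s_mem (y : Fin (n - 2) → Fin n) (s : Fin n) (χ : Fin (n - 2) → Bool) : s ∈ side y s χ := by
  unfold side
  rw [mem_filter]
  exact ⟨mem_univ _, Or.inl rfl⟩

theorem t_mem {y : Fin (n - 2) → Fin n} {s t : Fin n} (hst : s ≠ t) (ht : ∀ x, y x ≠ t)
    (χ : Fin (n - 2) → Bool) : t ∉ side y s χ := by
  unfold side
  rw [mem_filter]
  rintro ⟨-, h | ⟨x, h, -⟩⟩
  · exact hst h.symm
  · exact ht x h

theorem y_mem {y : Fin (n - 2) → Fin n} (hy : Function.Injective y) {s : Fin n}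
    (hs : ∀ x, y x ≠ s) (χ : Fin (n - 2) → Bool) (x : Fin (n - 2)) :
    y x ∈ side y s χ ↔ χ x = true := by
  unfold side
  rw [mem_filter]
  constructor
  · rintro ⟨-, h | ⟨x', h, h'⟩⟩
    · exact absurd h (hs x)
    · rw [← hy h]
      exact h'
  · intro h
    exact ⟨mem_univ _, Or.inr ⟨x, rfl, h⟩⟩

/-- the cuts -/
theorem card_cuts {y : Fin (n - 2) → Fin n} (hy : Function.Injective y) {s t : Fin n}
    (hst : s ≠ t) (hs : ∀ x, y x ≠ s) (ht : ∀ x, y x ≠ t)
    (hsur : ∀ v, v ≠ s → v ≠ t → ∃ x, y x = v) (p : Finset (Fin n) → Prop) :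
    ((cuts n s t).filter p).card =
      (univ.filter (fun χ : Fin (n - 2) → Bool => p (side y s χ))).card := by
  symm
  refine Finset.card_bij (fun χ _ => side y s χ) ?_ ?_ ?_
  · intro χ hχ
    rw [mem_filter] at hχ ⊢
    unfold cuts
    rw [mem_filter]
    exact ⟨⟨mem_univ _, s_mem y s χ, t_mem hst ht χ⟩, hχ.2⟩
  · intro χ _ χ' _ h
    have h' : side y s χ = side y s χ' := h
    funext x
    rw [Bool.eq_iff_iff, ← y_mem hy hs χ x, ← y_mem hy hs χ' x, h']
  · intro C hC
    rw [mem_filter] at hC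
    unfold cuts at hC
    rw [mem_filter] at hC
    obtain ⟨⟨-, hsC, htC⟩, hp⟩ := hC
    have e : side y s (fun x => decide (y x ∈ C)) = C := by
      ext v
      by_cases h1 : v = s
      · subst h1
        exact ⟨fun _ => hsC, fun _ => s_mem y v _⟩
      · by_cases h2 : v = t
        · subst h2
          exact ⟨fun h => absurd h (t_mem hst ht _), fun h => absurd h htC⟩
        · obtain ⟨x, rfl⟩ := hsur v h1 h2
          rw [y_mem hy hs]
          exact decide_eq_true_iff
    refine ⟨fun x => decide (y x ∈ C), ?_, e⟩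
    rw [mem_filter]
    exact ⟨mem_univ _, by rw [e]; exact hp⟩

theorem vertex_mem {y : Fin (n - 2) → Fin n} (hy : Function.Injective y) {s t : Fin n}
    (hst : s ≠ t) (hs : ∀ x, y x ≠ s) (ht : ∀ x, y x ≠ t) (χ : Fin (n - 2) → Bool)
    (P : Fin r → Fin (n - 2)) (i : ℕ) :
    pathVertex s t (fun j => y (P j)) i ∈ side y s χ ↔ ex (χ ∘ P) i = true := by
  cases i with
  | zero =>
    unfold pathVertex ex
    rw [if_pos rfl]
    exact ⟨fun _ => rfl, fun _ => s_mem y s χ⟩
  | succ i =>
    have e1 : pathVertex s t (fun j => y (P j)) (i + 1) =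
        if h : i < r then y (P ⟨i, h⟩) else t := rfl
    have e2 : ex (χ ∘ P) (i + 1) = if h : i < r then χ (P ⟨i, h⟩) else false := rfl
    rw [e1, e2]
    by_cases h : i < r
    · rw [dif_pos h, dif_pos h, y_mem hy hs]
    · rw [dif_neg h, dif_neg h]
      exact ⟨fun h => absurd h (t_mem hst ht χ), fun h => absurd h Bool.false_ne_true⟩

/-- a closed contact on the path is closed on all cuts that do not cross one of its arcs -/
theorem contact {m : ℕ} (Nw : SwitchingNetwork (Fin n × Fin n) (Fin m)) (hNw : IsMonotone Nw)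
    {y : Fin (n - 2) → Fin n} (hy : Function.Injective y) {s t : Fin n}
    (hst : s ≠ t) (hs : ∀ x, y x ≠ s) (ht : ∀ x, y x ≠ t) (P : Fin r → Fin (n - 2)) {a b : Fin m}
    (h : Nw.Closed (pathArcs s t (fun j => y (P j))) (pathArcs s t (fun j => y (P j)))ᶜ a b) :
    ∃ q ≤ r, ∀ χ : Fin (n - 2) → Bool,
      ¬ (ex (χ ∘ P) q = true ∧ ex (χ ∘ P) (q + 1) = false) →
      Nw.Closed (cutArcs (side y s χ)) (cutArcs (side y s χ))ᶜ a b := by
  rcases h with h | ⟨e, he, h⟩ | ⟨e, -, h⟩
  · exact ⟨0, Nat.zero_le _, fun _ _ => Or.inl h⟩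
  · obtain ⟨q, hq, rfl⟩ := he
    refine ⟨q, hq, fun χ hχ => Or.inr (Or.inl ⟨_, ?_, h⟩)⟩
    rintro ⟨h1, h2⟩
    apply hχ
    refine ⟨(vertex_mem hy hst hs ht χ P q).1 h1, ?_⟩
    cases hh : ex (χ ∘ P) (q + 1) with
    | false => rfl
    | true => exact absurd ((vertex_mem hy hst hs ht χ P (q + 1)).2 hh) h2
  · exact absurd h (hNw e a b)

end EmbedAux

open EmbedAux MTC.EmbedAAux in
theorem embed {n r m k w w₁ L : ℕ} {s t : Fin n} (hst : s ≠ t)
    (Nw : SwitchingNetwork (Fin n × Fin n) (Fin m)) (hNw : IsMonotone Nw)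
    (hr : 2 ^ k ≤ r) (hw : w = (k + 2) * w₁) (hw1 : 1 ≤ w₁) (hL : 1 ≤ L)
    (hLN : L ≤ n - 2) (hNr : 32 * (8 * w * L) * r ≤ n - 2 - r) :
    accPath Nw (r + 1) s t - accCut Nw s t ≤
      m * (2 ^ (k * (k + 1) / 2) * (2 * (8 * (8 * w * L) * (k + 1)) ^ (k + 1)) /
        ((n - 2 - r : ℕ) : ℝ) ^ (k + 1) + 2 / 4 ^ w₁ +
        (2 * (n - 2 : ℕ) + 1) ^ w * 2 ^ (n - 2 - L) / 2 ^ (n - 2)) := by
  obtain ⟨y, hy, hs, ht, hsur⟩ := exists_y hst
  let R : Fin m → (Fin (n - 2) → Bool) → Prop := fun a χ =>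
    Relation.EqvGen (Nw.Closed (cutArcs (side y s χ)) (cutArcs (side y s χ))ᶜ) Nw.source a
  let acc : Finset (Fin r → Fin (n - 2)) := (inj r (n - 2)).filter (fun P =>
    Nw.Connects (pathArcs s t (fun j => y (P j))) (pathArcs s t (fun j => y (P j)))ᶜ)
  have hstep : ∀ (χ : Fin (n - 2) → Bool) (a b : Fin m),
      Nw.Closed (cutArcs (side y s χ)) (cutArcs (side y s χ))ᶜ a b → (R a χ ↔ R b χ) := by
    intro χ a b h
    exact ⟨fun h1 => h1.trans _ _ _ (Relation.EqvGen.rel _ _ h),
      fun h1 => h1.trans _ _ _ ((Relation.EqvGen.rel _ _ h).symm _ _)⟩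
  have hc := core (k := k) (w := w) (w₁ := w₁) (L := L) R Nw.source Nw.sink
    (fun χ => Relation.EqvGen.refl _) acc (filter_subset _ _) (by
      intro P hP
      have hP' := (mem_filter.1 hP).2
      obtain ⟨T, -, v, h0, h1, h2⟩ := joinedIn_of_eqvGen hP'
      refine ⟨T, v, h0, h1, fun u hu => ?_⟩
      rcases h2 u hu with h3 | h3
      · obtain ⟨q, hq, h4⟩ := contact Nw hNw hy hst hs ht P h3
        exact ⟨q, hq, fun χ hχ => hstep χ _ _ (h4 χ hχ)⟩
      · obtain ⟨q, hq, h4⟩ := contact Nw hNw hy hst hs ht P h3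
        exact ⟨q, hq, fun χ hχ => (hstep χ _ _ (h4 χ hχ)).symm⟩) hr hw hw1 hL hLN hNr
  have e1 : ((seqs n r s t).filter (fun P =>
      Nw.Connects (pathArcs s t P) (pathArcs s t P)ᶜ)).card = acc.card := by
    have h := card_paths (r := r) hy hs ht hsur
      (fun P => Nw.Connects (pathArcs s t P) (pathArcs s t P)ᶜ)
    refine Eq.trans (congrArg card (Finset.ext fun P => ?_))
      (h.trans (congrArg card (Finset.ext fun P => ?_)))
    · simp only [mem_filter, seqs, MTS.seqs]
    · simp only [mem_filter, acc, inj, mem_univ, true_and]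
  have e2 : (seqs n r s t).card = (inj r (n - 2)).card := by
    have h := card_paths (r := r) hy hs ht hsur (fun _ => True)
    refine Eq.trans (congrArg card (Finset.ext fun P => ?_))
      (h.trans (congrArg card (Finset.ext fun P => ?_)))
    · simp only [mem_filter, and_true, seqs, MTS.seqs]
    · simp only [mem_filter, and_true, inj, mem_univ, true_and]
  have e3 : ((cuts n s t).filter (fun C => Nw.Connects (cutArcs C) (cutArcs C)ᶜ)).card =
      (univ.filter (fun χ : Fin (n - 2) → Bool => R Nw.sink χ)).card := by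
    have h := EmbedAux.card_cuts hy hst hs ht hsur (fun C => Nw.Connects (cutArcs C) (cutArcs C)ᶜ)
    refine Eq.trans (congrArg card (Finset.ext fun P => ?_))
      (h.trans (congrArg card (Finset.ext fun χ => ?_)))
    · simp only [mem_filter]
    · simp only [mem_filter, R, SwitchingNetwork.Connects]
  have e4 : (cuts n s t).card = 2 ^ (n - 2) := by
    have h := EmbedAux.card_cuts hy hst hs ht hsur (fun _ => True)
    have h2 : (univ : Finset (Fin (n - 2) → Bool)).card = 2 ^ (n - 2) := by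
      rw [card_univ]
      simp [Fintype.card_bool]
    rw [← h2]
    refine Eq.trans (congrArg card (Finset.ext fun P => ?_))
      (h.trans (congrArg card (Finset.ext fun χ => ?_)))
    · simp only [mem_filter, and_true]
    · simp only [mem_filter, and_true]
  have e5 : accPath Nw (r + 1) s t = (acc.card : ℝ) / (inj r (n - 2)).card := by
    rw [← e1, ← e2]
    rfl
  have e6 : accCut Nw s t =
      ((univ.filter (fun χ : Fin (n - 2) → Bool => R Nw.sink χ)).card : ℝ) / 2 ^ (n - 2) := by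
    unfold accCut
    rw [e3, e4]
    push_cast
    rfl
  rw [Fintype.card_fin] at hc
  rw [e5, e6]
  linarith

end MTN
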