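import Pool.Agent.Lib.MTN.Embed
import Pool.Agent.Lib.MTC.Gap
import Pool.Agent.Lib.Pe46137X.NumDefs

/-!
# MTN.End (MP_e46137_lc): average case and probabilistic switching networks

Copies of `MTC.explicit3`, `MTC.adv_obl` (file `MTC/Avg.lean`) and of `MTC.gap_obl` (file `MTC/Gap.lean`)
with `S = 1`, the number `m` of states in place of `T`, and `embed` in place of `explicitA`.
* `explicitM`: parameters `l = Nat.log 2 n + 1`, `w₁ = 4 l ^ 2 + 8`, `L = 300 l ^ 4`, `r = d - 1`, `k - 1` in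
  place of `k` (`2 ^ (k - 1) ≤ d - 1`); then `8 (8 w L) k ≤ 10 ^ 9 l ^ 9`; one factor
  `8 (8 w L) k / (n - 2 - r) ≤ 1` is thrown away.
* `MTX.lower_num (10 ^ 9)` with `S = 1`, `T = ⌈m / δ⌉`; `MTX.phi n 1 d = mainTerm n d` and
  `MTX.err n 1 d = errTerm n d` for `1 ≤ d ≤ n` (`MTX.lam n 1 = logb 2 n`, `MTX.kap n 1 d = logb 2 d`).
* `n < 4` or `d = 1` (`ℓ = 1`): `mainTerm n d ≤ errTerm n d` and `1 ≤ errTerm n d`, `m ≥ 1`, `δ ≤ 1`.
-/

namespace MTN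

open Classical Finset MTQ Pool.Agent.Lib.Pe46137 Pool.Agent.Lib.Pe46137X

namespace EndAux

variable {n : ℕ} {s t : Fin n}

theorem cuts_pos (hst : s ≠ t) : 0 < (cuts n s t).card := by
  rw [Finset.card_pos]
  refine ⟨{s}, ?_⟩
  unfold cuts
  rw [Finset.mem_filter]
  exact ⟨Finset.mem_univ _, Finset.mem_singleton_self _, by
    rw [Finset.mem_singleton]
    exact Ne.symm hst⟩

theorem accPath_le_one {m : ℕ} (Nw : SwitchingNetwork (Fin n × Fin n) (Fin m)) (d : ℕ)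
    (s t : Fin n) : accPath Nw d s t ≤ 1 := by
  unfold accPath
  apply div_le_one_of_le₀
  · exact_mod_cast Finset.card_filter_le _ _
  · positivity

theorem accCut_nonneg {m : ℕ} (Nw : SwitchingNetwork (Fin n × Fin n) (Fin m)) (s t : Fin n) :
    0 ≤ accCut Nw s t := by
  unfold accCut
  positivity

theorem one_le_m {m : ℕ} (Nw : SwitchingNetwork (Fin n × Fin n) (Fin m)) : 1 ≤ m := by
  have := Nw.source.2
  omega

theorem two_le_n (hst : s ≠ t) : 2 ≤ n := by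
  by_contra h
  have h1 := s.2
  have h2 := t.2
  exact hst (Fin.ext (by omega))

/-- the small terms -/
theorem eps_le' {n w l : ℕ} (hl : 1 ≤ l) (hn : n < 2 ^ l) (hn1 : 1 ≤ n)
    (hw : w ≤ 24 * l ^ 3) (hLn : 300 * l ^ 4 ≤ n - 2) :
    (2 : ℝ) / 4 ^ (4 * l ^ 2 + 8) +
      (2 * (n - 2 : ℕ) + 1) ^ w * 2 ^ (n - 2 - 300 * l ^ 4) / 2 ^ (n - 2) ≤
      1 / (2 * 2 ^ (l ^ 2)) := by
  have h := MTC.AvgAux.eps_le (n := n) (S := 1) (r := 0) (w := w) (L := 300 * l ^ 4) hl hn hn1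
    (by omega) hw rfl hLn
  refine le_trans ?_ h
  apply add_le_add
  · apply div_le_div_of_nonneg_right _ (by positivity)
    norm_num
  · apply le_of_eq
    simp

end EndAux

open EndAux

/-- The advantage `δ` against `T' ≥ m / δ`. -/
theorem explicitM {n d k m T' : ℕ} {s t : Fin n} (hk : 1 ≤ k) (hst : s ≠ t)
    (Nw : SwitchingNetwork (Fin n × Fin n) (Fin m)) (hNw : IsMonotone Nw) (δ : ℝ) (hδ : 0 < δ)
    (hadv : δ ≤ accPath Nw d s t - accCut Nw s t)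
    (hT' : (m : ℝ) / δ ≤ T') (hT2 : T' ≤ 2 ^ (Nat.log 2 n + 1) ^ 2) (hkd : 2 ^ k ≤ d)
    (hC : 10 ^ 9 * (Nat.log 2 n + 1) ^ 7 * 1 * d ≤ n) :
    n ^ (k - 1) ≤
        T' * (10 ^ 9 * (Nat.log 2 n + 1) ^ 9 * 1) ^ (k - 1) * 2 ^ (k * (k + 1) / 2 + 1) := by
  have hm := one_le_m Nw
  have hmpos : (1 : ℝ) ≤ m := by exact_mod_cast hm
  have hT'pos : (0 : ℝ) < T' := lt_of_lt_of_le (by positivity) hT'
  have hT'1 : 1 ≤ T' := by
    have : 0 < T' := by exact_mod_cast hT'pos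
    omega
  obtain ⟨κ, rfl⟩ : ∃ κ, k = κ + 1 := ⟨k - 1, by omega⟩
  rw [Nat.add_sub_cancel]
  obtain ⟨l, hl⟩ : ∃ l, Nat.log 2 n + 1 = l := ⟨_, rfl⟩
  rw [hl] at hT2 hC ⊢
  have hl1 : 1 ≤ l := by omega
  obtain ⟨f1, f2, f3, f4, f5, f6, f7⟩ := MTC.AvgAux.pow_facts hl1
  have hn2 : n < 2 ^ l := by
    rw [← hl]
    exact Nat.lt_pow_succ_log_self (by norm_num) n
  have h2k : 1 ≤ 2 ^ κ := Nat.one_le_two_pow
  have h2k1 : 2 ^ (κ + 1) = 2 * 2 ^ κ := by ring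
  have hb : 10 ^ 9 * (l ^ 7 * d) ≤ n := by
    refine le_trans (le_of_eq ?_) hC
    ring
  obtain ⟨Q, hQ⟩ : ∃ Q, l ^ 7 * d = Q := ⟨_, rfl⟩
  have hd1 : 2 ≤ d := by omega
  have hQ7 : l ^ 7 ≤ Q := by
    rw [← hQ]
    calc l ^ 7 = l ^ 7 * 1 := by ring
      _ ≤ l ^ 7 * d := Nat.mul_le_mul_left _ (by omega)
  have hQd : d ≤ Q := by
    rw [← hQ]
    calc d = 1 * d := by ring
      _ ≤ l ^ 7 * d := Nat.mul_le_mul_right _ f6
  rw [hQ] at hb
  have hkl : κ + 2 ≤ l := by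
    have h1 : 2 ^ (κ + 1) < 2 ^ l := by omega
    have h2 := (Nat.pow_lt_pow_iff_right (by norm_num : 1 < 2)).1 h1
    omega
  have hkd2 : κ + 1 ≤ d := by
    have h1 : κ + 1 < 2 ^ (κ + 1) := Nat.lt_two_pow_self
    omega
  have hLn : 300 * l ^ 4 ≤ n - 2 := by omega
  obtain ⟨w, hw⟩ : ∃ w, w = (κ + 2) * (4 * l ^ 2 + 8) := ⟨_, rfl⟩
  have hwle : w ≤ 12 * l ^ 3 := by
    have h1 : (κ + 2) * (4 * l ^ 2 + 8) ≤ l * (4 * l ^ 2 + 8) :=
      Nat.mul_le_mul_right _ (by omega)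
    have h2 : l * (4 * l ^ 2 + 8) = 4 * l ^ 3 + 8 * l := by ring
    rw [hw]
    omega
  have hmain := embed (k := κ) (r := d - 1) (w := w) (w₁ := 4 * l ^ 2 + 8) (L := 300 * l ^ 4)
    hst Nw hNw (by omega) hw (by omega) (by omega) hLn
    (by
      have b0 : 32 * (8 * w * (300 * l ^ 4)) * (d - 1) ≤
          32 * (8 * (12 * l ^ 3) * (300 * l ^ 4)) * d := by
        gcongr
        omega
      have b1 : 32 * (8 * (12 * l ^ 3) * (300 * l ^ 4)) * d = 921600 * Q := by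
        rw [← hQ]
        ring
      omega)
  have hd' : d - 1 + 1 = d := by omega
  rw [hd'] at hmain
  have heps := eps_le' (n := n) (w := w) hl1 hn2 (by omega) (by omega) hLn
  have hT2' : (T' : ℝ) ≤ 2 ^ (l ^ 2) := by exact_mod_cast hT2
  have hTδ : (m : ℝ) ≤ δ * T' := by
    rw [div_le_iff₀ hδ] at hT'
    linarith
  have hhalf : (m : ℝ) * (1 / (2 * 2 ^ (l ^ 2))) ≤ δ / 2 := by
    have h1 : (0 : ℝ) < 2 ^ (l ^ 2) := by positivity
    rw [mul_one_div, div_le_div_iff₀ (by positivity) (by norm_num)]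
    nlinarith
  have hR : n ≤ 2 * (n - 2 - (d - 1)) := by omega
  have hRpos : (0 : ℝ) < ((n - 2 - (d - 1) : ℕ) : ℝ) := by
    have : 0 < n - 2 - (d - 1) := by omega
    exact_mod_cast this
  obtain ⟨R, hRdef⟩ : ∃ R, n - 2 - (d - 1) = R := ⟨_, rfl⟩
  rw [hRdef] at hmain hR hRpos
  obtain ⟨B, hB⟩ : ∃ B : ℕ, B = 8 * (8 * w * (300 * l ^ 4)) * (κ + 1) := ⟨_, rfl⟩
  have hBR : B ≤ R := by
    have b0 : B ≤ 8 * (8 * (12 * l ^ 3) * (300 * l ^ 4)) * d := by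
      rw [hB]
      gcongr
    have b1 : 8 * (8 * (12 * l ^ 3) * (300 * l ^ 4)) * d = 230400 * Q := by
      rw [← hQ]
      ring
    omega
  have hBl : 2 * B ≤ 10 ^ 9 * l ^ 9 := by
    have b0 : B ≤ 8 * (8 * (12 * l ^ 3) * (300 * l ^ 4)) * l := by
      rw [hB]
      gcongr
      omega
    have b1 : 8 * (8 * (12 * l ^ 3) * (300 * l ^ 4)) * l = 230400 * l ^ 8 := by ring
    have b2 : l ^ 8 ≤ l ^ 9 := Nat.pow_le_pow_right hl1 (by omega)
    omega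
  have hBcast : (8 * (8 * w * ((300 * l ^ 4 : ℕ) : ℝ)) * (κ + 1) : ℝ) = (B : ℝ) := by
    rw [hB]
    push_cast
    ring
  rw [hBcast] at hmain
  have hBRr : (B : ℝ) ≤ R := by exact_mod_cast hBR
  -- one factor is thrown away
  have hone : (2 : ℝ) ^ (κ * (κ + 1) / 2) * (2 * (B : ℝ) ^ (κ + 1)) / (R : ℝ) ^ (κ + 1) ≤
      2 ^ (κ * (κ + 1) / 2) * (2 * (B : ℝ) ^ κ) / (R : ℝ) ^ κ := by
    rw [div_le_div_iff₀ (by positivity) (by positivity)]
    have e1 : (2 : ℝ) ^ (κ * (κ + 1) / 2) * (2 * (B : ℝ) ^ (κ + 1)) * (R : ℝ) ^ κ =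
        (2 ^ (κ * (κ + 1) / 2) * (2 * (B : ℝ) ^ κ) * (R : ℝ) ^ κ) * B := by ring
    have e2 : (2 : ℝ) ^ (κ * (κ + 1) / 2) * (2 * (B : ℝ) ^ κ) * (R : ℝ) ^ (κ + 1) =
        (2 ^ (κ * (κ + 1) / 2) * (2 * (B : ℝ) ^ κ) * (R : ℝ) ^ κ) * R := by ring
    rw [e1, e2]
    exact mul_le_mul_of_nonneg_left hBRr (by positivity)
  have hmid : δ / 2 ≤ m * (2 ^ (κ * (κ + 1) / 2) * (2 * (B : ℝ) ^ κ) / (R : ℝ) ^ κ) := by
    have h2 := mul_le_mul_of_nonneg_left heps (by linarith : (0 : ℝ) ≤ m)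
    have h3 := mul_le_mul_of_nonneg_left hone (by linarith : (0 : ℝ) ≤ m)
    have h4 : (m : ℝ) * (2 ^ (κ * (κ + 1) / 2) * (2 * (B : ℝ) ^ (κ + 1)) / (R : ℝ) ^ (κ + 1) +
        2 / 4 ^ (4 * l ^ 2 + 8) +
        (2 * (n - 2 : ℕ) + 1) ^ w * 2 ^ (n - 2 - 300 * l ^ 4) / 2 ^ (n - 2)) =
        m * (2 ^ (κ * (κ + 1) / 2) * (2 * (B : ℝ) ^ (κ + 1)) / (R : ℝ) ^ (κ + 1)) +
        m * (2 / 4 ^ (4 * l ^ 2 + 8) +
        (2 * (n - 2 : ℕ) + 1) ^ w * 2 ^ (n - 2 - 300 * l ^ 4) / 2 ^ (n - 2)) := by ring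
    rw [h4] at hmain
    linarith
  have hfin : (R : ℝ) ^ κ ≤ 4 * T' * (2 ^ (κ * (κ + 1) / 2) * (B : ℝ) ^ κ) := by
    rw [mul_div_assoc', le_div_iff₀ (by positivity)] at hmid
    obtain ⟨X, hX⟩ : ∃ X : ℝ, X = 2 ^ (κ * (κ + 1) / 2) * (B : ℝ) ^ κ := ⟨_, rfl⟩
    have hXp : 0 ≤ X := by rw [hX]; positivity
    have e1 : (2 : ℝ) ^ (κ * (κ + 1) / 2) * (2 * (B : ℝ) ^ κ) = 2 * X := by rw [hX]; ring
    rw [e1] at hmid
    rw [← hX]
    have h1 : δ * (R : ℝ) ^ κ ≤ δ * (4 * T' * X) := by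
      have h2 : (m : ℝ) * X ≤ δ * T' * X := mul_le_mul_of_nonneg_right hTδ hXp
      nlinarith
    exact le_of_mul_le_mul_left h1 hδ
  have hfinN : R ^ κ ≤ 4 * T' * (2 ^ (κ * (κ + 1) / 2) * B ^ κ) := by exact_mod_cast hfin
  have hkk : (κ + 1) * (κ + 1 + 1) / 2 = κ * (κ + 1) / 2 + (κ + 1) := by
    have h1 : (κ + 1) * (κ + 1 + 1) = κ * (κ + 1) + 2 * (κ + 1) := by ring
    rw [h1]
    omega
  calc n ^ κ ≤ (2 * R) ^ κ := Nat.pow_le_pow_left hR _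
    _ = 2 ^ κ * R ^ κ := by rw [mul_pow]
    _ ≤ 2 ^ κ * (4 * T' * (2 ^ (κ * (κ + 1) / 2) * B ^ κ)) := Nat.mul_le_mul_left _ hfinN
    _ = T' * (2 * B) ^ κ * 2 ^ (κ * (κ + 1) / 2 + 2) := by
        rw [mul_pow, pow_add]
        ring
    _ ≤ T' * (10 ^ 9 * l ^ 9 * 1) ^ κ * 2 ^ ((κ + 1) * (κ + 1 + 1) / 2 + 1) := by
        rw [hkk, mul_one]
        apply Nat.mul_le_mul
        · exact Nat.mul_le_mul_left _ (Nat.pow_le_pow_left hBl _)
        · exact Nat.pow_le_pow_right (by norm_num) (by omega)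

namespace EndAux

theorem phi_one {n d : ℕ} (hd : 1 ≤ d) (hdn : d ≤ n) : MTX.phi n 1 d = mainTerm n d := by
  unfold MTX.phi mainTerm MTX.kap MTX.lam
  rw [Nat.cast_one, div_one, min_eq_left]
  exact Real.logb_le_logb_of_le (by norm_num) (by exact_mod_cast hd) (by exact_mod_cast hdn)

theorem err_one {n d : ℕ} (hd : 1 ≤ d) (hdn : d ≤ n) : MTX.err n 1 d = errTerm n d := by
  unfold MTX.err errTerm MTX.kap MTX.lam
  rw [Nat.cast_one, div_one, min_eq_left]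
  exact Real.logb_le_logb_of_le (by norm_num) (by exact_mod_cast hd) (by exact_mod_cast hdn)

/-- logarithms -/
theorem log_facts {n d : ℕ} (hn : 2 ≤ n) (hd : 1 ≤ d) :
    1 ≤ Real.logb 2 n ∧ 0 ≤ Real.logb 2 d ∧ 0 ≤ Real.logb 2 (Real.logb 2 n) ∧
      1 ≤ errTerm n d := by
  have h1 : (1 : ℝ) ≤ Real.logb 2 n := by
    rw [Real.le_logb_iff_rpow_le (by norm_num) (by exact_mod_cast (by omega : 0 < n)),
      Real.rpow_one]
    exact_mod_cast hn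
  have h2 : 0 ≤ Real.logb 2 (d : ℝ) := Real.logb_nonneg (by norm_num) (by exact_mod_cast hd)
  have h3 : 0 ≤ Real.logb 2 (Real.logb 2 (n : ℝ)) := Real.logb_nonneg (by norm_num) h1
  refine ⟨h1, h2, h3, ?_⟩
  unfold errTerm
  have := mul_nonneg h2 h3
  linarith

/-- small cases -/
theorem small {n d : ℕ} (hn : 2 ≤ n) (hd : 1 ≤ d) (hdn : d ≤ n) (h : n < 4 ∨ d = 1) :
    mainTerm n d ≤ 2 * errTerm n d := by
  obtain ⟨h1, h2, h3, h4⟩ := log_facts hn hd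
  rcases h with h | h
  · have h5 : Real.logb 2 (n : ℝ) ≤ 2 := by
      rw [Real.logb_le_iff_le_rpow (by norm_num) (by exact_mod_cast (by omega : 0 < n))]
      have : (n : ℝ) ≤ 4 := by exact_mod_cast h.le
      norm_num
      linarith
    have h6 : Real.logb 2 (d : ℝ) ≤ Real.logb 2 (n : ℝ) :=
      Real.logb_le_logb_of_le (by norm_num) (by exact_mod_cast hd) (by exact_mod_cast hdn)
    unfold mainTerm errTerm
    have h7 := mul_nonneg h2 h3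
    nlinarith [sq_nonneg (Real.logb 2 (d : ℝ))]
  · subst h
    unfold mainTerm
    rw [Nat.cast_one, Real.logb_one]
    linarith

/-- the number of states against `T'` -/
theorem finish {n d m T' : ℕ} {c δ : ℝ} (hn : 4 ≤ n) (hd : 2 ≤ d) (hdn : d ≤ n) (hm : 1 ≤ m)
    (hδ : 0 < δ) (hδ1 : δ ≤ 1) (hT' : T' = ⌈(m : ℝ) / δ⌉₊)
    (hmain : MTX.phi n 1 d - c * MTX.err n 1 d ≤ Real.logb 2 T') :
    mainTerm n d - (c + 1) * errTerm n d ≤ Real.logb 2 (m / δ) := by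
  have hmpos : (1 : ℝ) ≤ m := by exact_mod_cast hm
  have hle : (m : ℝ) / δ ≤ T' := by
    rw [hT']
    exact Nat.le_ceil _
  have h1δ : (1 : ℝ) ≤ m / δ := by
    rw [le_div_iff₀ hδ]
    linarith
  have hT'1 : (1 : ℝ) ≤ T' := h1δ.trans hle
  have hge : (T' : ℝ) ≤ 2 * (m / δ) := by
    have h1 : (T' : ℝ) < m / δ + 1 := by
      rw [hT']
      exact Nat.ceil_lt_add_one (by positivity)
    linarith
  have hlog : Real.logb 2 T' ≤ 1 + Real.logb 2 (m / δ) := by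
    have h1 : Real.logb 2 T' ≤ Real.logb 2 (2 * (m / δ)) :=
      Real.logb_le_logb_of_le (by norm_num) (by linarith) hge
    rw [Real.logb_mul (by norm_num) (by positivity), Real.logb_self_eq_one (by norm_num)] at h1
    exact h1
  rw [phi_one (by omega) hdn, err_one (by omega) hdn] at hmain
  obtain ⟨-, -, -, h4⟩ := log_facts (n := n) (d := d) (by omega) (by omega)
  nlinarith

/-- the condition on `n` -/
theorem cond {n d : ℕ} {C : ℝ} (hn : 2 ≤ n) (hC : 128 * 10 ^ 9 ≤ C)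
    (h : C * Real.logb 2 n ^ 7 * d ≤ n) : 10 ^ 9 * (Nat.log 2 n + 1) ^ 7 * 1 * d ≤ n := by
  obtain ⟨h1, -, -, -⟩ := log_facts (n := n) (d := 1) hn le_rfl
  have h2 : ((Nat.log 2 n : ℕ) : ℝ) ≤ Real.logb 2 n := by
    have h3 := Real.natLog_le_logb n 2
    exact_mod_cast h3
  have h4 : ((Nat.log 2 n + 1 : ℕ) : ℝ) ^ 7 ≤ (2 * Real.logb 2 n) ^ 7 := by
    apply pow_le_pow_left₀ (by positivity)
    push_cast
    linarith
  have h5 : (10 ^ 9 * ((Nat.log 2 n + 1 : ℕ) : ℝ) ^ 7 * 1 * d : ℝ) ≤ n := by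
    refine le_trans ?_ h
    rw [mul_one]
    apply mul_le_mul_of_nonneg_right _ (Nat.cast_nonneg d)
    calc (10 ^ 9 * ((Nat.log 2 n + 1 : ℕ) : ℝ) ^ 7 : ℝ) ≤ 10 ^ 9 * (2 * Real.logb 2 n) ^ 7 :=
          mul_le_mul_of_nonneg_left h4 (by positivity)
      _ = 128 * 10 ^ 9 * Real.logb 2 n ^ 7 := by ring
      _ ≤ C * Real.logb 2 n ^ 7 := mul_le_mul_of_nonneg_right hC (by positivity)
  exact_mod_cast h5

end EndAux

open EndAux

/-- average case -/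
theorem average : ∃ C : ℝ, 0 < C ∧ ∀ (n ℓ m : ℕ) (s t : Fin n), s ≠ t → 1 ≤ ℓ → ℓ ≤ n →
    C * Real.logb 2 n ^ 7 * ℓ ≤ n →
    ∀ Nw : SwitchingNetwork (Fin n × Fin n) (Fin m), IsMonotone Nw →
      accPath Nw ℓ s t - accCut Nw s t ≤
        m * (2 : ℝ) ^ (-(mainTerm n ℓ - C * errTerm n ℓ)) := by
  obtain ⟨c, hc, hL⟩ := MTX.lower_num (10 ^ 9) (by norm_num)
  refine ⟨c + 1 + 128 * 10 ^ 9, by linarith, ?_⟩
  intro n ℓ m s t hst hℓ hℓn hC Nw hNw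
  have hn2 := two_le_n hst
  have hm := one_le_m Nw
  have hmpos : (1 : ℝ) ≤ m := by exact_mod_cast hm
  obtain ⟨δ, hδdef⟩ : ∃ δ, δ = accPath Nw ℓ s t - accCut Nw s t := ⟨_, rfl⟩
  rw [← hδdef]
  rcases le_or_gt δ 0 with hδ | hδ
  · refine hδ.trans (by positivity)
  have hδ1 : δ ≤ 1 := by
    have h1 := accPath_le_one Nw ℓ s t
    have h2 := accCut_nonneg Nw s t
    linarith
  obtain ⟨h1, -, -, hE⟩ := log_facts (n := n) (d := ℓ) hn2 hℓ
  have key : mainTerm n ℓ - (c + 1 + 128 * 10 ^ 9) * errTerm n ℓ ≤ Real.logb 2 (m / δ) := by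
    rcases (by omega : (n < 4 ∨ ℓ = 1) ∨ (4 ≤ n ∧ 2 ≤ ℓ)) with h | ⟨h4, h5⟩
    · have h2 := small hn2 hℓ hℓn h
      have h3 : 0 ≤ Real.logb 2 ((m : ℝ) / δ) := by
        apply Real.logb_nonneg (by norm_num)
        rw [le_div_iff₀ hδ]
        linarith
      nlinarith
    · obtain ⟨T', hT'⟩ : ∃ T', T' = ⌈(m : ℝ) / δ⌉₊ := ⟨_, rfl⟩
      have hle : (m : ℝ) / δ ≤ T' := by
        rw [hT']
        exact Nat.le_ceil _
      have hT'1 : 1 ≤ T' := by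
        have h1δ : (1 : ℝ) ≤ m / δ := by
          rw [le_div_iff₀ hδ]
          linarith
        exact_mod_cast h1δ.trans hle
      have hcond := cond hn2 (by linarith : 128 * 10 ^ 9 ≤ c + 1 + 128 * 10 ^ 9) hC
      have hmain := hL n 1 ℓ T' h4 le_rfl (by omega) h5 hℓn hT'1 (fun hT2 k hk hkd _ =>
        explicitM hk hst Nw hNw δ hδ hδdef.le hle hT2 hkd hcond)
      have := finish h4 h5 hℓn hm hδ hδ1 hT' hmain
      nlinarith
  rw [Real.le_logb_iff_rpow_le (by norm_num) (by positivity)] at key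
  rw [Real.rpow_neg (by norm_num), ← div_eq_mul_inv, le_div_iff₀ (by positivity)]
  rw [le_div_iff₀ hδ] at key
  linarith

namespace EndAux

theorem path_within {n r ℓ : ℕ} (s t : Fin n) (P : Fin r → Fin n) (h : r + 1 ≤ ℓ) :
    Within (pathArcs s t P) s t ℓ := by
  refine ⟨r + 1, h, pathVertex s t P, rfl, ?_, ?_⟩
  · show (if h : r < r then P ⟨r, h⟩ else t) = t
    rw [dif_neg (lt_irrefl r)]
  · intro j hj
    exact ⟨j, by omega, rfl⟩

theorem cut_reach {n : ℕ} {C : Finset (Fin n)} {s t : Fin n} (hs : s ∈ C) (ht : t ∉ C) :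
    ¬ Reachable (cutArcs C) s t := by
  have key : ∀ v, Reachable (cutArcs C) s v → v ∈ C := by
    intro v h
    unfold Reachable at h
    induction h with
    | refl => exact hs
    | tail _ h2 ih =>
      by_contra hcon
      exact h2 ⟨ih, hcon⟩
  exact fun h => ht (key t h)

theorem seqs_nonempty {n r : ℕ} {s t : Fin n} (hst : s ≠ t) (h : r + 2 ≤ n) :
    (seqs n r s t).Nonempty := by
  have hcard : Fintype.card (Fin r) ≤ Fintype.card {x : Fin n // x ≠ s ∧ x ≠ t} := by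
    rw [Fintype.card_fin, Fintype.card_subtype]
    have h1 : (univ.filter fun x : Fin n => x ≠ s ∧ x ≠ t) = univ \ {s, t} := by
      ext x
      simp
    rw [h1, card_sdiff_of_subset (subset_univ _), card_pair hst, card_univ, Fintype.card_fin]
    omega
  obtain ⟨f⟩ := Function.Embedding.nonempty_of_card_le hcard
  refine ⟨fun i => (f i).1, ?_⟩
  rw [seqs, mem_filter]
  exact ⟨mem_univ _, fun i j hij => f.injective (Subtype.ext hij), fun i => (f i).2⟩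

theorem sum_swap {Ω β : Type} [Fintype Ω] (u : Finset β) (w : Ω → ℝ) (p : Ω → β → Prop) :
    ∑ ω, w ω * ((u.filter (fun P => p ω P)).card : ℝ) =
      ∑ P ∈ u, ∑ ω ∈ univ.filter (fun ω => p ω P), w ω := by
  have h1 : ∀ ω, w ω * ((u.filter (fun P => p ω P)).card : ℝ) =
      ∑ P ∈ u, if p ω P then w ω else 0 := by
    intro ω
    rw [card_filter]
    push_cast
    rw [mul_sum]
    exact sum_congr rfl fun P _ => by rw [mul_ite, mul_one, mul_zero]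
  have h2 : ∀ P, ∑ ω ∈ univ.filter (fun ω => p ω P), w ω =
      ∑ ω, if p ω P then w ω else 0 := by
    intro P
    rw [sum_filter]
  rw [sum_congr rfl fun ω _ => h1 ω, sum_congr rfl fun P _ => h2 P, sum_comm]

variable {n m : ℕ} {s t : Fin n} {Ω : Type} [Fintype Ω] {p : Ω → ℝ}
  {Nw : Ω → SwitchingNetwork (Fin n × Fin n) (Fin m)} {ℓ : ℕ} {δ : ℝ}

theorem gap_le_one (hp0 : ∀ ω, 0 ≤ p ω) (hp1 : ∑ ω, p ω = 1) (hℓ : 1 ≤ ℓ) (hst : s ≠ t)
    (h : GapN p Nw s t ℓ δ) : δ ≤ 1 := by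
  have h1 := h Set.univ ∅
    ⟨1, hℓ, fun j => if j = 0 then s else t, rfl, rfl, fun j _ => Set.mem_univ _⟩ (by
      intro hr
      unfold Reachable at hr
      rcases Relation.ReflTransGen.cases_head hr with h5 | ⟨b, h5, -⟩
      · exact hst h5
      · exact h5)
  unfold accProb at h1
  have h2 : 0 ≤ ∑ ω ∈ univ.filter (fun ω => (Nw ω).Connects (∅ : Set (Fin n × Fin n)) ∅ᶜ), p ω :=
    sum_nonneg fun ω _ => hp0 ω
  have h3 : ∑ ω ∈ univ.filter (fun ω => (Nw ω).Connects (Set.univ : Set (Fin n × Fin n)) Set.univᶜ),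
      p ω ≤ ∑ ω, p ω :=
    sum_le_sum_of_subset_of_nonneg (filter_subset _ _) (fun ω _ _ => hp0 ω)
  linarith

/-- some network has the advantage `δ` -/
theorem exists_network (hp0 : ∀ ω, 0 ≤ p ω)
    (hp1 : ∑ ω, p ω = 1) {e : ℕ} (he : 1 ≤ e)
    (hed : e ≤ ℓ) (hen : e + 1 ≤ n) (hst : s ≠ t)
    (h : GapN p Nw s t ℓ δ) :
    ∃ ω, δ ≤ accPath (Nw ω) e s t - accCut (Nw ω) s t := by
  obtain ⟨ω₀, hω₀⟩ : ∃ ω₀, 0 < p ω₀ := by
    by_contra hcon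
    push Not at hcon
    have h1 : ∑ ω, p ω ≤ 0 := sum_nonpos fun ω _ => hcon ω
    linarith
  obtain ⟨r, rfl⟩ : ∃ r, e = r + 1 := ⟨e - 1, by omega⟩
  have hsq := seqs_nonempty (r := r) hst (by omega)
  have hct0' := cuts_pos hst
  have hct : (cuts n s t).Nonempty := card_pos.1 hct0'
  have hsq0 : (0 : ℝ) < (seqs n r s t).card := by exact_mod_cast card_pos.2 hsq
  have hct0 : (0 : ℝ) < (cuts n s t).card := by exact_mod_cast hct0'
  -- the cut with the largest acceptance probability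
  obtain ⟨C₀, hC₀, hmax⟩ := exists_max_image (cuts n s t)
    (fun C => accProb p Nw (cutArcs C)) hct
  obtain ⟨μ, hμ⟩ : ∃ μ, μ = accProb p Nw (cutArcs C₀) := ⟨_, rfl⟩
  have hC₀' : s ∈ C₀ ∧ t ∉ C₀ := by
    rw [cuts, mem_filter] at hC₀
    exact hC₀.2
  have hA : μ + δ ≤ ∑ ω, p ω * accPath (Nw ω) (r + 1) s t := by
    unfold accPath
    rw [Nat.add_sub_cancel, sum_congr rfl fun ω _ => (mul_div_assoc (p ω) _ _).symm, ← sum_div,
      sum_swap _ p (fun ω P => (Nw ω).Connects (pathArcs s t P) (pathArcs s t P)ᶜ),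
      le_div_iff₀ hsq0]
    have h1 : ∀ P ∈ seqs n r s t, μ + δ ≤ ∑ ω ∈ univ.filter (fun ω =>
        (Nw ω).Connects (pathArcs s t P) (pathArcs s t P)ᶜ), p ω := by
      intro P _
      rw [hμ]
      exact h (pathArcs s t P) (cutArcs C₀) (path_within s t P hed) (cut_reach hC₀'.1 hC₀'.2)
    have h4 := card_nsmul_le_sum (seqs n r s t) _ _ h1
    rw [nsmul_eq_mul] at h4
    linarith
  have hB : ∑ ω, p ω * accCut (Nw ω) s t ≤ μ := by
    unfold accCut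
    rw [sum_congr rfl fun ω _ => (mul_div_assoc (p ω) _ _).symm, ← sum_div,
      sum_swap _ p (fun ω C => (Nw ω).Connects (cutArcs C) (cutArcs C)ᶜ), div_le_iff₀ hct0]
    have h1 : ∀ C ∈ cuts n s t, ∑ ω ∈ univ.filter (fun ω =>
        (Nw ω).Connects (cutArcs C) (cutArcs C)ᶜ), p ω ≤ μ := by
      intro C hC
      rw [hμ]
      exact hmax C hC
    have h4 := sum_le_card_nsmul (cuts n s t) _ _ h1
    rw [nsmul_eq_mul] at h4
    linarith
  by_contra hcon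
  push Not at hcon
  have h1 : ∑ ω, p ω * (accPath (Nw ω) (r + 1) s t - accCut (Nw ω) s t) < ∑ ω, p ω * δ := by
    refine sum_lt_sum (fun ω _ => mul_le_mul_of_nonneg_left (hcon ω).le (hp0 ω))
      ⟨ω₀, mem_univ _, mul_lt_mul_of_pos_left (hcon ω₀) hω₀⟩
  rw [← sum_mul, hp1, sum_congr rfl fun ω _ => mul_sub (p ω) _ _, sum_sub_distrib] at h1
  linarith

end EndAux

open EndAux

/-- probabilistic networks -/
theorem gap : ∃ C : ℝ, 0 < C ∧ ∀ (n ℓ m : ℕ) (s t : Fin n), s ≠ t → 1 ≤ ℓ → ℓ ≤ n →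
    ∀ (Ω : Type) [Fintype Ω] (p : Ω → ℝ), (∀ ω, 0 ≤ p ω) → ∑ ω, p ω = 1 →
    ∀ Nw : Ω → SwitchingNetwork (Fin n × Fin n) (Fin m), (∀ ω, IsMonotone (Nw ω)) →
    ∀ δ : ℝ, 0 < δ → GapN p Nw s t ℓ δ →
      mainTerm n ℓ - C * errTerm n ℓ ≤ Real.logb 2 (m / δ) := by
  obtain ⟨c, hc, hL⟩ := MTX.lower_num (10 ^ 9) (by norm_num)
  refine ⟨c + 3, by linarith, ?_⟩
  intro n ℓ m s t hst hℓ hℓn Ω _ p hp0 hp1 Nw hNw δ hδ hgap
  have hn2 := two_le_n hst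
  have hδ1 := gap_le_one hp0 hp1 hℓ hst hgap
  have hm : 1 ≤ m := by
    obtain ⟨ω⟩ : Nonempty Ω := by
      by_contra hcon
      rw [not_nonempty_iff] at hcon
      rw [Finset.univ_eq_empty, Finset.sum_empty] at hp1
      exact zero_ne_one hp1
    exact one_le_m (Nw ω)
  have hmpos : (1 : ℝ) ≤ m := by exact_mod_cast hm
  obtain ⟨h1, -, -, hE⟩ := log_facts (n := n) (d := ℓ) hn2 hℓ
  rcases (by omega : (n < 4 ∨ ℓ = 1) ∨ (4 ≤ n ∧ 2 ≤ ℓ)) with h | ⟨h4, h5⟩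
  · have h2 := small hn2 hℓ hℓn h
    have h3 : 0 ≤ Real.logb 2 ((m : ℝ) / δ) := by
      apply Real.logb_nonneg (by norm_num)
      rw [le_div_iff₀ hδ]
      linarith
    nlinarith
  · obtain ⟨T', hT'⟩ : ∃ T', T' = ⌈(m : ℝ) / δ⌉₊ := ⟨_, rfl⟩
    have hle : (m : ℝ) / δ ≤ T' := by
      rw [hT']
      exact Nat.le_ceil _
    have hT'1 : 1 ≤ T' := by
      have h1δ : (1 : ℝ) ≤ m / δ := by
        rw [le_div_iff₀ hδ]
        linarith
      exact_mod_cast h1δ.trans hle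
    have hmain := hL n 1 ℓ T' h4 le_rfl (by omega) h5 hℓn hT'1 (fun hT2 k hk hkd hkn => by
      have h2k : 1 ≤ 2 ^ k := Nat.one_le_two_pow
      have hkn2 : 2 ^ k + 1 ≤ n := by
        have h1 : 1 ≤ (Nat.log 2 n + 1) ^ 7 := Nat.one_le_pow _ _ (by omega)
        have h2 : 2 ^ k * 2 ≤ 10 ^ 9 * (Nat.log 2 n + 1) ^ 7 * 1 * 2 ^ k := by
          calc 2 ^ k * 2 = 2 * 1 * 1 * 2 ^ k := by ring
            _ ≤ 10 ^ 9 * (Nat.log 2 n + 1) ^ 7 * 1 * 2 ^ k := by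
              apply Nat.mul_le_mul_right
              exact Nat.mul_le_mul (Nat.mul_le_mul (by norm_num) h1) le_rfl
        omega
      obtain ⟨ω, hω⟩ := exists_network hp0 hp1 h2k hkd hkn2 hst hgap
      exact explicitM (d := 2 ^ k) hk hst (Nw ω) (hNw ω) δ hδ hω hle hT2 le_rfl hkn)
    have := finish h4 h5 hℓn hm hδ hδ1 hT' hmain
    nlinarith

end MTN
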