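import Pool.Agent.Lib.Pe46137X.FNet

/-!
# MTN.Form (MP_e46137_lc): monotone formulas with `m` leaves are monotone switching networks with
at most `2 m` states
-/

namespace MTN

open Pool.Agent.Lib.Pe46137 Pool.Agent.Lib.Pe46137X Pool.Agent.Lib.Pe46137X.FNetAux

theorem form_net {V : Type} (F : Formula V) : (∀ G, F.Eval G) ∨ (∀ G, ¬ F.Eval G) ∨
    1 ≤ F.leaves ∧ ∃ m ≤ 2 * F.leaves, ∃ N : SwitchingNetwork (V × V) (Fin m), IsMonotone N ∧
      ∀ G, N.Connects G Gᶜ ↔ F.Eval G := by
  have key : (∀ G, F.Eval G) ∨ (∀ G, ¬ F.Eval G) ∨ 1 ≤ F.leaves ∧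
      ∃ (W : Type) (_ : Fintype W), Fintype.card W ≤ 2 * F.leaves ∧
        ∃ (N : SwitchingNetwork (V × V) W) (L : ℕ), Works N F.Eval L := by
    induction F with
    | const b =>
      cases b with
      | true => exact Or.inl fun G => rfl
      | false => exact Or.inr (Or.inl fun G h => absurd h (by simp [Formula.Eval]))
    | arc u v =>
      obtain ⟨N, hN⟩ := works_lit (E := V × V) (u, v) (L := 1) le_rfl
      refine Or.inr (Or.inr ⟨le_rfl, Bool, inferInstance, ?_, N, 1, ⟨hN.mono, fun G h => hN.acc G h,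
        fun G h => hN.rej G h⟩⟩)
      simp [Formula.leaves]
    | and F F' ih ih' =>
      rcases ih with h | h | ⟨hl, W, i, hW, N, L, hN⟩
      · rcases ih' with h' | h' | ⟨hl', W', i', hW', N', L', hN'⟩
        · exact Or.inl fun G => ⟨h G, h' G⟩
        · exact Or.inr (Or.inl fun G hG => h' G hG.2)
        · refine Or.inr (Or.inr ⟨?_, W', i', ?_, N', L', ⟨hN'.mono, fun G hG => hN'.acc G hG.2,
            fun G hG => hN'.rej G fun hG' => hG ⟨h G, hG'⟩⟩⟩)
          · simp only [Formula.leaves]; omega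
          · simp only [Formula.leaves]; omega
      · exact Or.inr (Or.inl fun G hG => h G hG.1)
      · rcases ih' with h' | h' | ⟨hl', W', i', hW', N', L', hN'⟩
        · refine Or.inr (Or.inr ⟨?_, W, i, ?_, N, L, ⟨hN.mono, fun G hG => hN.acc G hG.1,
            fun G hG => hN.rej G fun hG' => hG ⟨hG', h' G⟩⟩⟩)
          · simp only [Formula.leaves]; omega
          · simp only [Formula.leaves]; omega
        · exact Or.inr (Or.inl fun G hG => h' G hG.2)
        · obtain ⟨N'', hN''⟩ := works_and hN hN' (M := L + L' + 1) le_rfl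
          refine Or.inr (Or.inr ⟨?_, W ⊕ W', inferInstance, ?_, N'', L + L' + 1,
            ⟨hN''.mono, fun G hG => hN''.acc G hG, fun G hG => hN''.rej G hG⟩⟩)
          · simp only [Formula.leaves]; omega
          · simp only [Formula.leaves]
            rw [Fintype.card_sum]
            omega
    | or F F' ih ih' =>
      rcases ih with h | h | ⟨hl, W, i, hW, N, L, hN⟩
      · exact Or.inl fun G => Or.inl (h G)
      · rcases ih' with h' | h' | ⟨hl', W', i', hW', N', L', hN'⟩
        · exact Or.inl fun G => Or.inr (h' G)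
        · exact Or.inr (Or.inl fun G hG => hG.elim (h G) (h' G))
        · refine Or.inr (Or.inr ⟨?_, W', i', ?_, N', L', ⟨hN'.mono,
            fun G hG => hN'.acc G (hG.resolve_left (h G)),
            fun G hG => hN'.rej G fun hG' => hG (Or.inr hG')⟩⟩)
          · simp only [Formula.leaves]; omega
          · simp only [Formula.leaves]; omega
      · rcases ih' with h' | h' | ⟨hl', W', i', hW', N', L', hN'⟩
        · exact Or.inl fun G => Or.inr (h' G)
        · refine Or.inr (Or.inr ⟨?_, W, i, ?_, N, L, ⟨hN.mono,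
            fun G hG => hN.acc G (hG.resolve_right (h' G)),
            fun G hG => hN.rej G fun hG' => hG (Or.inl hG')⟩⟩)
          · simp only [Formula.leaves]; omega
          · simp only [Formula.leaves]; omega
        · obtain ⟨N'', hN''⟩ := works_or hN hN' (M := L + (L' + 2)) (by omega) (by omega)
          refine Or.inr (Or.inr ⟨?_, W ⊕ W', inferInstance, ?_, N'', L + (L' + 2),
            ⟨hN''.mono, fun G hG => hN''.acc G hG, fun G hG => hN''.rej G hG⟩⟩)
          · simp only [Formula.leaves]; omega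
          · simp only [Formula.leaves]
            rw [Fintype.card_sum]
            omega
  rcases key with h | h | ⟨hl, W, i, hW, N, L, hN⟩
  · exact Or.inl h
  · exact Or.inr (Or.inl h)
  · have h := works_map (Fintype.equivFin W) hN
    refine Or.inr (Or.inr ⟨hl, Fintype.card W, hW, _, h.mono, fun G => ⟨fun hc => ?_, fun hG =>
      eqvGen_of_joinedIn (h.acc G hG)⟩⟩)
    by_contra hG
    exact h.rej G hG hc

/-- a network with more states -/
theorem pad {E : Type} {m m' : ℕ} (h : m ≤ m') (N : SwitchingNetwork E (Fin m))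
    (hN : IsMonotone N) : ∃ N' : SwitchingNetwork E (Fin m'), IsMonotone N' ∧
      ∀ G : Set E, N'.Connects G Gᶜ ↔ N.Connects G Gᶜ := by
  let e : Fin m → Fin m' := Fin.castLE h
  have he : Function.Injective e := Fin.castLE_injective h
  let N' : SwitchingNetwork E (Fin m') :=
    { source := e N.source
      sink := e N.sink
      wire := fun v w => ∃ a b, e a = v ∧ e b = w ∧ N.wire a b
      pos := fun x v w => ∃ a b, e a = v ∧ e b = w ∧ N.pos x a b
      neg := fun x v w => ∃ a b, e a = v ∧ e b = w ∧ N.neg x a b }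
  refine ⟨N', fun x v w => ?_, fun G => ⟨fun hc => ?_, fun hc => ?_⟩⟩
  · rintro ⟨a, b, -, -, hab⟩
    exact hN x a b hab
  · have h1 := eqv_closed (r := N'.Closed G Gᶜ)
      {v | ∃ a, e a = v ∧ Relation.EqvGen (N.Closed G Gᶜ) N.source a} (by
        intro v w hvw
        have hex : ∃ a b, e a = v ∧ e b = w ∧ N.Closed G Gᶜ a b := by
          rcases hvw with ⟨a, b, h1, h2, h3⟩ | ⟨x, hx, a, b, h1, h2, h3⟩ | ⟨x, hx, a, b, h1, h2, h3⟩
          · exact ⟨a, b, h1, h2, Or.inl h3⟩
          · exact ⟨a, b, h1, h2, Or.inr (Or.inl ⟨x, hx, h3⟩)⟩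
          · exact ⟨a, b, h1, h2, Or.inr (Or.inr ⟨x, hx, h3⟩)⟩
        obtain ⟨a, b, rfl, rfl, hab⟩ := hex
        constructor
        · rintro ⟨a', ha', h4⟩
          have h5 := he ha'
          subst h5
          exact ⟨b, rfl, (eqv_iff hab _).1 h4⟩
        · rintro ⟨b', hb', h4⟩
          have h5 := he hb'
          subst h5
          exact ⟨a, rfl, (eqv_iff hab _).2 h4⟩) hc
    obtain ⟨a, ha, h2⟩ := h1.1 ⟨N.source, rfl, Relation.EqvGen.refl _⟩
    have h3 := he ha
    subst h3
    exact h2
  · have key : ∀ a b, Relation.EqvGen (N.Closed G Gᶜ) a b →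
        Relation.EqvGen (N'.Closed G Gᶜ) (e a) (e b) := by
      intro a b hab
      induction hab with
      | rel x y hxy =>
        apply Relation.EqvGen.rel
        rcases hxy with h1 | ⟨z, hz, h1⟩ | ⟨z, hz, h1⟩
        · exact Or.inl ⟨x, y, rfl, rfl, h1⟩
        · exact Or.inr (Or.inl ⟨z, hz, x, y, rfl, rfl, h1⟩)
        · exact Or.inr (Or.inr ⟨z, hz, x, y, rfl, rfl, h1⟩)
      | refl x => exact Relation.EqvGen.refl _
      | symm x y _ ih => exact Relation.EqvGen.symm _ _ ih
      | trans x y z _ _ ih1 ih2 => exact Relation.EqvGen.trans _ _ _ ih1 ih2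
    exact key _ _ hc

/-- monotone networks for the constants -/
theorem const_net {E : Type} {m : ℕ} (hm : 2 ≤ m) (b : Prop) :
    ∃ N : SwitchingNetwork E (Fin m), IsMonotone N ∧ ∀ G : Set E, N.Connects G Gᶜ ↔ b := by
  by_cases hb : b
  · refine ⟨⟨⟨0, by omega⟩, ⟨0, by omega⟩, fun _ _ => False, fun _ _ _ => False,
      fun _ _ _ => False⟩, fun _ _ _ h => h, fun G => ⟨fun _ => hb, fun _ => ?_⟩⟩
    exact Relation.EqvGen.refl _
  · refine ⟨⟨⟨0, by omega⟩, ⟨1, by omega⟩, fun _ _ => False, fun _ _ _ => False,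
      fun _ _ _ => False⟩, fun _ _ _ h => h, fun G => ⟨fun h => ?_, fun h => absurd h hb⟩⟩
    exfalso
    have h1 := eqv_closed (r := SwitchingNetwork.Closed _ G Gᶜ) {(⟨0, by omega⟩ : Fin m)} (by
      intro v w h
      rcases h with h | ⟨_, _, h⟩ | ⟨_, _, h⟩
      · exact h.elim
      · exact h.elim
      · exact h.elim) h
    have h2 := h1.1 rfl
    rw [Set.mem_singleton_iff, Fin.ext_iff] at h2
    exact absurd h2 (by norm_num)

/-- a property which is computed by a formula with at most `m` leaves is constant or computed by a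
network with `2 m` states -/
theorem form_pad {V : Type} (F : Formula V) {m : ℕ} (hF : F.leaves ≤ m) (hm : 1 ≤ m) :
    ∃ N : SwitchingNetwork (V × V) (Fin (2 * m)), IsMonotone N ∧
      ∀ G, N.Connects G Gᶜ ↔ F.Eval G := by
  rcases form_net F with h | h | ⟨-, m', hm', N, hN, hNF⟩
  · obtain ⟨N, hN, hc⟩ := const_net (E := V × V) (m := 2 * m) (by omega) True
    exact ⟨N, hN, fun G => (hc G).trans ⟨fun _ => h G, fun _ => trivial⟩⟩
  · obtain ⟨N, hN, hc⟩ := const_net (E := V × V) (m := 2 * m) (by omega) False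
    exact ⟨N, hN, fun G => (hc G).trans ⟨fun h => h.elim, fun hG => h G hG⟩⟩
  · obtain ⟨N', hN', hc⟩ := pad (show m' ≤ 2 * m by omega) N hN
    exact ⟨N', hN', fun G => (hc G).trans (hNF G)⟩

/-- formulas without leaves are constant -/
theorem form_const {V : Type} (F : Formula V) (hF : F.leaves = 0) :
    (∀ G, F.Eval G) ∨ ∀ G, ¬ F.Eval G := by
  rcases form_net F with h | h | ⟨h1, -⟩
  · exact Or.inl h
  · exact Or.inr h
  · omega

end MTN
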