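import Pool.Agent.Lib.Pe46137X.Defs

/-!
# MTN.Stmt (MP_e46137_lc): the definitions of the final statement besides those of
`Pe46137.Defs`, `Pe46137X.Defs` and `Pe46137X.NumDefs`
-/

namespace MonSize

open Pool.Agent.Lib.Pe46137 Pool.Agent.Lib.Pe46137X

/-- the property `f` of digraphs on `Fin n` is computed by a monotone formula in which at most `m`
leaves carry a variable -/
def ByFormula (n m : ℕ) (f : Set (Fin n × Fin n) → Prop) : Prop :=
  ∃ F : Formula (Fin n), F.leaves ≤ m ∧ ∀ G, f G ↔ F.Eval G

/-- the property `f` of digraphs on `Fin n` is computed by a monotone switching network with `m`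
states -/
def ByNetwork (n m : ℕ) (f : Set (Fin n × Fin n) → Prop) : Prop :=
  ∃ N : SwitchingNetwork (Fin n × Fin n) (Fin m), IsMonotone N ∧ ∀ G, f G ↔ N.Connects G Gᶜ

/-- undirected graphs -/
def Undirected {n : ℕ} (G : Set (Fin n × Fin n)) : Prop := ∀ a b, (a, b) ∈ G → (b, a) ∈ G

/-- on the digraphs in `𝒢` the property `f` holds if there is a walk of at most `ℓ` arcs from `s` to
`t`, and fails if `t` is not reachable from `s` -/
def SeparatesOn {n : ℕ} (𝒢 f : Set (Fin n × Fin n) → Prop) (s t : Fin n) (ℓ : ℕ) : Prop :=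
  (∀ G, 𝒢 G → Within G s t ℓ → f G) ∧ ∀ G, 𝒢 G → ¬ Reachable G s t → ¬ f G

/-- least number of leaves of a monotone formula for undirected graphs -/
noncomputable def uFormulaSize {n : ℕ} (s t : Fin n) (ℓ : ℕ) : ℕ :=
  sInf {m | ∃ F : Formula (Fin n), SeparatesOn Undirected F.Eval s t ℓ ∧ F.leaves = m}

/-- least depth of a monotone formula for undirected graphs -/
noncomputable def uFormulaDepth {n : ℕ} (s t : Fin n) (ℓ : ℕ) : ℕ :=
  sInf {m | ∃ F : Formula (Fin n), SeparatesOn Undirected F.Eval s t ℓ ∧ F.depth = m}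

open Classical in
/-- A random property (`f ω` has the probability `p ω`) separates on `𝒢` with gap `δ`: for each
digraph in `𝒢` with a walk of at most `ℓ` arcs from `s` to `t` its probability exceeds by at least
`δ` the probability for each digraph in `𝒢` in which `t` is not reachable from `s`. -/
def GapOn {n : ℕ} {Ω : Type} [Fintype Ω] (𝒢 : Set (Fin n × Fin n) → Prop) (p : Ω → ℝ)
    (f : Ω → Set (Fin n × Fin n) → Prop) (s t : Fin n) (ℓ : ℕ) (δ : ℝ) : Prop :=
  ∀ G G', 𝒢 G → 𝒢 G' → Within G s t ℓ → ¬ Reachable G' s t →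
    (∑ ω ∈ Finset.univ.filter (fun ω => f ω G'), p ω) + δ ≤
      ∑ ω ∈ Finset.univ.filter (fun ω => f ω G), p ω

/-- the vertices `s, P 0, …, P (r - 1), t` of the path through `P` -/
def pathVertex {n r : ℕ} (s t : Fin n) (P : Fin r → Fin n) : ℕ → Fin n
  | 0 => s
  | i + 1 => if h : i < r then P ⟨i, h⟩ else t

/-- the arcs of the path `s, P 0, …, P (r - 1), t` -/
def pathArcs {n r : ℕ} (s t : Fin n) (P : Fin r → Fin n) : Set (Fin n × Fin n) :=
  {e | ∃ q ≤ r, e = (pathVertex s t P q, pathVertex s t P (q + 1))}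

/-- the same with the reversed arcs -/
def pathEdges {n r : ℕ} (s t : Fin n) (P : Fin r → Fin n) : Set (Fin n × Fin n) :=
  {e | e ∈ pathArcs s t P ∨ e.swap ∈ pathArcs s t P}

/-- all arcs except those that lead from `C` to the complement of `C` -/
def cutArcs {n : ℕ} (C : Finset (Fin n)) : Set (Fin n × Fin n) := {e | ¬ (e.1 ∈ C ∧ e.2 ∉ C)}

/-- the complete graph on `C` and the complete graph on the complement of `C` -/
def cutEdges {n : ℕ} (C : Finset (Fin n)) : Set (Fin n × Fin n) := {e | e.1 ∈ C ↔ e.2 ∈ C}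

open Classical in
/-- the sequences of `r` distinct vertices different from `s` and `t` -/
noncomputable def seqs (n r : ℕ) (s t : Fin n) : Finset (Fin r → Fin n) :=
  Finset.univ.filter (fun P => Function.Injective P ∧ ∀ i, P i ≠ s ∧ P i ≠ t)

/-- the sets of vertices which contain `s` but not `t` -/
def cuts (n : ℕ) (s t : Fin n) : Finset (Finset (Fin n)) :=
  Finset.univ.filter (fun C => s ∈ C ∧ t ∉ C)

open Classical in
/-- The probability that `f` holds for the graph `g P`, `P` a uniformly random sequence of `d - 1`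
inner vertices of a path of length `d` from `s` to `t`, minus the probability that `f` holds for the
graph `h C`, `C` a uniformly random set of vertices which contains `s` but not `t`. -/
noncomputable def adv {n : ℕ} (f : Set (Fin n × Fin n) → Prop) (d : ℕ) (s t : Fin n)
    (g : (Fin (d - 1) → Fin n) → Set (Fin n × Fin n)) (h : Finset (Fin n) → Set (Fin n × Fin n)) :
    ℝ :=
  (((seqs n (d - 1) s t).filter (fun P => f (g P))).card : ℝ) / (seqs n (d - 1) s t).card -
    (((cuts n s t).filter (fun C => f (h C))).card : ℝ) / (cuts n s t).card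

end MonSize
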