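import Pool.Agent.Lib.MTX.PhiL
import Pool.Agent.Lib.MTX.Model
import Pool.Agent.Lib.Pe46137X.NumDefs

/-!
# MTN.UNum (MP_e46137_lc): the exponent does not change much for polylogarithmic memory
-/

namespace MTN

open Pool.Agent.Lib.Pe46137X

theorem log_le_half {x : ℝ} (hx : 16 ≤ x) : Real.logb 2 x ≤ x / 4 := by
  have h16 : Real.logb 2 (16 : ℝ) = 4 := by
    rw [show (16 : ℝ) = 2 ^ (4 : ℕ) by norm_num, Real.logb_pow, Real.logb_self_eq_one (by norm_num)]
    norm_num
  -- `x = 16 y`, `logb 2 y ≤ 4 (y - 1)`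
  obtain ⟨y, hy⟩ : ∃ y, y = x / 16 := ⟨_, rfl⟩
  have hxy : x = 16 * y := by rw [hy]; ring
  have hy1 : 1 ≤ y := by linarith
  rw [hxy, Real.logb_mul (by norm_num) (by linarith), h16]
  have h1 : Real.logb 2 y ≤ 4 * (y - 1) := by
    unfold Real.logb
    have h2 : Real.log y ≤ y - 1 := Real.log_le_sub_one_of_pos (by linarith)
    have h3 : (1 : ℝ) / 4 ≤ Real.log 2 := by
      have := Real.log_two_gt_d9
      linarith
    rw [div_le_iff₀ (by linarith)]
    nlinarith
  linarith

/-- `phi n S d` for `S` at most `(log n) ^ 3` -/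
theorem phi_main {n S d : ℕ} (hn : 2 ^ 10 ≤ n) (hd : 2 ≤ d) (hdn : d ≤ n) (hS : 1 ≤ S)
    (hS2 : (S : ℝ) ≤ Real.logb 2 n ^ 3) (hSn : S ≤ n) :
    mainTerm n d - 12 * errTerm n d ≤ SharpTS.phi n S d ∧
      SharpTS.err n S d ≤ errTerm n d := by
  have hn0 : (2 : ℝ) ^ 10 ≤ n := by exact_mod_cast hn
  have hnpos : (0 : ℝ) < n := by linarith [show (0 : ℝ) < 2 ^ 10 by norm_num]
  have hS0 : (1 : ℝ) ≤ S := by exact_mod_cast hS
  have hd0 : (2 : ℝ) ≤ d := by exact_mod_cast hd
  obtain ⟨x, hx⟩ : ∃ x, x = Real.logb 2 (n : ℝ) := ⟨_, rfl⟩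
  obtain ⟨y, hy⟩ : ∃ y, y = Real.logb 2 (d : ℝ) := ⟨_, rfl⟩
  obtain ⟨z, hz⟩ : ∃ z, z = Real.logb 2 (S : ℝ) := ⟨_, rfl⟩
  have hx10 : 10 ≤ x := by
    rw [hx, Real.le_logb_iff_rpow_le (by norm_num) hnpos]
    exact_mod_cast hn0
  have hy1 : 1 ≤ y := by
    rw [hy, Real.le_logb_iff_rpow_le (by norm_num) (by linarith), Real.rpow_one]
    exact hd0
  have hyx : y ≤ x := by
    rw [hy, hx]
    exact Real.logb_le_logb_of_le (by norm_num) (by linarith) (by exact_mod_cast hdn)
  have hz0 : 0 ≤ z := by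
    rw [hz]
    exact Real.logb_nonneg (by norm_num) hS0
  obtain ⟨w, hw⟩ : ∃ w, w = Real.logb 2 x := ⟨_, rfl⟩
  have hw1 : 1 ≤ w := by
    rw [hw, Real.le_logb_iff_rpow_le (by norm_num) (by linarith), Real.rpow_one]
    linarith
  have hz3 : z ≤ 3 * w := by
    rw [hz, hw]
    have h1 : Real.logb 2 (S : ℝ) ≤ Real.logb 2 (x ^ 3) :=
      Real.logb_le_logb_of_le (by norm_num) (by linarith) (by rw [hx]; exact hS2)
    rw [Real.logb_pow] at h1
    exact_mod_cast h1
  have hlam : SharpTS.lam n S = x - z := by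
    show Real.logb 2 ((n : ℝ) / S) = _
    rw [Real.logb_div hnpos.ne' (by linarith), hx, hz]
  have hlam0 : 0 ≤ x - z := by
    rw [← hlam]
    exact MTX.lam_nonneg hS hSn
  have hkap : SharpTS.kap n S d = min y (x - z) := by
    show min (Real.logb 2 d) (SharpTS.lam n S) = _
    rw [hlam, hy]
  have hphi : SharpTS.phi n S d = min y (x - z) * (x - z) - min y (x - z) ^ 2 / 2 := by
    show SharpTS.kap n S d * SharpTS.lam n S - SharpTS.kap n S d ^ 2 / 2 = _
    rw [hkap, hlam]
  have hmain : mainTerm n d = y * x - y ^ 2 / 2 := by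
    unfold mainTerm
    rw [← hx, ← hy]
  have herr : errTerm n d = x + y * w := by
    unfold errTerm
    rw [← hx, ← hy, ← hw]
  have herr2 : SharpTS.err n S d = x + min y (x - z) * w := by
    show Real.logb 2 n + SharpTS.kap n S d * Real.logb 2 (Real.logb 2 n) = _
    rw [hkap, ← hx, ← hw]
  rw [hphi, hmain, herr, herr2]
  constructor
  · rcases le_total y (x - z) with h | h
    · rw [min_eq_left h]
      have h1 : y * z ≤ y * (3 * w) := mul_le_mul_of_nonneg_left hz3 (by linarith)
      have h2 : 0 ≤ y * w := by positivity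
      nlinarith
    · rw [min_eq_right h]
      -- `M - φ ≤ z x`
      have h1 : y * x - y ^ 2 / 2 - ((x - z) * (x - z) - (x - z) ^ 2 / 2) ≤ z * x := by
        nlinarith [sq_nonneg (x - y), sq_nonneg z]
      have h2 : z * x ≤ 12 * (x + y * w) := by
        by_cases hx16 : x < 16
        · have hw4 : w ≤ 4 := by
            rw [hw]
            have h16 : Real.logb 2 (16 : ℝ) = 4 := by
              rw [show (16 : ℝ) = 2 ^ (4 : ℕ) by norm_num, Real.logb_pow,
                Real.logb_self_eq_one (by norm_num)]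
              norm_num
            rw [← h16]
            exact Real.logb_le_logb_of_le (by norm_num) (by linarith) hx16.le
          have h3 : z ≤ 12 := by linarith
          have h4 : 0 ≤ y * w := by positivity
          nlinarith
        · have h3 := log_le_half (show 16 ≤ x by linarith)
          rw [← hw] at h3
          have h4 : x / 4 ≤ y := by linarith
          have h5 : z * x ≤ 3 * w * x := mul_le_mul_of_nonneg_right hz3 (by linarith)
          have h6 : w * (x / 4) ≤ w * y := mul_le_mul_of_nonneg_left h4 (by linarith)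
          nlinarith
      linarith
  · have h1 : min y (x - z) * w ≤ y * w := mul_le_mul_of_nonneg_right (min_le_left _ _) (by linarith)
    linarith

end MTN
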