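import Pool.Agent.Lib.MTN.Prog
import Pool.Agent.Lib.MTN.UNum
import Pool.Agent.Lib.MTN.Stmt
import Pool.Agent.Lib.MTX.FinalA
import Pool.Agent.Lib.Pe46137X.Walks

/-!
# MTN.UForm (MP_e46137_lc): monotone formulas on undirected graphs, from the time-space tradeoff
-/

namespace MTN

open Classical Finset Pool.Agent.Lib.Pe46137 Pool.Agent.Lib.Pe46137X MonSize

namespace UFormAux

variable {n : ℕ}

/-- the matrix of a digraph -/
noncomputable def mat (G : Set (Fin n × Fin n)) (a b : Fin n) : Bool := decide ((a, b) ∈ G)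

theorem setOf_mat (G : Set (Fin n × Fin n)) : setOf' (mat G) = G := by
  ext ⟨a, b⟩
  show decide ((a, b) ∈ G) = true ↔ _
  rw [decide_eq_true_iff]

theorem within_of_walk {G : Fin n → Fin n → Bool} {l d : ℕ} {s t : Fin n}
    (h : SharpTS.HasWalk G l s t) (hl : l ≤ d) : Within (setOf' G) s t d := by
  have h1 : ∀ l (v : Fin n), SharpTS.HasWalk G l s v →
      JoinedIn (fun a b => (a, b) ∈ setOf' G) l s v := by
    intro l
    induction l with
    | zero =>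
      intro v hv
      have hv' : s = v := hv
      subst hv'
      exact Pool.Agent.Lib.Pe46137X.JoinedIn.refl _ _ _
    | succ l ih =>
      rintro v ⟨u, hu, hG⟩
      exact Pool.Agent.Lib.Pe46137X.JoinedIn.trans (ih u hu)
        (Pool.Agent.Lib.Pe46137X.JoinedIn.single hG le_rfl)
  exact Pool.Agent.Lib.Pe46137X.JoinedIn.mono (h1 l t h) hl

theorem reach_iff {G : Fin n → Fin n → Bool} {s t : Fin n} :
    SharpTS.Reach G s t ↔ Reachable (setOf' G) s t := Iff.rfl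

theorem sym_iff {G : Fin n → Fin n → Bool} (h : ∀ a b, G a b = G b a) :
    Undirected (setOf' G) := by
  intro a b hab
  show G b a = true
  rw [h b a]
  exact hab

/-- elementary estimates -/
theorem log_facts (hn : 2 ≤ n) : (1 : ℝ) ≤ Real.logb 2 n ∧
    ((Nat.log 2 n + 1 : ℕ) : ℝ) ≤ Real.logb 2 n + 1 ∧
    Real.logb 2 n ≤ ((Nat.log 2 n + 1 : ℕ) : ℝ) := by
  have hn0 : (0 : ℝ) < n := by exact_mod_cast (by omega : 0 < n)
  refine ⟨?_, ?_, ?_⟩
  · rw [Real.le_logb_iff_rpow_le (by norm_num) hn0, Real.rpow_one]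
    exact_mod_cast hn
  · have h1 : ((Nat.log 2 n : ℕ) : ℝ) ≤ Real.logb 2 n := by
      rw [Real.le_logb_iff_rpow_le (by norm_num) hn0, Real.rpow_natCast]
      exact_mod_cast Nat.pow_log_le_self 2 (by omega : n ≠ 0)
    push_cast
    linarith
  · rw [Real.logb_le_iff_le_rpow (by norm_num) hn0, Real.rpow_natCast]
    exact_mod_cast (Nat.lt_pow_succ_log_self (by norm_num) n).le

theorem small {n ℓ : ℕ} (hn : 2 ≤ n) (hℓ : 1 ≤ ℓ) (hℓn : ℓ ≤ n) :
    0 ≤ Real.logb 2 (ℓ : ℝ) ∧ Real.logb 2 (ℓ : ℝ) ≤ Real.logb 2 n ∧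
    0 ≤ Real.logb 2 (Real.logb 2 n) ∧ 1 ≤ errTerm n ℓ ∧ Real.logb 2 n ≤ errTerm n ℓ ∧
    mainTerm n ℓ ≤ Real.logb 2 ℓ * Real.logb 2 n ∧ mainTerm n ℓ ≤ Real.logb 2 n ^ 2 := by
  obtain ⟨h1, -, -⟩ := log_facts hn
  have h2 : 0 ≤ Real.logb 2 (ℓ : ℝ) := Real.logb_nonneg (by norm_num) (by exact_mod_cast hℓ)
  have h3 : Real.logb 2 (ℓ : ℝ) ≤ Real.logb 2 n :=
    Real.logb_le_logb_of_le (by norm_num) (by exact_mod_cast hℓ) (by exact_mod_cast hℓn)
  have h4 : 0 ≤ Real.logb 2 (Real.logb 2 n) := Real.logb_nonneg (by norm_num) h1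
  have h5 : Real.logb 2 n ≤ errTerm n ℓ := by
    unfold errTerm
    nlinarith [mul_nonneg h2 h4]
  have h6 : mainTerm n ℓ ≤ Real.logb 2 ℓ * Real.logb 2 n := by
    unfold mainTerm
    nlinarith [sq_nonneg (Real.logb 2 (ℓ : ℝ))]
  refine ⟨h2, h3, h4, by linarith, h5, h6, h6.trans ?_⟩
  nlinarith

/-- the number of registers -/
theorem reg_le {m : ℕ} (hn : 2 ^ 10 ≤ n) (hm : m ≤ 2 ^ (Nat.log 2 n + 1) ^ 2) :
    ((Nat.log 2 m + 1 : ℕ) : ℝ) ≤ Real.logb 2 n ^ 3 ∧ Nat.log 2 m + 1 ≤ n ∧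
    ((Nat.log 2 m + 1 : ℕ) : ℝ) ≤ 6 * Real.logb 2 n ^ 2 := by
  obtain ⟨h1, h2, h3⟩ := log_facts (show 2 ≤ n by omega)
  have hx10 : 10 ≤ Real.logb 2 (n : ℝ) := by
    have hn0 : (2 : ℝ) ^ 10 ≤ n := by exact_mod_cast hn
    rw [Real.le_logb_iff_rpow_le (by norm_num) (by linarith [show (0 : ℝ) < 2 ^ 10 by norm_num])]
    exact_mod_cast hn0
  obtain ⟨x, hx⟩ : ∃ x, x = Real.logb 2 (n : ℝ) := ⟨_, rfl⟩
  rw [← hx] at h1 h2 h3 hx10 ⊢
  have h4 : Nat.log 2 m ≤ (Nat.log 2 n + 1) ^ 2 := by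
    calc Nat.log 2 m ≤ Nat.log 2 (2 ^ (Nat.log 2 n + 1) ^ 2) := Nat.log_mono_right hm
      _ = _ := Nat.log_pow (by norm_num) _
  have h5 : ((Nat.log 2 m + 1 : ℕ) : ℝ) ≤ (x + 1) ^ 2 + 1 := by
    have h6 : ((Nat.log 2 m : ℕ) : ℝ) ≤ (((Nat.log 2 n + 1 : ℕ) : ℝ)) ^ 2 := by exact_mod_cast h4
    have h7 : (((Nat.log 2 n + 1 : ℕ) : ℝ)) ^ 2 ≤ (x + 1) ^ 2 :=
      pow_le_pow_left₀ (Nat.cast_nonneg _) h2 2
    push_cast
    linarith
  have hxsq : 10 * x ≤ x ^ 2 := by nlinarith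
  have h8 : (x + 1) ^ 2 + 1 ≤ x ^ 3 := by
    have : 10 * x ^ 2 ≤ x ^ 3 := by nlinarith
    nlinarith
  refine ⟨h5.trans h8, ?_, ?_⟩
  · -- `(l + 1)^2 + 1 ≤ 2 ^ l ≤ n`, `l = log n ≥ 10`
    obtain ⟨l, hl⟩ : ∃ l, l = Nat.log 2 n := ⟨_, rfl⟩
    have hl10 : 10 ≤ l := by
      rw [hl]
      exact Nat.le_log_of_pow_le (by norm_num) hn
    have hpow : 2 ^ l ≤ n := by
      rw [hl]
      exact Nat.pow_log_le_self 2 (by omega)
    have hkey : ∀ l, 10 ≤ l → (l + 1) ^ 2 + 1 ≤ 2 ^ l := by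
      intro l hl
      induction l, hl using Nat.le_induction with
      | base => norm_num
      | succ l hl ih =>
        have h9 : (l + 1 + 1) ^ 2 + 1 ≤ 2 * ((l + 1) ^ 2 + 1) := by nlinarith
        have h10 : 2 ^ (l + 1) = 2 ^ l * 2 := pow_succ 2 l
        omega
    have := hkey l hl10
    rw [← hl] at h4
    omega
  · refine h5.trans ?_
    nlinarith

end UFormAux

open UFormAux

/-- the gap is at most one, and not positive for constant formulas -/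
theorem ugap_basic {n : ℕ} {Ω : Type} [Fintype Ω] {p : Ω → ℝ} (hp0 : ∀ ω, 0 ≤ p ω)
    (hp1 : ∑ ω, p ω = 1) {f : Ω → Set (Fin n × Fin n) → Prop} {ℓ : ℕ} (hℓ : 1 ≤ ℓ)
    {s t : Fin n} (hst : s ≠ t) {δ : ℝ} {𝒢 : Set (Fin n × Fin n) → Prop} (h1 : 𝒢 Set.univ)
    (h0 : 𝒢 ∅) (h : GapOn 𝒢 p f s t ℓ δ) :
    δ ≤ 1 ∧ ((∀ ω, (∀ G, f ω G) ∨ ∀ G, ¬ f ω G) → δ ≤ 0) := by
  have h2 := h Set.univ ∅ h1 h0
    (Pool.Agent.Lib.Pe46137X.JoinedIn.single (Set.mem_univ _) hℓ) (by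
    intro hr
    rcases Relation.ReflTransGen.cases_head hr with h5 | ⟨b, h5, -⟩
    · exact hst h5
    · exact h5)
  constructor
  · have h3 : 0 ≤ ∑ ω ∈ univ.filter (fun ω => f ω ∅), p ω := sum_nonneg fun ω _ => hp0 ω
    have h4 : ∑ ω ∈ univ.filter (fun ω => f ω Set.univ), p ω ≤ ∑ ω, p ω :=
      sum_le_sum_of_subset_of_nonneg (filter_subset _ _) (fun ω _ _ => hp0 ω)
    linarith
  · intro hc
    have h3 : (univ.filter (fun ω => f ω ∅)) = univ.filter (fun ω => f ω Set.univ) := by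
      refine filter_congr fun ω _ => ?_
      rcases hc ω with h | h
      · exact ⟨fun _ => h _, fun _ => h _⟩
      · exact ⟨fun h' => absurd h' (h _), fun h' => absurd h' (h _)⟩
    rw [h3] at h2
    linarith

/-- probabilistic monotone formulas on undirected graphs -/
theorem ugap : ∃ C : ℝ, 0 < C ∧ ∀ (n ℓ m : ℕ) (s t : Fin n), s ≠ t → 1 ≤ ℓ → ℓ ≤ n → 1 ≤ m →
    ∀ (Ω : Type) [Fintype Ω] (p : Ω → ℝ), (∀ ω, 0 ≤ p ω) → ∑ ω, p ω = 1 →
    ∀ f : Ω → Set (Fin n × Fin n) → Prop, (∀ ω, ByFormula n m (f ω)) →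
    ∀ δ : ℝ, 0 < δ → GapOn Undirected p f s t ℓ δ →
      mainTerm n ℓ - C * errTerm n ℓ ≤ Real.logb 2 (m / δ) := by
  obtain ⟨c, hc, hgap⟩ := MTX.gap
  refine ⟨c + 20, by positivity, ?_⟩
  intro n ℓ m s t hst hℓ hℓn hm Ω _ p hp0 hp1 f hf δ hδ h
  have hn : 2 ≤ n := by
    by_contra hcon
    have : n = 0 ∨ n = 1 := by omega
    rcases this with rfl | rfl
    · exact s.elim0
    · exact hst (Subsingleton.elim s t)
  obtain ⟨l1, l2, l3⟩ := log_facts hn
  obtain ⟨e1, e2, e3, e4, e5, e6, e7⟩ := small hn hℓ hℓn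
  obtain ⟨hδ1, -⟩ := ugap_basic hp0 hp1 hℓ hst (fun a b _ => Set.mem_univ _)
    (fun a b hab => hab.elim) h
  have hm0 : (1 : ℝ) ≤ m := by exact_mod_cast hm
  have hmδ : (m : ℝ) ≤ m / δ := by
    rw [le_div_iff₀ hδ]
    nlinarith
  have hlog0 : 0 ≤ Real.logb 2 (m / δ) := Real.logb_nonneg (by norm_num) (by linarith)
  have hCE : 20 * errTerm n ℓ ≤ (c + 20) * errTerm n ℓ :=
    mul_le_mul_of_nonneg_right (by linarith) (by linarith)
  -- small `n`
  by_cases hn10 : n < 2 ^ 10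
  · have hx10 : Real.logb 2 (n : ℝ) ≤ 10 := by
      rw [Real.logb_le_iff_le_rpow (by norm_num) (by positivity)]
      have : (n : ℝ) ≤ 2 ^ 10 := by exact_mod_cast hn10.le
      exact_mod_cast this
    have h8 : mainTerm n ℓ ≤ 10 * Real.logb 2 n := by nlinarith
    linarith
  have hn10' : 2 ^ 10 ≤ n := by omega
  rcases Nat.lt_or_ge ℓ 2 with hℓ2 | hℓ2
  · have hℓ1 : ℓ = 1 := by omega
    subst hℓ1
    have h8 : mainTerm n 1 = 0 := by
      unfold mainTerm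
      simp
    rw [h8]
    linarith
  by_cases hmbig : 2 ^ (Nat.log 2 n + 1) ^ 2 < m
  · -- `log m ≥ (log n)^2`
    have h8 : (((Nat.log 2 n + 1 : ℕ) : ℝ)) ^ 2 ≤ Real.logb 2 m := by
      rw [Real.le_logb_iff_rpow_le (by norm_num) (by linarith)]
      have h9 : (2 : ℝ) ^ ((((Nat.log 2 n + 1 : ℕ) : ℝ)) ^ 2) =
          ((2 ^ (Nat.log 2 n + 1) ^ 2 : ℕ) : ℝ) := by
        rw [← Nat.cast_pow, Real.rpow_natCast]
        push_cast
        rfl
      rw [h9]
      exact_mod_cast hmbig.le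
    have h9 : Real.logb 2 (n : ℝ) ^ 2 ≤ (((Nat.log 2 n + 1 : ℕ) : ℝ)) ^ 2 :=
      pow_le_pow_left₀ (by linarith) l3 2
    have h10 : Real.logb 2 (m : ℝ) ≤ Real.logb 2 (m / δ) :=
      Real.logb_le_logb_of_le (by norm_num) (by linarith) hmδ
    linarith
  push Not at hmbig
  obtain ⟨r1, r2, -⟩ := reg_le hn10' hmbig
  have hmach : ∀ ω, ∃ (M : SharpTS.Mach n (Nat.log 2 m + 1)) (out : Fin (Nat.log 2 m + 1)),
      ∀ G, M.run G (2 * m) out = true ↔ f ω (setOf' G) := by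
    intro ω
    obtain ⟨F, hF, hfF⟩ := hf ω
    obtain ⟨M, out, hM⟩ := form_mach s F hF
    exact ⟨M, out, fun G => (hM G).trans (hfF _).symm⟩
  choose M out hM using hmach
  have hG : SharpTS.GapP p M out (2 * m) ℓ s t δ := by
    intro G G' hG hG' hw hr
    obtain ⟨l, hl, hw⟩ := hw
    have h8 := h (setOf' G) (setOf' G') (sym_iff hG) (sym_iff hG') (within_of_walk hw hl)
      (fun h' => hr (reach_iff.2 h'))
    have key : ∀ G'' : Fin n → Fin n → Bool, SharpTS.accProb p M out (2 * m) G'' =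
        ∑ ω ∈ univ.filter (fun ω => f ω (setOf' G'')), p ω := by
      intro G''
      unfold SharpTS.accProb
      exact sum_congr (filter_congr fun ω _ => hM ω G'') fun _ _ => rfl
    rw [key, key]
    exact h8
  have h9 := hgap n (Nat.log 2 m + 1) ℓ (2 * m) s t (by omega) (by omega) r2 hℓ2 hℓn hst Ω p hp0
    hp1 M out δ hδ hG
  obtain ⟨h10, h11⟩ := phi_main hn10' hℓ2 hℓn (by omega) r1 r2
  have h12 : c * SharpTS.err n (Nat.log 2 m + 1) ℓ ≤ c * errTerm n ℓ :=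
    mul_le_mul_of_nonneg_left h11 hc.le
  have h13 : Real.logb 2 (((2 * m : ℕ) : ℝ) / δ) = 1 + Real.logb 2 (m / δ) := by
    have e : ((2 * m : ℕ) : ℝ) / δ = 2 * (m / δ) := by
      push_cast
      ring
    rw [e, Real.logb_mul (by norm_num) (by positivity), Real.logb_self_eq_one (by norm_num)]
  rw [h13] at h9
  nlinarith

/-- average case for monotone formulas on undirected graphs -/
theorem uaverage : ∃ C : ℝ, 0 < C ∧ ∀ (n ℓ m : ℕ) (s t : Fin n), s ≠ t → 1 ≤ ℓ → ℓ ≤ n →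
    1 ≤ m → C * Real.logb 2 n ^ 9 * ℓ ≤ n →
    ∀ f : Set (Fin n × Fin n) → Prop, ByFormula n m f →
      adv f ℓ s t (pathEdges s t) cutEdges ≤
        m * (2 : ℝ) ^ (-(mainTerm n ℓ - C * errTerm n ℓ)) := by
  obtain ⟨c, hc, hadv⟩ := MTX.adv
  refine ⟨2 ^ 10 + 6 * c + 20, by positivity, ?_⟩
  intro n ℓ m s t hst hℓ hℓn hm hC f hf
  have hn : 2 ≤ n := by
    by_contra hcon
    have : n = 0 ∨ n = 1 := by omega
    rcases this with rfl | rfl
    · exact s.elim0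
    · exact hst (Subsingleton.elim s t)
  obtain ⟨l1, l2, l3⟩ := log_facts hn
  obtain ⟨e1, e2, e3, e4, e5, e6, e7⟩ := small hn hℓ hℓn
  have hm0 : (1 : ℝ) ≤ m := by exact_mod_cast hm
  have hℓ0 : (1 : ℝ) ≤ ℓ := by exact_mod_cast hℓ
  have hx9 : (1 : ℝ) ≤ Real.logb 2 n ^ 9 := one_le_pow₀ l1
  have hn10' : 2 ^ 10 ≤ n := by
    have h8 : ((2 : ℝ) ^ 10) ≤ n := by
      refine le_trans ?_ hC
      calc (2 : ℝ) ^ 10 = 2 ^ 10 * 1 * 1 := by ring
        _ ≤ (2 ^ 10 + 6 * c + 20) * Real.logb 2 n ^ 9 * ℓ := by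
          gcongr
          nlinarith
    exact_mod_cast h8
  -- the difference is at most one
  have hle1 : adv f ℓ s t (pathEdges s t) cutEdges ≤ 1 := by
    unfold adv
    have h8 : (((seqs n (ℓ - 1) s t).filter (fun P => f (pathEdges s t P))).card : ℝ) /
        (seqs n (ℓ - 1) s t).card ≤ 1 := by
      apply div_le_one_of_le₀
      · exact_mod_cast card_filter_le _ _
      · positivity
    have h9 : (0 : ℝ) ≤ (((cuts n s t).filter (fun C => f (cutEdges C))).card : ℝ) /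
        (cuts n s t).card := by positivity
    linarith
  have htriv : mainTerm n ℓ - (2 ^ 10 + 6 * c + 20) * errTerm n ℓ ≤ Real.logb 2 m →
      adv f ℓ s t (pathEdges s t) cutEdges ≤
        m * (2 : ℝ) ^ (-(mainTerm n ℓ - (2 ^ 10 + 6 * c + 20) * errTerm n ℓ)) := by
    intro h8
    refine hle1.trans ?_
    rw [Real.le_logb_iff_rpow_le (by norm_num) (by linarith)] at h8
    rw [Real.rpow_neg (by norm_num), ← div_eq_mul_inv, le_div_iff₀ (by positivity), one_mul]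
    exact h8
  have hlogm : 0 ≤ Real.logb 2 (m : ℝ) := Real.logb_nonneg (by norm_num) hm0
  rcases Nat.lt_or_ge ℓ 2 with hℓ2 | hℓ2
  · apply htriv
    have hℓ1 : ℓ = 1 := by omega
    subst hℓ1
    have h8 : mainTerm n 1 = 0 := by
      unfold mainTerm
      simp
    rw [h8]
    nlinarith
  by_cases hmbig : 2 ^ (Nat.log 2 n + 1) ^ 2 < m
  · apply htriv
    have h8 : (((Nat.log 2 n + 1 : ℕ) : ℝ)) ^ 2 ≤ Real.logb 2 m := by
      rw [Real.le_logb_iff_rpow_le (by norm_num) (by linarith)]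
      have h9 : (2 : ℝ) ^ ((((Nat.log 2 n + 1 : ℕ) : ℝ)) ^ 2) =
          ((2 ^ (Nat.log 2 n + 1) ^ 2 : ℕ) : ℝ) := by
        rw [← Nat.cast_pow, Real.rpow_natCast]
        push_cast
        rfl
      rw [h9]
      exact_mod_cast hmbig.le
    have h9 : Real.logb 2 (n : ℝ) ^ 2 ≤ (((Nat.log 2 n + 1 : ℕ) : ℝ)) ^ 2 :=
      pow_le_pow_left₀ (by linarith) l3 2
    nlinarith
  push Not at hmbig
  obtain ⟨r1, r2, r3⟩ := reg_le hn10' hmbig
  obtain ⟨F, hF, hfF⟩ := hf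
  obtain ⟨M, out, hM⟩ := form_mach s F hF
  have hCS : c * Real.logb 2 n ^ 7 * ((Nat.log 2 m + 1 : ℕ) : ℝ) * ℓ ≤ n := by
    refine le_trans ?_ hC
    calc c * Real.logb 2 n ^ 7 * ((Nat.log 2 m + 1 : ℕ) : ℝ) * ℓ
        ≤ c * Real.logb 2 n ^ 7 * (6 * Real.logb 2 n ^ 2) * ℓ := by gcongr
      _ = (6 * c) * Real.logb 2 n ^ 9 * ℓ := by ring
      _ ≤ (2 ^ 10 + 6 * c + 20) * Real.logb 2 n ^ 9 * ℓ := by
        gcongr
        linarith
  have h9 := hadv n (Nat.log 2 m + 1) ℓ (2 * m) s t (by omega) (by omega) r2 hℓ2 hℓn hst hCS M out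
  obtain ⟨h10, h11⟩ := phi_main hn10' hℓ2 hℓn (by omega) r1 r2
  have hfG : ∀ G : Fin n → Fin n → Bool, M.run G (2 * m) out = true ↔ f (setOf' G) :=
    fun G => (hM G).trans (hfF _).symm
  have e1 : SharpTS.accPath M out (2 * m) ℓ s t =
      (((seqs n (ℓ - 1) s t).filter (fun P => f (pathEdges s t P))).card : ℝ) /
        (seqs n (ℓ - 1) s t).card := by
    unfold SharpTS.accPath
    have h12 : (SharpTS.seqs n (ℓ - 1) s t).filter (fun P =>
        M.run (SharpTS.pathGraph s t P) (2 * m) out = true) =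
        (seqs n (ℓ - 1) s t).filter (fun P => f (pathEdges s t P)) := by
      ext P
      have h13 : (P ∈ SharpTS.seqs n (ℓ - 1) s t) ↔ P ∈ seqs n (ℓ - 1) s t := Iff.rfl
      rw [mem_filter, mem_filter, h13, hfG]
      have h14 : setOf' (SharpTS.pathGraph s t P) = pathEdges s t P := by
        have hv : ∀ i, SharpTS.pathVertex s t P i = pathVertex s t P i := by
          intro i
          cases i with
          | zero => rfl
          | succ i => rfl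
        ext ⟨a, b⟩
        show SharpTS.pathGraph s t P a b = true ↔ _
        unfold SharpTS.pathGraph pathEdges pathArcs
        rw [decide_eq_true_iff]
        simp only [hv, Set.mem_ofPred_eq, Prod.swap_prod_mk, Prod.mk.injEq]
        constructor
        · rintro ⟨q, hq, h | h⟩
          · exact Or.inl ⟨q, hq, h⟩
          · exact Or.inr ⟨q, hq, h⟩
        · rintro (⟨q, hq, h⟩ | ⟨q, hq, h⟩)
          · exact ⟨q, hq, Or.inl h⟩
          · exact ⟨q, hq, Or.inr h⟩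
      rw [h14]
    rw [h12]
    rfl
  have e2 : SharpTS.accCut M out (2 * m) s t =
      (((cuts n s t).filter (fun C => f (cutEdges C))).card : ℝ) / (cuts n s t).card := by
    unfold SharpTS.accCut
    have h12 : (SharpTS.cuts n s t).filter (fun C =>
        M.run (SharpTS.cutGraph C) (2 * m) out = true) =
        (cuts n s t).filter (fun C => f (cutEdges C)) := by
      ext C
      have h13 : (C ∈ SharpTS.cuts n s t) ↔ C ∈ cuts n s t := Iff.rfl
      rw [mem_filter, mem_filter, h13, hfG]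
      have h14 : setOf' (SharpTS.cutGraph C) = cutEdges C := by
        ext ⟨a, b⟩
        show SharpTS.cutGraph C a b = true ↔ _
        unfold SharpTS.cutGraph cutEdges
        rw [decide_eq_true_iff]
        rfl
      rw [h14]
    rw [h12]
    rfl
  have e3 : adv f ℓ s t (pathEdges s t) cutEdges =
      SharpTS.accPath M out (2 * m) ℓ s t - SharpTS.accCut M out (2 * m) s t := by
    rw [e1, e2]
    rfl
  rw [e3]
  refine h9.trans ?_
  have h12 : c * SharpTS.err n (Nat.log 2 m + 1) ℓ ≤ c * errTerm n ℓ :=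
    mul_le_mul_of_nonneg_left h11 hc.le
  have h15 : (2 : ℝ) ^ (-(SharpTS.phi n (Nat.log 2 m + 1) ℓ -
      c * SharpTS.err n (Nat.log 2 m + 1) ℓ)) * 2 ≤
      (2 : ℝ) ^ (-(mainTerm n ℓ - (2 ^ 10 + 6 * c + 20) * errTerm n ℓ)) := by
    have h16 : (2 : ℝ) ^ (-(SharpTS.phi n (Nat.log 2 m + 1) ℓ -
        c * SharpTS.err n (Nat.log 2 m + 1) ℓ)) * 2 =
        (2 : ℝ) ^ (-(SharpTS.phi n (Nat.log 2 m + 1) ℓ -
        c * SharpTS.err n (Nat.log 2 m + 1) ℓ) + 1) := by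
      rw [Real.rpow_add (by norm_num), Real.rpow_one]
    rw [h16]
    apply Real.rpow_le_rpow_of_exponent_le (by norm_num)
    nlinarith
  calc ((2 * m : ℕ) : ℝ) * (2 : ℝ) ^ (-(SharpTS.phi n (Nat.log 2 m + 1) ℓ -
        c * SharpTS.err n (Nat.log 2 m + 1) ℓ))
      = m * ((2 : ℝ) ^ (-(SharpTS.phi n (Nat.log 2 m + 1) ℓ -
        c * SharpTS.err n (Nat.log 2 m + 1) ℓ)) * 2) := by
        push_cast
        ring
    _ ≤ m * (2 : ℝ) ^ (-(mainTerm n ℓ - (2 ^ 10 + 6 * c + 20) * errTerm n ℓ)) :=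
        mul_le_mul_of_nonneg_left h15 (Nat.cast_nonneg _)

end MTN
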