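import Pool.Agent.Lib.MTN.End
import Pool.Agent.Lib.MTN.Form
import Pool.Agent.Lib.MTN.UForm
import Pool.Agent.Lib.Pe46137X.Final

/-!
# MTN.Final (MP_e46137_lc): the exact exponent for monotone formulas and switching networks
-/

namespace MTN

open Classical Finset Pool.Agent.Lib.Pe46137 Pool.Agent.Lib.Pe46137X MonSize UFormAux

namespace FinalAux

theorem pathVertex_eq {n r : ℕ} (s t : Fin n) (P : Fin r → Fin n) (i : ℕ) :
    MonSize.pathVertex s t P i = MTN.pathVertex s t P i := by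
  cases i with
  | zero => rfl
  | succ i => rfl

theorem pathArcs_eq {n r : ℕ} (s t : Fin n) (P : Fin r → Fin n) :
    MonSize.pathArcs s t P = MTN.pathArcs s t P := by
  unfold MonSize.pathArcs MTN.pathArcs
  simp only [pathVertex_eq]

theorem adv_eq {n m d : ℕ} {f : Set (Fin n × Fin n) → Prop}
    (N : SwitchingNetwork (Fin n × Fin n) (Fin m)) (h : ∀ G, f G ↔ N.Connects G Gᶜ)
    (s t : Fin n) : MonSize.adv f d s t (MonSize.pathArcs s t) MonSize.cutArcs =
      accPath N d s t - accCut N s t := by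
  have hf : f = fun G => N.Connects G Gᶜ := funext fun G => propext (h G)
  subst hf
  unfold MonSize.adv accPath accCut
  simp only [pathArcs_eq]
  rfl

end FinalAux

open FinalAux

/-- **The exact exponent** of monotone formula size, monotone depth and the number of states of
monotone switching networks for reachability by walks of at most `ℓ` arcs, also for probabilistic
formulas and networks and on average; for formulas even on undirected graphs. -/
theorem final : ∃ C : ℝ, 0 < C ∧ ∀ (n : ℕ) (s t : Fin n), s ≠ t → ∀ ℓ : ℕ, 1 ≤ ℓ → ℓ ≤ n →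
    (|Real.logb 2 (formulaSize s t ℓ) - mainTerm n ℓ| ≤ C * errTerm n ℓ ∧
      |(formulaDepth s t ℓ : ℝ) - mainTerm n ℓ| ≤ C * errTerm n ℓ ∧
      |Real.logb 2 (uFormulaSize s t ℓ) - mainTerm n ℓ| ≤ C * errTerm n ℓ ∧
      |(uFormulaDepth s t ℓ : ℝ) - mainTerm n ℓ| ≤ C * errTerm n ℓ ∧
      |Real.logb 2 (networkStates s t ℓ) - mainTerm n ℓ| ≤ C * errTerm n ℓ) ∧
    (∀ (m : ℕ) (Ω : Type) [Fintype Ω] (p : Ω → ℝ), (∀ ω, 0 ≤ p ω) → ∑ ω, p ω = 1 →
      ∀ (f : Ω → Set (Fin n × Fin n) → Prop) (δ : ℝ), 0 < δ →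
        ((∀ ω, ByFormula n m (f ω)) ∧ GapOn Undirected p f s t ℓ δ ∨
          (∀ ω, ByNetwork n m (f ω)) ∧ GapOn (fun _ => True) p f s t ℓ δ) →
        mainTerm n ℓ - C * errTerm n ℓ ≤ Real.logb 2 (m / δ)) ∧
    (C * Real.logb 2 n ^ 9 * ℓ ≤ n → ∀ (m : ℕ) (f : Set (Fin n × Fin n) → Prop),
      (ByFormula n m f → adv f ℓ s t (MonSize.pathEdges s t) MonSize.cutEdges ≤
        m * (2 : ℝ) ^ (-(mainTerm n ℓ - C * errTerm n ℓ))) ∧
      (ByNetwork n m f → adv f ℓ s t (MonSize.pathArcs s t) MonSize.cutArcs ≤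
        m * (2 : ℝ) ^ (-(mainTerm n ℓ - C * errTerm n ℓ)))) := by
  obtain ⟨C₁, hC₁, h1⟩ := main
  obtain ⟨C₂, hC₂, h2⟩ := average
  obtain ⟨C₃, hC₃, h3⟩ := gap
  obtain ⟨C₄, hC₄, h4⟩ := ugap
  obtain ⟨C₅, hC₅, h5⟩ := uaverage
  obtain ⟨C, hC⟩ : ∃ C, C = C₁ + C₂ + C₃ + C₄ + C₅ := ⟨_, rfl⟩
  refine ⟨C, by linarith, ?_⟩
  intro n s t hst ℓ hℓ hℓn
  have hn : 2 ≤ n := by
    by_contra hc
    have : n = 0 ∨ n = 1 := by omega
    rcases this with rfl | rfl
    · exact s.elim0
    · exact hst (Subsingleton.elim s t)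
  obtain ⟨l1, -, -⟩ := log_facts hn
  obtain ⟨-, -, -, hE1, -, -, -⟩ := small hn hℓ hℓn
  have hE0 : 0 ≤ errTerm n ℓ := by linarith
  have k1 : C₁ * errTerm n ℓ ≤ C * errTerm n ℓ := mul_le_mul_of_nonneg_right (by linarith) hE0
  have k2 : C₂ * errTerm n ℓ ≤ C * errTerm n ℓ := mul_le_mul_of_nonneg_right (by linarith) hE0
  have k3 : C₃ * errTerm n ℓ ≤ C * errTerm n ℓ := mul_le_mul_of_nonneg_right (by linarith) hE0
  have k4 : C₄ * errTerm n ℓ ≤ C * errTerm n ℓ := mul_le_mul_of_nonneg_right (by linarith) hE0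
  have k5 : C₅ * errTerm n ℓ ≤ C * errTerm n ℓ := mul_le_mul_of_nonneg_right (by linarith) hE0
  obtain ⟨a1, a2, -, -, a5⟩ := h1 n s t hst ℓ hℓ hℓn
  -- constant properties have no gap
  have hprob : ∀ (m : ℕ) (Ω : Type) [Fintype Ω] (p : Ω → ℝ), (∀ ω, 0 ≤ p ω) → ∑ ω, p ω = 1 →
      ∀ (f : Ω → Set (Fin n × Fin n) → Prop) (δ : ℝ), 0 < δ →
        ((∀ ω, ByFormula n m (f ω)) ∧ GapOn Undirected p f s t ℓ δ ∨
          (∀ ω, ByNetwork n m (f ω)) ∧ GapOn (fun _ => True) p f s t ℓ δ) →
        mainTerm n ℓ - C * errTerm n ℓ ≤ Real.logb 2 (m / δ) := by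
    intro m Ω _ p hp0 hp1 f δ hδ h
    rcases h with ⟨hf, hgap⟩ | ⟨hf, hgap⟩
    · rcases Nat.eq_zero_or_pos m with hm | hm
      · subst hm
        exfalso
        have h6 := (ugap_basic hp0 hp1 hℓ hst (fun a b _ => Set.mem_univ _)
          (fun a b hab => hab.elim) hgap).2 (by
            intro ω
            obtain ⟨F, hF, hfF⟩ := hf ω
            rcases form_const F (Nat.le_zero.1 hF) with h | h
            · exact Or.inl fun G => (hfF G).2 (h G)
            · exact Or.inr fun G hG => h G ((hfF G).1 hG))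
        linarith
      · have h6 := h4 n ℓ m s t hst hℓ hℓn hm Ω p hp0 hp1 f hf δ hδ hgap
        linarith
    · choose N hN hNf using hf
      have hfN : f = fun ω G => (N ω).Connects G Gᶜ := by
        funext ω G
        exact propext (hNf ω G)
      subst hfN
      have h6 := h3 n ℓ m s t hst hℓ hℓn Ω p hp0 hp1 N hN δ hδ (by
        intro G G' hG hG'
        exact hgap G G' trivial trivial hG hG')
      linarith
  -- one property
  have hone : ∀ (m : ℕ) (f : Set (Fin n × Fin n) → Prop),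
      (ByFormula n m f ∧ SeparatesOn Undirected f s t ℓ ∨
        ByNetwork n m f ∧ SeparatesOn (fun _ => True) f s t ℓ) →
      mainTerm n ℓ - C * errTerm n ℓ ≤ Real.logb 2 m := by
    intro m f hf
    have key : ∀ 𝒢 : Set (Fin n × Fin n) → Prop, SeparatesOn 𝒢 f s t ℓ →
        GapOn 𝒢 (fun _ : Unit => (1 : ℝ)) (fun _ => f) s t ℓ 1 := by
      intro 𝒢 hsep G G' hG hG' hw hr
      have e1 : (univ.filter (fun _ : Unit => f G')) = ∅ := by
        rw [filter_eq_empty_iff]
        intro _ _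
        exact hsep.2 G' hG' hr
      have e2 : (univ.filter (fun _ : Unit => f G)) = univ := by
        rw [filter_eq_self]
        intro _ _
        exact hsep.1 G hG hw
      rw [e1, e2]
      simp
    have h6 := hprob m Unit (fun _ => 1) (fun _ => zero_le_one) (by simp) (fun _ => f) 1 one_pos
      (by
        rcases hf with ⟨hf, hs⟩ | ⟨hf, hs⟩
        · exact Or.inl ⟨fun _ => hf, key _ hs⟩
        · exact Or.inr ⟨fun _ => hf, key _ hs⟩)
    rwa [div_one] at h6
  -- optimal formulas and networks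
  obtain ⟨F₀, hF₀, -, -⟩ := exists_formula hn s t hℓ hℓn
  have hne1 : {m | ∃ F : Formula (Fin n), Separates F.Eval s t ℓ ∧ F.leaves = m}.Nonempty :=
    ⟨_, F₀, hF₀, rfl⟩
  have hne2 : {m | ∃ F : Formula (Fin n), Separates F.Eval s t ℓ ∧ F.depth = m}.Nonempty :=
    ⟨_, F₀, hF₀, rfl⟩
  have hsub : ∀ F : Formula (Fin n), Separates F.Eval s t ℓ →
      SeparatesOn Undirected F.Eval s t ℓ := fun F hF => ⟨fun G _ h => hF.1 G h, fun G _ h => hF.2 G h⟩
  have hne3 : {m | ∃ F : Formula (Fin n), SeparatesOn Undirected F.Eval s t ℓ ∧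
      F.leaves = m}.Nonempty := ⟨_, F₀, hsub F₀ hF₀, rfl⟩
  have hne4 : {m | ∃ F : Formula (Fin n), SeparatesOn Undirected F.Eval s t ℓ ∧
      F.depth = m}.Nonempty := ⟨_, F₀, hsub F₀ hF₀, rfl⟩
  obtain ⟨F₁, hF₁, hF₁'⟩ : ∃ F : Formula (Fin n), Separates F.Eval s t ℓ ∧
    F.leaves = formulaSize s t ℓ := Nat.sInf_mem hne1
  obtain ⟨F₂, hF₂, hF₂'⟩ : ∃ F : Formula (Fin n), Separates F.Eval s t ℓ ∧
    F.depth = formulaDepth s t ℓ := Nat.sInf_mem hne2
  obtain ⟨F₃, hF₃, hF₃'⟩ : ∃ F : Formula (Fin n), SeparatesOn Undirected F.Eval s t ℓ ∧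
    F.leaves = uFormulaSize s t ℓ := Nat.sInf_mem hne3
  obtain ⟨F₄, hF₄, hF₄'⟩ : ∃ F : Formula (Fin n), SeparatesOn Undirected F.Eval s t ℓ ∧
    F.depth = uFormulaDepth s t ℓ := Nat.sInf_mem hne4
  have hne5 : {m | ∃ N : SwitchingNetwork (Fin n × Fin n) (Fin m), IsMonotone N ∧
      Separates (fun G => N.Connects G Gᶜ) s t ℓ}.Nonempty := by
    obtain ⟨m, -, N, hN, hN1, hN2⟩ := exists_network F₀
    exact ⟨m, N, hN, fun G hG => eqvGen_of_joinedIn (hN1 G (hF₀.1 G hG)),
      fun G hG => hN2 G (hF₀.2 G hG)⟩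
  obtain ⟨N, hN, hsep⟩ : ∃ N : SwitchingNetwork (Fin n × Fin n) (Fin (networkStates s t ℓ)),
    IsMonotone N ∧ Separates (fun G => N.Connects G Gᶜ) s t ℓ := Nat.sInf_mem hne5
  -- formulas have leaves
  have hpos : ∀ F : Formula (Fin n), SeparatesOn Undirected F.Eval s t ℓ → 1 ≤ F.leaves := by
    intro F hF
    by_contra h0
    have h6 := hF.1 Set.univ (fun _ _ _ => Set.mem_univ _)
      (Pool.Agent.Lib.Pe46137X.JoinedIn.single (Set.mem_univ _) hℓ)
    have h7 := hF.2 ∅ (fun _ _ hab => hab.elim) (not_reachable_empty hst)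
    rcases form_const F (by omega) with h | h
    · exact h7 (h _)
    · exact h _ h6
  have hus : uFormulaSize s t ℓ ≤ formulaSize s t ℓ := by
    rw [← hF₁']
    exact Nat.sInf_le ⟨F₁, hsub F₁ hF₁, rfl⟩
  have hud : uFormulaDepth s t ℓ ≤ formulaDepth s t ℓ := by
    rw [← hF₂']
    exact Nat.sInf_le ⟨F₂, hsub F₂ hF₂, rfl⟩
  have hus1 : 1 ≤ uFormulaSize s t ℓ := by
    rw [← hF₃']
    exact hpos F₃ hF₃
  have hlow3 := hone (uFormulaSize s t ℓ) F₃.Eval
    (Or.inl ⟨⟨F₃, hF₃'.le, fun G => Iff.rfl⟩, hF₃⟩)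
  have hlow4 : mainTerm n ℓ - C * errTerm n ℓ ≤ (uFormulaDepth s t ℓ : ℝ) := by
    have h6 := hone F₄.leaves F₄.Eval (Or.inl ⟨⟨F₄, le_rfl, fun G => Iff.rfl⟩, hF₄⟩)
    have h7 : Real.logb 2 (F₄.leaves : ℝ) ≤ (F₄.depth : ℝ) := by
      rw [Real.logb_le_iff_le_rpow (by norm_num) (by exact_mod_cast hpos F₄ hF₄),
        Real.rpow_natCast]
      exact_mod_cast leaves_le F₄
    rw [hF₄'] at h7
    linarith
  have hlow5 := hone (networkStates s t ℓ) (fun G => N.Connects G Gᶜ)
    (Or.inr ⟨⟨N, hN, fun G => Iff.rfl⟩, fun G _ h => hsep.1 G h, fun G _ h => hsep.2 G h⟩)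
  refine ⟨⟨a1.trans k1, a2.trans k1, ?_, ?_, ?_⟩, hprob, ?_⟩
  · rw [abs_le]
    have h6 : Real.logb 2 (uFormulaSize s t ℓ : ℝ) ≤ Real.logb 2 (formulaSize s t ℓ : ℝ) :=
      Real.logb_le_logb_of_le (by norm_num) (by exact_mod_cast hus1) (by exact_mod_cast hus)
    have h7 := (abs_le.1 (a1.trans k1)).2
    exact ⟨by linarith, by linarith⟩
  · rw [abs_le]
    have h6 : (uFormulaDepth s t ℓ : ℝ) ≤ (formulaDepth s t ℓ : ℝ) := by exact_mod_cast hud
    have h7 := (abs_le.1 (a2.trans k1)).2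
    exact ⟨by linarith, by linarith⟩
  · rw [abs_le]
    exact ⟨by linarith, by linarith⟩
  · intro hCn m f
    have hlog9 : (1 : ℝ) ≤ Real.logb 2 n ^ 9 := one_le_pow₀ l1
    have hrhs : ∀ c ≤ C, (m : ℝ) * (2 : ℝ) ^ (-(mainTerm n ℓ - c * errTerm n ℓ)) ≤
        m * (2 : ℝ) ^ (-(mainTerm n ℓ - C * errTerm n ℓ)) := by
      intro c hc
      apply mul_le_mul_of_nonneg_left _ (Nat.cast_nonneg _)
      apply Real.rpow_le_rpow_of_exponent_le (by norm_num)
      have := mul_le_mul_of_nonneg_right hc hE0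
      linarith
    constructor
    · intro hf
      rcases Nat.eq_zero_or_pos m with hm | hm
      · subst hm
        obtain ⟨F, hF, hfF⟩ := hf
        have hle : adv f ℓ s t (MonSize.pathEdges s t) MonSize.cutEdges ≤ 0 := by
          have hcase : (∀ G, f G) ∨ ∀ G, ¬ f G := by
            rcases form_const F (Nat.le_zero.1 hF) with h | h
            · exact Or.inl fun G => (hfF G).2 (h G)
            · exact Or.inr fun G hG => h G ((hfF G).1 hG)
          unfold adv
          rcases hcase with h | h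
          · have e1 : (((MonSize.cuts n s t).filter (fun C => f (MonSize.cutEdges C))).card : ℝ) /
                (MonSize.cuts n s t).card = 1 := by
              rw [filter_true_of_mem fun C _ => h _]
              apply div_self
              have h10 : 0 < (MonSize.cuts n s t).card := by
                rw [card_pos]
                refine ⟨{s}, ?_⟩
                unfold MonSize.cuts
                rw [mem_filter]
                refine ⟨mem_univ _, mem_singleton_self _, ?_⟩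
                rw [mem_singleton]
                exact hst.symm
              exact_mod_cast h10.ne'
            have e2 : (((MonSize.seqs n (ℓ - 1) s t).filter
                (fun P => f (MonSize.pathEdges s t P))).card : ℝ) /
                (MonSize.seqs n (ℓ - 1) s t).card ≤ 1 := by
              apply div_le_one_of_le₀
              · exact_mod_cast card_filter_le _ _
              · positivity
            linarith
          · have e1 : (((MonSize.seqs n (ℓ - 1) s t).filter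
                (fun P => f (MonSize.pathEdges s t P))).card : ℝ) /
                (MonSize.seqs n (ℓ - 1) s t).card = 0 := by
              rw [filter_false_of_mem fun P _ => h _]
              simp
            have e2 : (0 : ℝ) ≤ (((MonSize.cuts n s t).filter
                (fun C => f (MonSize.cutEdges C))).card : ℝ) / (MonSize.cuts n s t).card := by
              positivity
            linarith
        simpa using hle
      · have h6 := h5 n ℓ m s t hst hℓ hℓn hm (by
          refine le_trans ?_ hCn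
          have h8 : C₅ ≤ C := by linarith
          exact mul_le_mul_of_nonneg_right (mul_le_mul_of_nonneg_right h8 (by linarith))
            (Nat.cast_nonneg _)) f hf
        exact h6.trans (hrhs C₅ (by linarith))
    · rintro ⟨N, hN, hNf⟩
      rw [adv_eq N hNf]
      have h6 := h2 n ℓ m s t hst hℓ hℓn (by
        refine le_trans ?_ hCn
        have h8 : C₂ ≤ C := by linarith
        have h9 : Real.logb 2 (n : ℝ) ^ 7 ≤ Real.logb 2 (n : ℝ) ^ 9 :=
          pow_le_pow_right₀ l1 (by norm_num)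
        have h10 : (0 : ℝ) ≤ Real.logb 2 (n : ℝ) ^ 7 := pow_nonneg (by linarith) 7
        exact mul_le_mul_of_nonneg_right (mul_le_mul h8 h9 h10 (by linarith))
          (Nat.cast_nonneg _)) N hN
      exact h6.trans (hrhs C₂ (by linarith))

end MTN
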