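import Pool.Agent.Lib.MTN.Defs

/-!
# MTN.Pat (MP_e46137_lc): the patterns of the reversible pebble game

* `card_pat`: induction on `k` for all `b`; the step has at most `2 * 2 ^ k * card` elements.
* `play`: induction on `k`, for all `b`, `K`, `t0`, `t1`.
  - `k = 0`: `t = t1`, `p = {b}`.
  - first also get the time-reversed form of the induction hypothesis (`last` pebbled at `t0`, segment
    empty at `t1`) by applying it to `K' t = K (t0 + t1 - t)`.
  - step: `A = [b, b + 2^k)`, `B = [b + 2^k, b + 2^(k+1))`.  Let `s` be the largest `t` in `[t0, t1]`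
    with `K t ∩ B = ∅` (`t0` is one; `s < t1` as the last position of `B` is in `K t1`).  At
    step `s → s + 1` some `q ∈ B` appears; `q - 1 ∈ K s` and `q - 1 ∈ K (s+1)`, so `q - 1 ∉ B`, so
    `q = b + 2^k` and `b + 2^k - 1`, the last position of `A`, is in `K (s + 1)`.
    Case 1: at some `u ∈ [s + 1, t1]` `K u ∩ A = ∅`.  The reversed form for `A` on `[s + 1, u]` gives
    `t ∈ [s + 1, u]` and a pattern `p` of `A` inside `K t`; `K t` contains some `x ∈ B`; `insert x p`.
    Case 2: otherwise; the form for `B` on `[s, t1]` gives `t` and a pattern `p ⊆ K t` of `B`; `p` is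
    not empty, so `t ≠ s`, `t ≥ s + 1` and `K t` contains some `x ∈ A`; `insert x p`.
-/

namespace MTN

open Classical Finset MTQ

private theorem mem_pat_succ {k b : ℕ} {p : Finset ℕ} (h : p ∈ pat (k + 1) b) :
    (∃ p' ∈ pat k b, ∃ x, b + 2 ^ k ≤ x ∧ x < b + 2 ^ (k + 1) ∧ p = insert x p') ∨
    (∃ p' ∈ pat k (b + 2 ^ k), ∃ x, b ≤ x ∧ x < b + 2 ^ k ∧ p = insert x p') := by
  rw [pat, mem_union, mem_image, mem_image] at h
  rcases h with ⟨⟨p', x⟩, h1, h2⟩ | ⟨⟨p', x⟩, h1, h2⟩
  · rw [mem_product, mem_Ico] at h1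
    exact Or.inl ⟨p', h1.1, x, h1.2.1, h1.2.2, h2.symm⟩
  · rw [mem_product, mem_Ico] at h1
    exact Or.inr ⟨p', h1.1, x, h1.2.1, h1.2.2, h2.symm⟩

private theorem pat_left {k b x : ℕ} {p : Finset ℕ} (h : p ∈ pat k b) (h1 : b + 2 ^ k ≤ x)
    (h2 : x < b + 2 ^ (k + 1)) : insert x p ∈ pat (k + 1) b := by
  rw [pat, mem_union, mem_image, mem_image]
  exact Or.inl ⟨(p, x), mem_product.2 ⟨h, mem_Ico.2 ⟨h1, h2⟩⟩, rfl⟩

private theorem pat_right {k b x : ℕ} {p : Finset ℕ} (h : p ∈ pat k (b + 2 ^ k)) (h1 : b ≤ x)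
    (h2 : x < b + 2 ^ k) : insert x p ∈ pat (k + 1) b := by
  rw [pat, mem_union, mem_image, mem_image]
  exact Or.inr ⟨(p, x), mem_product.2 ⟨h, mem_Ico.2 ⟨h1, h2⟩⟩, rfl⟩

theorem card_pat (k b : ℕ) : (pat k b).card ≤ 2 ^ (k * (k + 1) / 2) := by
  induction k generalizing b with
  | zero => simp [pat]
  | succ k ih =>
    have e0 : (Finset.Ico (b + 2 ^ k) (b + 2 ^ (k + 1))).card = 2 ^ k := by
      rw [Nat.card_Ico, pow_succ]; omega
    have e1 : (Finset.Ico b (b + 2 ^ k)).card = 2 ^ k := by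
      rw [Nat.card_Ico]; omega
    have h1 : (pat (k + 1) b).card ≤ (pat k b).card * 2 ^ k + (pat k (b + 2 ^ k)).card * 2 ^ k := by
      rw [pat]
      refine (card_union_le _ _).trans (Nat.add_le_add ?_ ?_)
      · refine card_image_le.trans ?_
        rw [card_product, e0]
      · refine card_image_le.trans ?_
        rw [card_product, e1]
    have e2 : (k + 1) * (k + 1 + 1) / 2 = k * (k + 1) / 2 + (k + 1) := by
      have : (k + 1) * (k + 1 + 1) = k * (k + 1) + (k + 1) * 2 := by ring
      rw [this, Nat.add_mul_div_right _ _ (by norm_num)]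
    rw [e2, pow_add]
    calc (pat (k + 1) b).card ≤ (pat k b).card * 2 ^ k + (pat k (b + 2 ^ k)).card * 2 ^ k := h1
      _ ≤ 2 ^ (k * (k + 1) / 2) * 2 ^ k + 2 ^ (k * (k + 1) / 2) * 2 ^ k :=
          Nat.add_le_add (Nat.mul_le_mul_right _ (ih _)) (Nat.mul_le_mul_right _ (ih _))
      _ = 2 ^ (k * (k + 1) / 2) * 2 ^ (k + 1) := by rw [pow_succ]; ring

theorem pat_sub {k b : ℕ} {p : Finset ℕ} (h : p ∈ pat k b) : ∀ x ∈ p, b ≤ x ∧ x < b + 2 ^ k := by
  induction k generalizing b p with
  | zero =>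
    intro x hx
    rw [pat, mem_singleton] at h
    rw [h, mem_singleton] at hx
    rw [hx]
    simp
  | succ k ih =>
    intro y hy
    have hp : 2 ^ (k + 1) = 2 ^ k + 2 ^ k := by rw [pow_succ]; ring
    rcases mem_pat_succ h with ⟨p', h1, x, h2, h3, h4⟩ | ⟨p', h1, x, h2, h3, h4⟩
    · rw [h4, mem_insert] at hy
      rcases hy with rfl | hy
      · constructor <;> omega
      · have := ih h1 y hy
        constructor <;> omega
    · rw [h4, mem_insert] at hy
      rcases hy with rfl | hy
      · constructor <;> omega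
      · have := ih h1 y hy
        constructor <;> omega

theorem pat_card {k b : ℕ} {p : Finset ℕ} (h : p ∈ pat k b) : p.card = k + 1 := by
  induction k generalizing b p with
  | zero =>
    rw [pat, mem_singleton] at h
    rw [h, card_singleton]
  | succ k ih =>
    rcases mem_pat_succ h with ⟨p', h1, x, h2, h3, h4⟩ | ⟨p', h1, x, h2, h3, h4⟩
    · have hx : x ∉ p' := fun hx => by
        have := pat_sub h1 x hx
        omega
      rw [h4, card_insert_of_notMem hx, ih h1]
    · have hx : x ∉ p' := fun hx => by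
        have := pat_sub h1 x hx
        omega
      rw [h4, card_insert_of_notMem hx, ih h1]

/-- A play which starts with no pebble on the segment `[b, b + 2^k)` and ends with a pebble on its
last position contains a pattern at some time.  (A position of the segment may change only if it is
the first one or if the position before it has a pebble before and after the step.) -/
theorem play (k b : ℕ) (K : ℕ → Finset ℕ) (t0 t1 : ℕ) (h01 : t0 ≤ t1)
    (hleg : ∀ t, t0 ≤ t → t < t1 → ∀ q, b ≤ q → q < b + 2 ^ k → ¬ (q ∈ K t ↔ q ∈ K (t + 1)) →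
      q = b ∨ (q - 1 ∈ K t ∧ q - 1 ∈ K (t + 1)))
    (h0 : ∀ q, b ≤ q → q < b + 2 ^ k → q ∉ K t0) (h1 : b + 2 ^ k - 1 ∈ K t1) :
    ∃ t, t0 ≤ t ∧ t ≤ t1 ∧ ∃ p ∈ pat k b, p ⊆ K t := by
  induction k generalizing b K t0 t1 with
  | zero =>
    refine ⟨t1, h01, le_rfl, {b}, ?_, ?_⟩
    · rw [pat, mem_singleton]
    · rw [singleton_subset_iff]
      simpa using h1
  | succ k ih =>
    have hp : 2 ^ (k + 1) = 2 ^ k + 2 ^ k := by rw [pow_succ]; ring
    have hpos : 0 < 2 ^ k := by positivity
    -- the time-reversed form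
    have rev : ∀ (b : ℕ) (K : ℕ → Finset ℕ) (t0 t1 : ℕ), t0 ≤ t1 →
        (∀ t, t0 ≤ t → t < t1 → ∀ q, b ≤ q → q < b + 2 ^ k → ¬ (q ∈ K t ↔ q ∈ K (t + 1)) →
          q = b ∨ (q - 1 ∈ K t ∧ q - 1 ∈ K (t + 1))) →
        (∀ q, b ≤ q → q < b + 2 ^ k → q ∉ K t1) → b + 2 ^ k - 1 ∈ K t0 →
        ∃ t, t0 ≤ t ∧ t ≤ t1 ∧ ∃ p ∈ pat k b, p ⊆ K t := by
      intro b K t0 t1 h01 hleg h0 h1
      obtain ⟨t, ht0, ht1, p, hp, hpK⟩ := ih b (fun t => K (t0 + t1 - t)) t0 t1 h01
        (fun t ht ht' q hq hq' hne => by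
          have e : t0 + t1 - t = (t0 + t1 - (t + 1)) + 1 := by omega
          rw [e] at hne ⊢
          have := hleg (t0 + t1 - (t + 1)) (by omega) (by omega) q hq hq'
            (fun h => hne h.symm)
          rcases this with h | h
          · exact Or.inl h
          · exact Or.inr ⟨h.2, h.1⟩)
        (fun q hq hq' => by
          have e : t0 + t1 - t0 = t1 := by omega
          simp only [e]
          exact h0 q hq hq')
        (by
          have e : t0 + t1 - t1 = t0 := by omega
          simp only [e]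
          exact h1)
      exact ⟨t0 + t1 - t, by omega, by omega, p, hp, hpK⟩
    -- the last time at which the right half is empty
    obtain ⟨s, hs, hmax⟩ := Finset.exists_max_image
      ((Finset.Icc t0 t1).filter (fun t => ∀ q, b + 2 ^ k ≤ q → q < b + 2 ^ (k + 1) → q ∉ K t)) id
      ⟨t0, mem_filter.2 ⟨mem_Icc.2 ⟨le_rfl, h01⟩, fun q hq hq' => h0 q (by omega) hq'⟩⟩
    rw [mem_filter, mem_Icc] at hs
    obtain ⟨⟨hs0, hs1⟩, hse⟩ := hs
    have hst : s < t1 := by
      rcases hs1.eq_or_lt with h | h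
      · exfalso
        rw [h] at hse
        exact hse _ (by omega) (by omega) h1
      · exact h
    have hne : ∀ t, s < t → t ≤ t1 → ∃ x, b + 2 ^ k ≤ x ∧ x < b + 2 ^ (k + 1) ∧ x ∈ K t := by
      intro t ht ht1
      by_contra hcon
      push Not at hcon
      have := hmax t (mem_filter.2 ⟨mem_Icc.2 ⟨by omega, ht1⟩, hcon⟩)
      simp only [id] at this
      omega
    have hlast : b + 2 ^ k - 1 ∈ K (s + 1) := by
      obtain ⟨q, hq, hq', hqK⟩ := hne (s + 1) (by omega) (by omega)
      have hqs := hse q hq hq'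
      rcases hleg s hs0 hst q (by omega) hq' (fun h => hqs (h.2 hqK)) with h | h
      · omega
      · have : q = b + 2 ^ k := by
          by_contra hcon
          exact hse (q - 1) (by omega) (by omega) h.1
        rw [this] at h
        exact h.2
    by_cases hu : ∃ u, s + 1 ≤ u ∧ u ≤ t1 ∧ ∀ q, b ≤ q → q < b + 2 ^ k → q ∉ K u
    · obtain ⟨u, hu1, hu2, hu3⟩ := hu
      obtain ⟨t, ht0, ht1, p, hpp, hpK⟩ := rev b K (s + 1) u hu1
        (fun t ht ht' q hq hq' hne' => hleg t (by omega) (by omega) q hq (by omega) hne') hu3 hlast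
      obtain ⟨x, hx, hx', hxK⟩ := hne t (by omega) (by omega)
      exact ⟨t, by omega, by omega, insert x p, pat_left hpp hx hx', insert_subset hxK hpK⟩
    · push Not at hu
      obtain ⟨t, ht0, ht1, p, hpp, hpK⟩ := ih (b + 2 ^ k) K s t1 hst.le
        (fun t ht ht' q hq hq' hne' => by
          rcases hleg t (by omega) ht' q (by omega) (by omega) hne' with h | h
          · omega
          · exact Or.inr h)
        (fun q hq hq' => hse q hq (by omega))
        (by
          have e : b + 2 ^ k + 2 ^ k - 1 = b + 2 ^ (k + 1) - 1 := by omega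
          rw [e]; exact h1)
      have hts : t ≠ s := by
        rintro rfl
        have hc := pat_card hpp
        obtain ⟨y, hy⟩ : p.Nonempty := by
          rw [← card_pos]; omega
        have := pat_sub hpp y hy
        exact hse y this.1 (by omega) (hpK hy)
      obtain ⟨x, hx, hx', hxK⟩ := hu t (by omega) ht1
      exact ⟨t, by omega, ht1, insert x p, pat_right hpp hx hx', insert_subset hxK hpK⟩

end MTN
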