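import Pool.Agent.Lib.MTX.Model
import Pool.Agent.Lib.Pe46137X.Defs

/-!
# MTN.Prog (MP_e46137_lc): monotone formulas as straight line programs with few registers
-/

namespace MTN

open Pool.Agent.Lib.Pe46137 Pool.Agent.Lib.Pe46137X

/-- instructions: register `i` gets an input, or the conjunction or disjunction of itself and
register `j` -/
inductive Ins (n : ℕ) : Type
  | arc : ℕ → Fin n → Fin n → Ins n
  | and : ℕ → ℕ → Ins n
  | or : ℕ → ℕ → Ins n

namespace Ins

variable {n : ℕ}

/-- all registers in the instruction are smaller than `S` and not smaller than `b` -/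
def In (b S : ℕ) : Ins n → Prop
  | arc i _ _ => b ≤ i ∧ i < S
  | and i j => b ≤ i ∧ i < S ∧ b ≤ j ∧ j < S
  | or i j => b ≤ i ∧ i < S ∧ b ≤ j ∧ j < S

/-- one step -/
def ex (G : Fin n → Fin n → Bool) : Ins n → (ℕ → Bool) → (ℕ → Bool)
  | arc i u v, σ => Function.update σ i (G u v)
  | and i j, σ => Function.update σ i (σ i && σ j)
  | or i j, σ => Function.update σ i (σ i || σ j)

/-- a program -/
def exs (G : Fin n → Fin n → Bool) : List (Ins n) → (ℕ → Bool) → (ℕ → Bool)
  | [], σ => σ
  | I :: L, σ => exs G L (ex G I σ)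

theorem exs_append (G : Fin n → Fin n → Bool) (L L' : List (Ins n)) (σ : ℕ → Bool) :
    exs G (L ++ L') σ = exs G L' (exs G L σ) := by
  induction L generalizing σ with
  | nil => rfl
  | cons I L ih => exact ih _

theorem ex_below {G : Fin n → Fin n → Bool} {b S : ℕ} {I : Ins n} (h : I.In b S) (σ : ℕ → Bool)
    {i : ℕ} (hi : i < b) : ex G I σ i = σ i := by
  cases I with
  | arc j u v =>
    have h' : b ≤ j ∧ j < S := h
    exact Function.update_of_ne (by omega) _ _
  | and j l =>
    have h' : b ≤ j ∧ j < S ∧ b ≤ l ∧ l < S := h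
    exact Function.update_of_ne (by omega) _ _
  | or j l =>
    have h' : b ≤ j ∧ j < S ∧ b ≤ l ∧ l < S := h
    exact Function.update_of_ne (by omega) _ _

theorem exs_below {G : Fin n → Fin n → Bool} {b S : ℕ} {L : List (Ins n)}
    (h : ∀ I ∈ L, I.In b S) (σ : ℕ → Bool) {i : ℕ} (hi : i < b) : exs G L σ i = σ i := by
  induction L generalizing σ with
  | nil => rfl
  | cons I L ih =>
    show exs G L (ex G I σ) i = σ i
    rw [ih (fun I' hI' => h I' (List.mem_cons_of_mem _ hI')),
      ex_below (h I List.mem_cons_self) σ hi]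

theorem In.mono {b b' S S' : ℕ} {I : Ins n} (h : I.In b S) (hb : b' ≤ b) (hS : S ≤ S') :
    I.In b' S' := by
  cases I with
  | arc i u v =>
    have h' : b ≤ i ∧ i < S := h
    exact ⟨by omega, by omega⟩
  | and i j =>
    have h' : b ≤ i ∧ i < S ∧ b ≤ j ∧ j < S := h
    exact ⟨by omega, by omega, by omega, by omega⟩
  | or i j =>
    have h' : b ≤ i ∧ i < S ∧ b ≤ j ∧ j < S := h
    exact ⟨by omega, by omega, by omega, by omega⟩

end Ins

/-- the digraph of a matrix -/
def setOf' {n : ℕ} (G : Fin n → Fin n → Bool) : Set (Fin n × Fin n) := {e | G e.1 e.2 = true}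

/-- the program `L` computes the formula `F` in register `b` -/
def Comp {n : ℕ} (F : Formula (Fin n)) (b : ℕ) (L : List (Ins n)) : Prop :=
  L.length + 1 ≤ 2 * F.leaves ∧ (∀ I ∈ L, I.In b (b + Nat.log 2 F.leaves + 1)) ∧
    ∀ G σ, Ins.exs G L σ b = true ↔ F.Eval (setOf' G)

namespace ProgAux

variable {n : ℕ}

theorem log_add {s s' : ℕ} (h : 1 ≤ s') (hs : s' ≤ s) :
    Nat.log 2 s' + 1 ≤ Nat.log 2 (s + s') := by
  have h1 : Nat.log 2 (s' * 2) = Nat.log 2 s' + 1 := Nat.log_mul_base (by norm_num) (by omega)
  rw [← h1]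
  exact Nat.log_mono_right (by omega)

/-- two programs one after the other -/
theorem two {F F' : Formula (Fin n)} {b : ℕ} {L L' : List (Ins n)} (h : Comp F b L)
    (h' : Comp F' (b + 1) L') (h1 : 1 ≤ F'.leaves) (hle : F'.leaves ≤ F.leaves) :
    (L ++ L').length + 2 ≤ 2 * (F.leaves + F'.leaves) ∧
    (∀ I ∈ L ++ L', I.In b (b + Nat.log 2 (F.leaves + F'.leaves) + 1)) ∧
    (∀ G σ, Ins.exs G (L ++ L') σ b = true ↔ F.Eval (setOf' G)) ∧
    (∀ G σ, Ins.exs G (L ++ L') σ (b + 1) = true ↔ F'.Eval (setOf' G)) := by
  obtain ⟨a1, a2, a3⟩ := h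
  obtain ⟨b1, b2, b3⟩ := h'
  have hlog := log_add h1 hle
  have hlog2 : Nat.log 2 F.leaves ≤ Nat.log 2 (F.leaves + F'.leaves) :=
    Nat.log_mono_right (by omega)
  refine ⟨?_, ?_, ?_, ?_⟩
  · rw [List.length_append]
    omega
  · intro I hI
    rcases List.mem_append.1 hI with hI | hI
    · exact (a2 I hI).mono le_rfl (by omega)
    · exact (b2 I hI).mono (by omega) (by omega)
  · intro G σ
    rw [Ins.exs_append, Ins.exs_below b2 _ (Nat.lt_succ_self b)]
    exact a3 G σ
  · intro G σ
    rw [Ins.exs_append]
    exact b3 G _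

theorem and_comp {F F' H : Formula (Fin n)} {b : ℕ} {L L' : List (Ins n)} (h : Comp F b L)
    (h' : Comp F' (b + 1) L') (h1 : 1 ≤ F'.leaves) (hle : F'.leaves ≤ F.leaves)
    (hH : H.leaves = F.leaves + F'.leaves) (hE : ∀ G, H.Eval G ↔ F.Eval G ∧ F'.Eval G) :
    Comp H b (L ++ L' ++ [Ins.and b (b + 1)]) := by
  obtain ⟨a1, a2, a3, a4⟩ := two h h' h1 hle
  have hlog := log_add h1 hle
  refine ⟨?_, ?_, ?_⟩
  · rw [List.length_append, hH]
    show (L ++ L').length + 1 + 1 ≤ _
    omega
  · intro I hI
    rw [hH]
    rcases List.mem_append.1 hI with hI | hI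
    · exact a2 I hI
    · rw [List.mem_singleton.1 hI]
      exact ⟨le_rfl, by omega, by omega, by omega⟩
  · intro G σ
    rw [Ins.exs_append, hE, ← a3 G σ, ← a4 G σ]
    show Function.update (Ins.exs G (L ++ L') σ) b
      (Ins.exs G (L ++ L') σ b && Ins.exs G (L ++ L') σ (b + 1)) b = true ↔ _
    rw [Function.update_self, Bool.and_eq_true]

theorem or_comp {F F' H : Formula (Fin n)} {b : ℕ} {L L' : List (Ins n)} (h : Comp F b L)
    (h' : Comp F' (b + 1) L') (h1 : 1 ≤ F'.leaves) (hle : F'.leaves ≤ F.leaves)
    (hH : H.leaves = F.leaves + F'.leaves) (hE : ∀ G, H.Eval G ↔ F.Eval G ∨ F'.Eval G) :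
    Comp H b (L ++ L' ++ [Ins.or b (b + 1)]) := by
  obtain ⟨a1, a2, a3, a4⟩ := two h h' h1 hle
  have hlog := log_add h1 hle
  refine ⟨?_, ?_, ?_⟩
  · rw [List.length_append, hH]
    show (L ++ L').length + 1 + 1 ≤ _
    omega
  · intro I hI
    rw [hH]
    rcases List.mem_append.1 hI with hI | hI
    · exact a2 I hI
    · rw [List.mem_singleton.1 hI]
      exact ⟨le_rfl, by omega, by omega, by omega⟩
  · intro G σ
    rw [Ins.exs_append, hE, ← a3 G σ, ← a4 G σ]
    show Function.update (Ins.exs G (L ++ L') σ) b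
      (Ins.exs G (L ++ L') σ b || Ins.exs G (L ++ L') σ (b + 1)) b = true ↔ _
    rw [Function.update_self, Bool.or_eq_true]

theorem comp_congr {F H : Formula (Fin n)} {b : ℕ} {L : List (Ins n)} (h : Comp F b L)
    (hl : F.leaves ≤ H.leaves) (hE : ∀ G, H.Eval G ↔ F.Eval G) : Comp H b L := by
  obtain ⟨a1, a2, a3⟩ := h
  have hlog : Nat.log 2 F.leaves ≤ Nat.log 2 H.leaves := Nat.log_mono_right hl
  exact ⟨by omega, fun I hI => (a2 I hI).mono le_rfl (by omega), fun G σ => (a3 G σ).trans (hE _).symm⟩

end ProgAux

open ProgAux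

theorem exists_prog {n : ℕ} (F : Formula (Fin n)) : (∀ G, F.Eval G) ∨ (∀ G, ¬ F.Eval G) ∨
    1 ≤ F.leaves ∧ ∀ b, ∃ L, Comp F b L := by
  induction F with
  | const b =>
    cases b with
    | true => exact Or.inl fun G => rfl
    | false => exact Or.inr (Or.inl fun G h => absurd h (by simp [Formula.Eval]))
  | arc u v =>
    refine Or.inr (Or.inr ⟨le_rfl, fun b => ⟨[Ins.arc b u v], le_rfl, ?_, ?_⟩⟩)
    · intro I hI
      rw [List.mem_singleton.1 hI]
      exact ⟨le_rfl, by omega⟩
    · intro G σ
      show Function.update σ b (G u v) b = true ↔ _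
      rw [Function.update_self]
      exact Iff.rfl
  | and F F' ih ih' =>
    rcases ih with h | h | ⟨hl, h⟩
    · rcases ih' with h' | h' | ⟨hl', h'⟩
      · exact Or.inl fun G => ⟨h G, h' G⟩
      · exact Or.inr (Or.inl fun G hG => h' G hG.2)
      · refine Or.inr (Or.inr ⟨?_, fun b => ?_⟩)
        · simp only [Formula.leaves]; omega
        · obtain ⟨L, hL⟩ := h' b
          exact ⟨L, comp_congr hL (by simp only [Formula.leaves]; omega)
            fun G => ⟨fun hG => hG.2, fun hG => ⟨h G, hG⟩⟩⟩
    · exact Or.inr (Or.inl fun G hG => h G hG.1)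
    · rcases ih' with h' | h' | ⟨hl', h'⟩
      · refine Or.inr (Or.inr ⟨?_, fun b => ?_⟩)
        · simp only [Formula.leaves]; omega
        · obtain ⟨L, hL⟩ := h b
          exact ⟨L, comp_congr hL (by simp only [Formula.leaves]; omega)
            fun G => ⟨fun hG => hG.1, fun hG => ⟨hG, h' G⟩⟩⟩
      · exact Or.inr (Or.inl fun G hG => h' G hG.2)
      · refine Or.inr (Or.inr ⟨?_, fun b => ?_⟩)
        · simp only [Formula.leaves]; omega
        · rcases le_total F'.leaves F.leaves with hle | hle
          · obtain ⟨L, hL⟩ := h b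
            obtain ⟨L', hL'⟩ := h' (b + 1)
            exact ⟨_, and_comp hL hL' hl' hle rfl fun G => Iff.rfl⟩
          · obtain ⟨L, hL⟩ := h' b
            obtain ⟨L', hL'⟩ := h (b + 1)
            exact ⟨_, and_comp hL hL' hl hle (by simp only [Formula.leaves]; omega)
              fun G => and_comm⟩
  | or F F' ih ih' =>
    rcases ih with h | h | ⟨hl, h⟩
    · exact Or.inl fun G => Or.inl (h G)
    · rcases ih' with h' | h' | ⟨hl', h'⟩
      · exact Or.inl fun G => Or.inr (h' G)
      · exact Or.inr (Or.inl fun G hG => hG.elim (h G) (h' G))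
      · refine Or.inr (Or.inr ⟨?_, fun b => ?_⟩)
        · simp only [Formula.leaves]; omega
        · obtain ⟨L, hL⟩ := h' b
          exact ⟨L, comp_congr hL (by simp only [Formula.leaves]; omega)
            fun G => ⟨fun hG => hG.resolve_left (h G), fun hG => Or.inr hG⟩⟩
    · rcases ih' with h' | h' | ⟨hl', h'⟩
      · exact Or.inl fun G => Or.inr (h' G)
      · refine Or.inr (Or.inr ⟨?_, fun b => ?_⟩)
        · simp only [Formula.leaves]; omega
        · obtain ⟨L, hL⟩ := h b
          exact ⟨L, comp_congr hL (by simp only [Formula.leaves]; omega)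
            fun G => ⟨fun hG => hG.resolve_right (h' G), fun hG => Or.inl hG⟩⟩
      · refine Or.inr (Or.inr ⟨?_, fun b => ?_⟩)
        · simp only [Formula.leaves]; omega
        · rcases le_total F'.leaves F.leaves with hle | hle
          · obtain ⟨L, hL⟩ := h b
            obtain ⟨L', hL'⟩ := h' (b + 1)
            exact ⟨_, or_comp hL hL' hl' hle rfl fun G => Iff.rfl⟩
          · obtain ⟨L, hL⟩ := h' b
            obtain ⟨L', hL'⟩ := h (b + 1)
            exact ⟨_, or_comp hL hL' hl hle (by simp only [Formula.leaves]; omega)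
              fun G => or_comm⟩

/-- registers as memory -/
def toNat {S : ℕ} (σ : Fin S → Bool) : ℕ → Bool := fun i => if h : i < S then σ ⟨i, h⟩ else false

/-- the machine that runs a program -/
def progMach {n S : ℕ} (v₀ : Fin n) (L : List (Ins n)) (σ₀ : Fin S → Bool) : SharpTS.Mach n S where
  init := σ₀
  v := fun t _ => match L[t]? with
    | some (Ins.arc _ u _) => u
    | _ => v₀
  next := fun t σ G => match L[t]? with
    | some I => fun i => Ins.ex G I (toNat σ) i
    | none => σ
  mono := by
    intro t σ σ' G G' hσ hG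
    have hnat : ∀ i, toNat σ i ≤ toNat σ' i := by
      intro i
      unfold toNat
      by_cases h : i < S
      · rw [dif_pos h, dif_pos h]
        exact hσ _
      · rw [dif_neg h, dif_neg h]
    rcases hL : L[t]? with _ | I
    · simp only [hL]
      exact hσ
    · simp only [hL]
      intro i
      cases I with
      | arc j u v =>
        simp only [hL] at hG
        show Function.update (toNat σ) j (G u v) i ≤ Function.update (toNat σ') j (G' u v) i
        by_cases hij : (i : ℕ) = j
        · rw [hij, Function.update_self, Function.update_self]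
          exact (hG v).1
        · rw [Function.update_of_ne hij, Function.update_of_ne hij]
          exact hnat i
      | and j l =>
        show Function.update (toNat σ) j (toNat σ j && toNat σ l) i ≤
          Function.update (toNat σ') j (toNat σ' j && toNat σ' l) i
        by_cases hij : (i : ℕ) = j
        · rw [hij, Function.update_self, Function.update_self]
          have h1 := hnat j
          have h2 := hnat l
          revert h1 h2
          cases toNat σ j <;> cases toNat σ l <;> cases toNat σ' j <;> cases toNat σ' l <;> simp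
        · rw [Function.update_of_ne hij, Function.update_of_ne hij]
          exact hnat i
      | or j l =>
        show Function.update (toNat σ) j (toNat σ j || toNat σ l) i ≤
          Function.update (toNat σ') j (toNat σ' j || toNat σ' l) i
        by_cases hij : (i : ℕ) = j
        · rw [hij, Function.update_self, Function.update_self]
          have h1 := hnat j
          have h2 := hnat l
          revert h1 h2
          cases toNat σ j <;> cases toNat σ l <;> cases toNat σ' j <;> cases toNat σ' l <;> simp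
        · rw [Function.update_of_ne hij, Function.update_of_ne hij]
          exact hnat i

theorem ex_congr {n b S : ℕ} {G : Fin n → Fin n → Bool} {I : Ins n} (h : I.In b S)
    {σ τ : ℕ → Bool} (hστ : ∀ i < S, σ i = τ i) : ∀ i < S, Ins.ex G I σ i = Ins.ex G I τ i := by
  intro i hi
  cases I with
  | arc j u v =>
    show Function.update σ j (G u v) i = Function.update τ j (G u v) i
    by_cases hij : i = j
    · rw [hij, Function.update_self, Function.update_self]
    · rw [Function.update_of_ne hij, Function.update_of_ne hij, hστ i hi]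
  | and j l =>
    have h' : b ≤ j ∧ j < S ∧ b ≤ l ∧ l < S := h
    show Function.update σ j (σ j && σ l) i = Function.update τ j (τ j && τ l) i
    rw [hστ j h'.2.1, hστ l h'.2.2.2]
    by_cases hij : i = j
    · rw [hij, Function.update_self, Function.update_self]
    · rw [Function.update_of_ne hij, Function.update_of_ne hij, hστ i hi]
  | or j l =>
    have h' : b ≤ j ∧ j < S ∧ b ≤ l ∧ l < S := h
    show Function.update σ j (σ j || σ l) i = Function.update τ j (τ j || τ l) i
    rw [hστ j h'.2.1, hστ l h'.2.2.2]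
    by_cases hij : i = j
    · rw [hij, Function.update_self, Function.update_self]
    · rw [Function.update_of_ne hij, Function.update_of_ne hij, hστ i hi]

theorem exs_congr {n b S : ℕ} {G : Fin n → Fin n → Bool} {L : List (Ins n)}
    (h : ∀ I ∈ L, I.In b S) {σ τ : ℕ → Bool} (hστ : ∀ i < S, σ i = τ i) :
    ∀ i < S, Ins.exs G L σ i = Ins.exs G L τ i := by
  induction L generalizing σ τ with
  | nil => exact hστ
  | cons I L ih =>
    exact ih (fun I' hI' => h I' (List.mem_cons_of_mem _ hI'))
      (ex_congr (h I List.mem_cons_self) hστ)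

theorem prog_run {n S : ℕ} (v₀ : Fin n) (L : List (Ins n)) (hL : ∀ I ∈ L, I.In 0 S)
    (σ₀ : Fin S → Bool) (G : Fin n → Fin n → Bool) (t : ℕ) :
    ∀ i : Fin S, (progMach v₀ L σ₀).run G t i = Ins.exs G (L.take t) (toNat σ₀) i := by
  induction t with
  | zero =>
    intro i
    show σ₀ i = toNat σ₀ i
    unfold toNat
    rw [dif_pos i.2]
  | succ t ih =>
    intro i
    show (progMach v₀ L σ₀).next t ((progMach v₀ L σ₀).run G t) G i = _
    rcases hLt : L[t]? with _ | I
    · have hlen : L.length ≤ t := List.getElem?_eq_none_iff.1 hLt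
      have h1 : (progMach v₀ L σ₀).next t ((progMach v₀ L σ₀).run G t) G =
          (progMach v₀ L σ₀).run G t := by
        show (match L[t]? with
          | some I => fun i : Fin S => Ins.ex G I (toNat ((progMach v₀ L σ₀).run G t)) i
          | none => (progMach v₀ L σ₀).run G t) = _
        rw [hLt]
      rw [h1, ih i, List.take_of_length_le hlen, List.take_of_length_le (by omega)]
    · have h1 : (progMach v₀ L σ₀).next t ((progMach v₀ L σ₀).run G t) G i =
          Ins.ex G I (toNat ((progMach v₀ L σ₀).run G t)) i := by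
        show (match L[t]? with
          | some I => fun i : Fin S => Ins.ex G I (toNat ((progMach v₀ L σ₀).run G t)) i
          | none => (progMach v₀ L σ₀).run G t) i = _
        rw [hLt]
      have hI : I ∈ L := List.mem_of_getElem? hLt
      have h2 : L.take (t + 1) = L.take t ++ [I] := by
        rw [List.take_add_one, hLt]
        rfl
      rw [h1, h2, Ins.exs_append]
      show _ = Ins.ex G I (Ins.exs G (L.take t) (toNat σ₀)) i
      refine ex_congr (hL I hI) (fun j hj => ?_) i i.2
      unfold toNat
      rw [dif_pos hj]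
      exact ih ⟨j, hj⟩

/-- a formula with at most `m` leaves is evaluated by a machine with `log m + 1` bits in `2 m`
steps -/
theorem form_mach {n m : ℕ} (v₀ : Fin n) (F : Formula (Fin n)) (hF : F.leaves ≤ m) :
    ∃ (M : SharpTS.Mach n (Nat.log 2 m + 1)) (out : Fin (Nat.log 2 m + 1)),
      ∀ G, M.run G (2 * m) out = true ↔ F.Eval (setOf' G) := by
  have hconst : ∀ c : Bool, (∀ G, F.Eval G ↔ c = true) →
      ∃ (M : SharpTS.Mach n (Nat.log 2 m + 1)) (out : Fin (Nat.log 2 m + 1)),
        ∀ G, M.run G (2 * m) out = true ↔ F.Eval (setOf' G) := by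
    intro c hc
    refine ⟨progMach v₀ [] (fun _ => c), ⟨0, by omega⟩, fun G => ?_⟩
    rw [prog_run v₀ [] (fun I hI => absurd hI List.not_mem_nil) _ G, List.take_nil, hc]
    show toNat (fun _ => c) 0 = true ↔ c = true
    unfold toNat
    rw [dif_pos (by omega)]
  rcases exists_prog F with h | h | ⟨hl, h⟩
  · exact hconst true fun G => ⟨fun _ => rfl, fun _ => h G⟩
  · exact hconst false fun G => ⟨fun hG => absurd hG (h G), fun hG => absurd hG (by simp)⟩
  · obtain ⟨L, a1, a2, a3⟩ := h 0
    have hlog : Nat.log 2 F.leaves ≤ Nat.log 2 m := Nat.log_mono_right hF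
    have hIn : ∀ I ∈ L, I.In 0 (Nat.log 2 m + 1) := fun I hI =>
      (a2 I hI).mono le_rfl (by omega)
    refine ⟨progMach v₀ L (fun _ => false), ⟨0, by omega⟩, fun G => ?_⟩
    rw [prog_run v₀ L hIn _ G, List.take_of_length_le (by omega)]
    exact a3 G _

end MTN
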