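import Pool.Agent.Lib.MTN.Defs

/-!
# MTN.Tool (MP_e46137_lc): elementary facts on coloured paths

* `col_apply`: as `P` is injective the only `i` with `P i = P j` is `j`.
* `paths_thru`: paths through all the coloured vertices of `A`: the private lemma `paths_le` of
  `MTC/Bad.lean` (namespace `Bad1Aux`) has the same proof (`MTC.pos_sum`, `MTC.cnt_union`; with
  `MTC.ext ∅ Y = inj r N`).
* `exists_min_sub`: take `W ⊆ U` in `F` of least size; `MTQ.eq_of_sub_size`, `MTQ.none_join`.
-/

namespace MTN

open Classical Finset MTQ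

variable {r N : ℕ}

theorem col_apply {P : Fin r → Fin N} (hP : Function.Injective P) (c : Fin r → Bool) (j : Fin r) :
    col P c (P j) = some (c j) := by
  unfold col
  cases hc : c j with
  | true => rw [if_pos ⟨j, rfl, hc⟩]
  | false =>
    rw [if_neg, if_pos ⟨j, rfl⟩]
    rintro ⟨i, hi, hci⟩
    rw [hP hi, hc] at hci
    exact absurd hci (by simp)

theorem col_none {P : Fin r → Fin N} {c : Fin r → Bool} {v : Fin N} (h : ∀ j, P j ≠ v) :
    col P c v = none := by
  unfold col
  rw [if_neg, if_neg]
  · rintro ⟨j, hj⟩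
    exact h j hj
  · rintro ⟨j, hj, -⟩
    exact h j hj

theorem exists_pos {P : Fin r → Fin N} {c : Fin r → Bool} {U : PC (Fin N)}
    (hU : Sub U (col P c)) {v : Fin N} (hv : U v ≠ none) : ∃ j, P j = v := by
  by_contra hne
  push Not at hne
  obtain ⟨b, hb⟩ := Option.ne_none_iff_exists'.1 hv
  have h1 := hU v b hb
  rw [col_none hne] at h1
  exact absurd h1 (by simp)

/-- a part of a coloured path that misses the vertex at `j` does not depend on the colour of `j` -/
theorem sub_update {P : Fin r → Fin N} (hP : Function.Injective P) {c : Fin r → Bool}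
    {U : PC (Fin N)} (hU : Sub U (col P c)) {j : Fin r} (hj : U (P j) = none) (b : Bool) :
    Sub U (col P (Function.update c j b)) := by
  intro v x hv
  obtain ⟨i, rfl⟩ := exists_pos hU (by rw [hv]; simp : U v ≠ none)
  have hij : i ≠ j := by
    rintro rfl
    rw [hj] at hv
    exact absurd hv (by simp)
  rw [col_apply hP, Function.update_of_ne hij, ← col_apply hP c i]
  exact hU _ _ hv

theorem exists_min_sub {F : Finset (PC (Fin N))} {U : PC (Fin N)} (hU : U ∈ F) :
    ∃ W ∈ F, Sub W U ∧ MinExt F (fun _ => none) W := by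
  have hne : (F.filter (fun W => Sub W U)).Nonempty := ⟨U, mem_filter.2 ⟨hU, Sub.refl U⟩⟩
  obtain ⟨W, hW, hmin⟩ := exists_min_image (F.filter (fun W => Sub W U)) size hne
  rw [mem_filter] at hW
  refine ⟨W, hW.1, hW.2, fun v h => absurd rfl h, by rw [none_join]; exact hW.1, ?_⟩
  intro A' hA' hF
  rw [none_join] at hF
  exact eq_of_sub_size hA' (hmin A' (mem_filter.2 ⟨hF, hA'.trans hW.2⟩))

theorem paths_thru (hr : 1 ≤ r) (hNr : 0 < N - r) (A : PC (Fin N)) :
    (((inj r N).filter (fun P => ∀ v, A v ≠ none → ∃ j, P j = v)).card : ℝ) ≤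
      (inj r N).card * ((r : ℝ) / ((N - r : ℕ) : ℝ)) ^ (size A) := by
  have hNr' : (0 : ℝ) < ((N - r : ℕ) : ℝ) := by exact_mod_cast hNr
  set sp : Finset (Fin N) := univ.filter (fun v => A v ≠ none) with hsp
  have hmem : ∀ v, v ∈ sp ↔ A v ≠ none := by
    intro v
    rw [hsp, mem_filter]
    exact ⟨fun h => h.2, fun h => ⟨mem_univ _, h⟩⟩
  have h := MTC.pos_sum hr ((inj r N).filter (fun P => ∀ v, A v ≠ none → ∃ j, P j = v)) sp
      (fun _ => ((N - r : ℕ) : ℝ)⁻¹) (inj r N).card
      (fun _ => by positivity) (Nat.cast_nonneg _)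
      (fun P hP v hv => (mem_filter.1 hP).2 v ((hmem v).1 hv)) ?_
  · rw [sum_const, card_univ, Fintype.card_fin, nsmul_eq_mul, ← div_eq_mul_inv] at h
    exact h
  · intro f hf
    rw [prod_const]
    have h1 : (∅ : Finset (Fin r)) ∪ sp.image f = sp.image f := empty_union _
    rcases sp.eq_empty_or_nonempty with he | ⟨v0, hv0⟩
    · rw [he, card_empty, pow_zero, mul_one]
      refine Nat.cast_le.2 (card_le_card ?_)
      intro P hP
      rw [mem_filter, mem_filter] at hP
      exact hP.1.1
    · set Y : Fin r → Fin N := fun j => if h : ∃ v ∈ sp, f v = j then h.choose else v0 with hY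
      have hYf : ∀ v ∈ sp, Y (f v) = v := by
        intro v hv
        have hex : ∃ v' ∈ sp, f v' = f v := ⟨v, hv, rfl⟩
        simp only [hY, dif_pos hex]
        exact hf hex.choose_spec.1 hv hex.choose_spec.2
      have h2 := MTC.cnt_union (∅ : Finset (Fin r)) (sp.image f) Y Y (disjoint_empty_left _)
        (fun j hj => absurd hj (notMem_empty j))
      rw [h1, card_image_of_injOn hf] at h2
      have h3 : MTC.ext (∅ : Finset (Fin r)) Y = inj r N := by
        unfold MTC.ext inj
        refine filter_congr fun P _ => ?_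
        simp
      rw [h3] at h2
      have h4 : (((inj r N).filter (fun P => ∀ v, A v ≠ none → ∃ j, P j = v)).filter
          (fun P => ∀ v ∈ sp, P (f v) = v)).card ≤ (MTC.ext (sp.image f) Y).card := by
        refine card_le_card ?_
        intro P hP
        rw [mem_filter, mem_filter] at hP
        unfold MTC.ext
        rw [mem_filter]
        refine ⟨mem_univ _, (mem_filter.1 hP.1.1).2, ?_⟩
        intro j hj
        obtain ⟨v, hv, rfl⟩ := mem_image.1 hj
        rw [hP.2 v hv, hYf v hv]
      have h5 : ((((inj r N).filter (fun P => ∀ v, A v ≠ none → ∃ j, P j = v)).filter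
          (fun P => ∀ v ∈ sp, P (f v) = v)).card : ℝ) *
          ((N - r : ℕ) : ℝ) ^ sp.card ≤ (inj r N).card := by
        have h6 := (Nat.mul_le_mul_right ((N - r) ^ sp.card) h4).trans h2
        exact_mod_cast h6
      rw [inv_pow, ← div_eq_mul_inv, le_div_iff₀ (by positivity)]
      exact h5

end MTN
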