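import Pool.Agent.Lib.MTN.Top
import Pool.Agent.Lib.MTN.Pat

/-!
# MTN.Walk (MP_e46137_lc): a walk of functions from `1` to `0` has a complex monomial

Let `h K := (-1) ^ |K| * tc g K (fun _ => false)`; for `K` let `Cx K` := some `p ∈ pat k 0` is a
subset of `K.map Fin.valEmbedding`.  Suppose `h_t K = 0` for all `t ≤ T` and all `K` with `Cx K`.
Call `K`, `K'` adjacent if both are not `Cx` and `K' = insert q K`, `q ∉ K`, where `q` is the position
`0` or `q - 1 ∈ K`.  Let `ψ K = 1` if `K` can be reached from `∅` by adjacent pairs in both directions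
(`Relation.EqvGen`, or ReflTransGen of the symmetrised relation), else `0`.
(a) `ψ K = 0` if the last position `r - 1` is in `K` and `K` is not `Cx`: otherwise take the sequence of
  sets from `∅` to `K`; let `t1` be the first time with an element `≥ 2^k - 1`; a new element `q ≥ 1`
  needs `q - 1` in the set before, so `2^k - 1` is in the set number `t1` (`2^k - 1 ≤ r - 1`); `play`
  with `b = 0`, `t0 = 0` (the sequence of the images in `ℕ`) gives a pattern inside some set, but all sets
  are not `Cx`.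
(b) For one step `f = g t - g (t+1)` supported on the `c` with `ex c q = true`, `ex c (q+1) = false`:
  `∑ K, ψ K * h_f K = 0`.  If `1 ≤ q` and position `q - 1 ∉ K`, then `h_f K = 0` (all terms vanish).
  If `q < r`, position `q ∉ K`, then `h_f (insert q K) = - h_f K` (`Finset.sum_powerset_insert`, the
  terms with `insert q J` vanish).  So the sum over pairs `K`, `insert q K` (`Finset` involution or
  `Finset.sum_powerset_insert`-like splitting of `univ`) is `∑ h_f K * (ψ K - ψ (insert q K))`, and if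
  `h_f K ≠ 0`, then neither set is `Cx` (`h_f = h_t - h_(t+1)`), they are adjacent, `ψ` is equal.
  If `q = r`: `h_f K ≠ 0` only if `r - 1 ∈ K` and `K` not `Cx`, and then `ψ K = 0` by (a).
  (`r ≥ 2^k ≥ 1`.)
(c) `∑ K, ψ K * h_0 K = 1` as `h_0 K = 0` for `K ≠ ∅` (`Finset.sum_powerset_neg_one_pow_card`), and
  `∑ K, ψ K * h_T K = 0`.
-/

namespace MTN

open Classical Finset MTQ

variable {r : ℕ}

namespace WalkAux

/-- the coefficient of the monomial `K` -/
noncomputable def H (g : (Fin r → Bool) → ℤ) (K : Finset (Fin r)) : ℤ :=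
  (-1) ^ K.card * tc g K (fun _ => false)

lemma ovr_ind {K J : Finset (Fin r)} (h : J ⊆ K) :
    ovr K (fun _ => false) J = fun j => decide (j ∈ J) := by
  funext j
  unfold ovr
  by_cases hj : j ∈ K
  · rw [if_pos hj]
  · rw [if_neg hj]
    symm
    rw [decide_eq_false_iff_not]
    exact fun h' => hj (h h')

lemma tc_ind (g : (Fin r → Bool) → ℤ) (K : Finset (Fin r)) :
    tc g K (fun _ => false) = ∑ J ∈ K.powerset, (-1) ^ J.card * g (fun j => decide (j ∈ J)) := by
  unfold tc
  refine Finset.sum_congr rfl fun J hJ => ?_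
  rw [ovr_ind (Finset.mem_powerset.1 hJ)]

lemma H_sub (g g' : (Fin r → Bool) → ℤ) (K : Finset (Fin r)) :
    H (fun c => g c - g' c) K = H g K - H g' K := by
  unfold H
  rw [tc_ind, tc_ind, tc_ind, ← mul_sub, ← Finset.sum_sub_distrib]
  congr 1
  refine Finset.sum_congr rfl fun J _ => ?_
  ring

lemma H_zero_of {f : (Fin r → Bool) → ℤ} {K : Finset (Fin r)}
    (h : ∀ J ⊆ K, f (fun j => decide (j ∈ J)) = 0) : H f K = 0 := by
  unfold H
  rw [tc_ind, Finset.sum_eq_zero, mul_zero]
  intro J hJ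
  rw [h J (Finset.mem_powerset.1 hJ), mul_zero]

lemma H_insert {f : (Fin r → Bool) → ℤ} {K : Finset (Fin r)} {p : Fin r} (hp : p ∉ K)
    (h : ∀ J ⊆ K, f (fun j => decide (j ∈ insert p J)) = 0) : H f (insert p K) = - H f K := by
  unfold H
  rw [tc_ind, tc_ind, Finset.sum_powerset_insert hp, Finset.card_insert_of_notMem hp, pow_succ]
  have h0 : ∑ J ∈ K.powerset, (-1 : ℤ) ^ (insert p J).card * f (fun j => decide (j ∈ insert p J)) =
      0 := by
    refine Finset.sum_eq_zero fun J hJ => ?_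
    rw [h J (Finset.mem_powerset.1 hJ), mul_zero]
  rw [h0, add_zero]
  ring

/-- `K` contains a pattern -/
def Cx (k : ℕ) (K : Finset (Fin r)) : Prop := ∃ p ∈ pat k 0, p ⊆ K.map Fin.valEmbedding

/-- one step of a play -/
def Adj (k : ℕ) (K K' : Finset (Fin r)) : Prop :=
  ¬ Cx k K ∧ ¬ Cx k K' ∧ ∃ q : Fin r, (q.val = 0 ∨ ∃ j : Fin r, j.val + 1 = q.val ∧ j ∈ K) ∧
    q ∉ K ∧ K' = insert q K

/-- one step in any direction -/
def Rl (k : ℕ) (K K' : Finset (Fin r)) : Prop := Adj k K K' ∨ Adj k K' K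

/-- reachable from the empty set -/
def Reach (k : ℕ) (K : Finset (Fin r)) : Prop := Relation.ReflTransGen (Rl k) ∅ K

lemma reach_seq {k : ℕ} {K : Finset (Fin r)} (h : Reach k K) :
    ∃ (n : ℕ) (f : ℕ → Finset (Fin r)), f 0 = ∅ ∧ f n = K ∧ ∀ i < n, Rl k (f i) (f (i + 1)) := by
  unfold Reach at h
  induction h with
  | refl => exact ⟨0, fun _ => ∅, rfl, rfl, fun i hi => absurd hi (Nat.not_lt_zero i)⟩
  | @tail b c _ hbc ih =>
    obtain ⟨n, f, h0, hn, hf⟩ := ih
    refine ⟨n + 1, fun i => if i ≤ n then f i else c, ?_, ?_, ?_⟩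
    · show (if 0 ≤ n then f 0 else c) = ∅
      rw [if_pos (Nat.zero_le n), h0]
    · show (if n + 1 ≤ n then f (n + 1) else c) = c
      rw [if_neg (by omega)]
    · intro i hi
      show Rl k (if i ≤ n then f i else c) (if i + 1 ≤ n then f (i + 1) else c)
      rw [if_pos (by omega : i ≤ n)]
      by_cases hin : i + 1 ≤ n
      · rw [if_pos hin]
        exact hf i (by omega)
      · rw [if_neg hin]
        have : i = n := by omega
        rw [this, hn]
        exact hbc

lemma adj_leg {k : ℕ} {K K' : Finset (Fin r)} (h : Adj k K K') (x : ℕ)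
    (hx : ¬ (x ∈ K.map Fin.valEmbedding ↔ x ∈ K'.map Fin.valEmbedding)) :
    x = 0 ∨ (x - 1 ∈ K.map Fin.valEmbedding ∧ x - 1 ∈ K'.map Fin.valEmbedding) := by
  obtain ⟨_, _, q, hq, hqK, rfl⟩ := h
  have h1 : x = q.val := by
    by_contra hne
    apply hx
    rw [Finset.mem_map, Finset.mem_map]
    constructor
    · rintro ⟨a, ha, rfl⟩
      exact ⟨a, Finset.mem_insert_of_mem ha, rfl⟩
    · rintro ⟨a, ha, rfl⟩
      rcases Finset.mem_insert.1 ha with rfl | ha
      · exact absurd rfl hne
      · exact ⟨a, ha, rfl⟩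
  rcases hq with hq | ⟨j, hj, hjK⟩
  · exact Or.inl (h1.trans hq)
  · right
    have h2 : x - 1 = j.val := by omega
    rw [h2]
    exact ⟨Finset.mem_map.2 ⟨j, hjK, rfl⟩,
      Finset.mem_map.2 ⟨j, Finset.mem_insert_of_mem hjK, rfl⟩⟩

lemma rl_leg {k : ℕ} {K K' : Finset (Fin r)} (h : Rl k K K') (x : ℕ)
    (hx : ¬ (x ∈ K.map Fin.valEmbedding ↔ x ∈ K'.map Fin.valEmbedding)) :
    x = 0 ∨ (x - 1 ∈ K.map Fin.valEmbedding ∧ x - 1 ∈ K'.map Fin.valEmbedding) := by
  rcases h with h | h
  · exact adj_leg h x hx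
  · rcases adj_leg h x (fun h' => hx h'.symm) with h1 | h1
    · exact Or.inl h1
    · exact Or.inr ⟨h1.2, h1.1⟩

lemma rl_ncx {k : ℕ} {K K' : Finset (Fin r)} (h : Rl k K K') : ¬ Cx k K ∧ ¬ Cx k K' := by
  rcases h with h | h
  · exact ⟨h.1, h.2.1⟩
  · exact ⟨h.2.1, h.1⟩

lemma not_last {k : ℕ} (hr : 2 ^ k ≤ r) {K : Finset (Fin r)} (h : Reach k K) {l : Fin r}
    (hl : l.val + 1 = r) : l ∉ K := by
  intro hlK
  obtain ⟨n, f, h0, hn, hf⟩ := reach_seq h
  have hk : 1 ≤ 2 ^ k := Nat.one_le_two_pow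
  have hn1 : n ≠ 0 := by
    rintro rfl
    rw [h0] at hn
    rw [← hn] at hlK
    exact absurd hlK (Finset.notMem_empty _)
  have key : ∀ i ≤ n, ∀ x ∈ (f i).map Fin.valEmbedding, 2 ^ k - 1 ≤ x →
      ∃ t ≤ i, 2 ^ k - 1 ∈ (f t).map Fin.valEmbedding := by
    intro i
    induction i with
    | zero =>
      intro _ x hx _
      rw [h0] at hx
      simp at hx
    | succ i ih =>
      intro hi x hx hxk
      by_cases hxi : x ∈ (f i).map Fin.valEmbedding
      · obtain ⟨t, ht, ht'⟩ := ih (by omega) x hxi hxk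
        exact ⟨t, by omega, ht'⟩
      · by_cases hxe : x = 2 ^ k - 1
        · exact ⟨i + 1, le_rfl, hxe ▸ hx⟩
        · rcases rl_leg (hf i (by omega)) x (fun h' => hxi (h'.2 hx)) with h1 | h1
          · omega
          · obtain ⟨t, ht, ht'⟩ := ih (by omega) (x - 1) h1.1 (by omega)
            exact ⟨t, by omega, ht'⟩
  have hlm : l.val ∈ (f n).map Fin.valEmbedding := by
    rw [hn]
    exact Finset.mem_map.2 ⟨l, hlK, rfl⟩
  obtain ⟨t1, ht1, hmem⟩ := key n le_rfl l.val hlm (by omega)
  obtain ⟨t, _, htt, p, hp, hpK⟩ := play k 0 (fun t => (f t).map Fin.valEmbedding) 0 t1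
    (Nat.zero_le _) (fun t _ ht q _ _ hq => rl_leg (hf t (by omega)) q hq)
    (fun q _ _ => by
      show q ∉ (f 0).map Fin.valEmbedding
      rw [h0]
      simp) (by
      show 0 + 2 ^ k - 1 ∈ (f t1).map Fin.valEmbedding
      rw [Nat.zero_add]
      exact hmem)
  have hC : Cx k (f t) := ⟨p, hp, hpK⟩
  by_cases htn : t < n
  · exact (rl_ncx (hf t htn)).1 hC
  · have h1 : t = (n - 1) + 1 := by omega
    rw [h1] at hC
    exact (rl_ncx (hf (n - 1) (by omega))).2 hC

lemma reach_iff {k : ℕ} {K K' : Finset (Fin r)} (h : Adj k K K') : Reach k K ↔ Reach k K' :=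
  ⟨fun h' => Relation.ReflTransGen.tail h' (Or.inl h),
    fun h' => Relation.ReflTransGen.tail h' (Or.inr h)⟩

lemma ex_succ (c : Fin r → Bool) (p : Fin r) : ex c (p.val + 1) = c p := by
  unfold ex
  rw [if_neg (Nat.succ_ne_zero _), dif_pos (by have := p.isLt; omega : p.val + 1 - 1 < r)]
  rfl

/-- the weights -/
noncomputable def psi (k : ℕ) (K : Finset (Fin r)) : ℤ := if Reach k K then 1 else 0

/-- the step -/
lemma step_zero {k : ℕ} (hr : 2 ^ k ≤ r) {f : (Fin r → Bool) → ℤ}
    (hC : ∀ K, Cx k K → H f K = 0) {q : ℕ} (hq : q ≤ r)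
    (hf : ∀ c, f c ≠ 0 → ex c q = true ∧ ex c (q + 1) = false) :
    ∑ K : Finset (Fin r), psi k K * H f K = 0 := by
  have hk : 1 ≤ 2 ^ k := Nat.one_le_two_pow
  -- the position before `q`
  have hF1 : ∀ a : Fin r, a.val + 1 = q → ∀ K, a ∉ K → H f K = 0 := by
    intro a ha K haK
    refine H_zero_of fun J hJ => ?_
    by_contra hne
    have h1 := (hf _ hne).1
    rw [← ha, ex_succ, decide_eq_true_iff] at h1
    exact haK (hJ h1)
  by_cases hqr : q < r
  · have hF2 : ∀ K : Finset (Fin r), (⟨q, hqr⟩ : Fin r) ∉ K → H f (insert ⟨q, hqr⟩ K) = - H f K := by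
      intro K hK
      refine H_insert hK fun J _ => ?_
      by_contra hne
      have h1 := (hf _ hne).2
      have h2 := ex_succ (fun j => decide (j ∈ insert (⟨q, hqr⟩ : Fin r) J)) ⟨q, hqr⟩
      rw [h1] at h2
      have h3 : decide ((⟨q, hqr⟩ : Fin r) ∈ insert (⟨q, hqr⟩ : Fin r) J) = false := h2.symm
      rw [decide_eq_false_iff_not] at h3
      exact h3 (Finset.mem_insert_self _ _)
    have hu : (Finset.univ : Finset (Finset (Fin r))) =
        (insert (⟨q, hqr⟩ : Fin r) (Finset.univ.erase ⟨q, hqr⟩)).powerset := by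
      rw [Finset.insert_erase (Finset.mem_univ _), Finset.powerset_univ]
    rw [hu, Finset.sum_powerset_insert (Finset.notMem_erase _ _), ← Finset.sum_add_distrib]
    refine Finset.sum_eq_zero fun K hK => ?_
    have hpK : (⟨q, hqr⟩ : Fin r) ∉ K := by
      intro h'
      exact Finset.notMem_erase _ _ ((Finset.mem_powerset.1 hK) h')
    rw [hF2 K hpK]
    by_cases hH : H f K = 0
    · rw [hH]; ring
    · have hc1 : ¬ Cx k K := fun h' => hH (hC K h')
      have hc2 : ¬ Cx k (insert (⟨q, hqr⟩ : Fin r) K) := by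
        intro h'
        have h3 := hC _ h'
        rw [hF2 K hpK, neg_eq_zero] at h3
        exact hH h3
      have hadj : Adj k K (insert (⟨q, hqr⟩ : Fin r) K) := by
        refine ⟨hc1, hc2, ⟨q, hqr⟩, ?_, hpK, rfl⟩
        by_cases hq0 : q = 0
        · exact Or.inl hq0
        · right
          refine ⟨⟨q - 1, by omega⟩, ?_, ?_⟩
          · show q - 1 + 1 = q
            omega
          · by_contra hn
            exact hH (hF1 ⟨q - 1, by omega⟩ (by show q - 1 + 1 = q; omega) K hn)
      have hpsi : psi k (insert (⟨q, hqr⟩ : Fin r) K) = psi k K := by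
        unfold psi
        by_cases hR : Reach k K
        · rw [if_pos hR, if_pos ((reach_iff hadj).1 hR)]
        · rw [if_neg hR, if_neg (fun h' => hR ((reach_iff hadj).2 h'))]
      rw [hpsi]
      ring
  · have hqe : q = r := le_antisymm hq (not_lt.1 hqr)
    refine Finset.sum_eq_zero fun K _ => ?_
    by_cases hH : H f K = 0
    · rw [hH, mul_zero]
    · have hl : (⟨r - 1, by omega⟩ : Fin r) ∈ K := by
        by_contra hn
        exact hH (hF1 ⟨r - 1, by omega⟩ (by show r - 1 + 1 = q; omega) K hn)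
      have hR : ¬ Reach k K := fun h' =>
        not_last hr h' (l := ⟨r - 1, by omega⟩) (by show r - 1 + 1 = r; omega) hl
      unfold psi
      rw [if_neg hR, zero_mul]

end WalkAux

open WalkAux in
theorem walk {k : ℕ} (hr : 2 ^ k ≤ r) (T : ℕ) (g : ℕ → (Fin r → Bool) → ℤ)
    (h0 : ∀ c, g 0 c = 1)
    (hstep : ∀ t < T, ∃ q ≤ r, ∀ c, g t c ≠ g (t + 1) c → ex c q = true ∧ ex c (q + 1) = false)
    (hT : ∀ c, g T c = 0) :
    ∃ t ≤ T, ∃ K : Finset (Fin r), tc (g t) K (fun _ => false) ≠ 0 ∧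
      ∃ p ∈ pat k 0, p ⊆ K.map Fin.valEmbedding := by
  by_contra hne
  have hCx : ∀ t ≤ T, ∀ K : Finset (Fin r), Cx k K → H (g t) K = 0 := by
    intro t ht K hK
    unfold H
    by_cases h1 : tc (g t) K (fun _ => false) = 0
    · rw [h1, mul_zero]
    · exact absurd ⟨t, ht, K, h1, hK⟩ hne
  have hS : ∀ t < T, ∑ K : Finset (Fin r), psi k K * H (g t) K =
      ∑ K : Finset (Fin r), psi k K * H (g (t + 1)) K := by
    intro t ht
    obtain ⟨q, hq, hqc⟩ := hstep t ht
    have h1 := step_zero (k := k) hr (f := fun c => g t c - g (t + 1) c)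
      (fun K hK => by rw [H_sub, hCx t ht.le K hK, hCx (t + 1) ht K hK, sub_zero]) hq
      (fun c hc => hqc c (fun h' => hc (by show g t c - g (t + 1) c = 0; rw [h', sub_self])))
    simp only [H_sub, mul_sub, Finset.sum_sub_distrib] at h1
    exact sub_eq_zero.1 h1
  have hall : ∀ t ≤ T, ∑ K : Finset (Fin r), psi k K * H (g t) K = 1 := by
    intro t
    induction t with
    | zero =>
      intro _
      have h1 : ∀ K : Finset (Fin r), H (g 0) K = if K = ∅ then 1 else 0 := by
        intro K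
        unfold H
        rw [tc_ind]
        simp only [h0, mul_one]
        rw [Finset.sum_powerset_neg_one_pow_card]
        by_cases hK : K = ∅
        · rw [if_pos hK, hK]
          simp
        · rw [if_neg hK, mul_zero]
      simp only [h1]
      rw [Finset.sum_eq_single ∅]
      · rw [if_pos rfl, mul_one]
        have hR : Reach k (∅ : Finset (Fin r)) := Relation.ReflTransGen.refl
        unfold psi
        rw [if_pos hR]
      · intro K _ hK
        rw [if_neg hK, mul_zero]
      · intro h'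
        exact absurd (Finset.mem_univ _) h'
    | succ t ih =>
      intro ht
      rw [← hS t (by omega)]
      exact ih (by omega)
  have h1 := hall T le_rfl
  have h2 : ∑ K : Finset (Fin r), psi k K * H (g T) K = 0 := by
    refine Finset.sum_eq_zero fun K _ => ?_
    rw [H_zero_of (fun J _ => hT _), mul_zero]
  rw [h2] at h1
  exact absurd h1 (by norm_num)

end MTN
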